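import Pool.Agent.TH18.APC.LocPoly

/-! Series of subgroups, directed unions, abelian and solvable groups. -/

set_option autoImplicit false

namespace Pool.Agent.TH18.APC

open Classical Pointwise Pool.Agent.TH18.AC

section
variable {G H : Type} [Group G] [Group H]

theorem APCon_comap (ι : H →* G) (hι : Function.Injective ι) {S : Set G} {S' : Set H}
    (hS : ∀ x ∈ S', ι x ∈ S) (h : APCon S) : APCon S' := by
  intro s
  obtain ⟨n, c, κ, D, h1, h2, h3⟩ := h (fun i => (s i).image ι)
  obtain ⟨κ', h4, h5⟩ := exists_base (Y := S') (s := s) (c := fun x => c (ι x))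
    (fun x => κ (ι x)) ((D⁻¹ * D).preimage ι hι.injOn)
    (by
      intro x hx y hy hc hs
      refine h2 _ (hS x hx) _ (hS y hy) hc ?_
      rw [← map_inv, ← map_mul]
      exact Finset.mem_image_of_mem _ hs)
    (by
      intro x hx y hy hc hl
      have hl' : κ (ι x) = κ (ι y) := hl
      rw [Finset.mem_preimage, map_mul, map_inv]
      have h6 : (ι x)⁻¹ * ι y = ((κ (ι x))⁻¹ * ι x)⁻¹ * ((κ (ι y))⁻¹ * ι y) := by
        rw [hl']; group
      rw [h6]
      exact Finset.mul_mem_mul (Finset.inv_mem_inv (h3 _ (hS x hx))) (h3 _ (hS y hy)))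
  exact ⟨n, fun x => c (ι x), κ', _, fun x hx => h1 _ (hS x hx), h4, h5⟩

theorem APCon_one : APCon ({1} : Set G) := by
  intro s
  refine ⟨1, fun _ => 0, fun _ => 1, {1}, fun _ _ => Nat.one_pos, fun _ _ _ _ _ _ => rfl, ?_⟩
  intro x hx
  rw [Set.mem_singleton_iff.1 hx]
  simp

/-- a finite series of subgroups -/
theorem APC_series (N : ℕ → Subgroup G) (r : ℕ) (h0 : N 0 = ⊥) (hr : N r = ⊤)
    (h : ∀ i < r, N i ≤ N (i + 1) ∧ ∃ (Q : Type) (_ : Group Q) (f : N (i + 1) →* Q),
      (∀ x : N (i + 1), f x = 1 ↔ (x : G) ∈ N i) ∧ APCon (Set.univ : Set Q)) :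
    APCon (Set.univ : Set G) := by
  have key : ∀ i ≤ r, APCon (N i : Set G) := by
    intro i
    induction i with
    | zero =>
      intro _
      rw [h0, Subgroup.coe_bot]
      exact APCon_one
    | succ i ih =>
      intro hi
      obtain ⟨-, Q, _, f, hf, hQ⟩ := h i (by omega)
      have h1 : APCon (f.ker : Set (N (i + 1))) :=
        APCon_comap (N (i + 1)).subtype (Subgroup.subtype_injective _)
          (fun x hx => (hf x).1 hx) (ih (by omega))
      have h2 := APCon_range (N (i + 1)).subtype (Subgroup.subtype_injective _)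
        (APC_ext f hQ h1)
      have h3 : Set.range (N (i + 1)).subtype = (N (i + 1) : Set G) := by
        ext x
        simp
      rw [h3] at h2
      exact h2
  have := key r le_rfl
  rw [hr, Subgroup.coe_top] at this
  exact this

theorem pow_image_card (ι : H →* G) (Φ : Finset H) (m : ℕ) :
    ((Φ.image ι) ^ m).card ≤ (Φ ^ m).card := by
  have h1 : (Φ.image ι) ^ m ⊆ (Φ ^ m).image ι := by
    induction m with
    | zero =>
      intro x hx
      rw [pow_zero] at hx ⊢
      rw [Finset.mem_one.1 hx]
      exact Finset.mem_image.2 ⟨1, Finset.mem_one.2 rfl, map_one _⟩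
    | succ m ih =>
      intro x hx
      rw [pow_succ] at hx
      obtain ⟨a, ha, b, hb, rfl⟩ := Finset.mem_mul.1 hx
      obtain ⟨a', ha', rfl⟩ := Finset.mem_image.1 (ih ha)
      obtain ⟨b', hb', rfl⟩ := Finset.mem_image.1 hb
      refine Finset.mem_image.2 ⟨a' * b', ?_, map_mul _ _ _⟩
      rw [pow_succ]
      exact Finset.mul_mem_mul ha' hb'
  exact (Finset.card_le_card h1).trans Finset.card_image_le

theorem LocPoly_iUnion (K : ℕ → Subgroup G) (hmono : Monotone K) (hun : ∀ g, ∃ n, g ∈ K n)
    (h : ∀ n, LocPoly (K n)) : LocPoly G := by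
  intro Φ
  choose idx hidx using hun
  obtain ⟨n, hn⟩ : ∃ n, ∀ g ∈ Φ, g ∈ K n :=
    ⟨Φ.sup idx, fun g hg => hmono (Finset.le_sup hg) (hidx g)⟩
  have hinj : Function.Injective (K n).subtype := Subgroup.subtype_injective _
  let Φ' : Finset (K n) := Φ.preimage (K n).subtype hinj.injOn
  have hΦ' : Φ = Φ'.image (K n).subtype := by
    ext g
    constructor
    · intro hg
      exact Finset.mem_image.2 ⟨⟨g, hn g hg⟩, Finset.mem_preimage.2 hg, rfl⟩
    · intro hg
      obtain ⟨x, hx, rfl⟩ := Finset.mem_image.1 hg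
      exact Finset.mem_preimage.1 hx
  obtain ⟨C, q, hC⟩ := h n Φ'
  refine ⟨C, q, fun m => ?_⟩
  rw [hΦ']
  exact (pow_image_card (K n).subtype Φ' m).trans (hC m)

end

/-- abelian groups have polynomial growth -/
theorem LocPoly_comm (A : Type) [CommGroup A] : LocPoly A := by
  intro Φ
  refine ⟨1, Φ.card, fun n => ?_⟩
  rw [one_mul]
  have h1 : ∀ n, ∀ x ∈ Φ ^ n, ∃ e : A → ℕ, (∀ g ∈ Φ, e g ≤ n) ∧ x = ∏ g ∈ Φ, g ^ e g := by
    intro n
    induction n with
    | zero =>
      intro x hx
      rw [pow_zero] at hx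
      refine ⟨fun _ => 0, fun _ _ => le_rfl, ?_⟩
      rw [Finset.mem_one.1 hx]
      simp
    | succ n ih =>
      intro x hx
      rw [pow_succ] at hx
      obtain ⟨a, ha, b, hb, rfl⟩ := Finset.mem_mul.1 hx
      obtain ⟨e, he, rfl⟩ := ih a ha
      refine ⟨fun g => if g = b then e g + 1 else e g, ?_, ?_⟩
      · intro g hg
        have := he g hg
        by_cases h : g = b
        · simp only [h, if_true]
          have := he b hb
          omega
        · simp only [h, if_false]
          omega
      · have h2 : ∀ g ∈ Φ, g ^ (if g = b then e g + 1 else e g) =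
            g ^ e g * (if g = b then b else 1) := by
          intro g _
          by_cases h : g = b
          · rw [if_pos h, if_pos h, h, pow_succ]
          · rw [if_neg h, if_neg h, mul_one]
        rw [Finset.prod_congr rfl h2, Finset.prod_mul_distrib, Finset.prod_ite_eq' Φ b,
          if_pos hb]
  have h2 : Φ ^ n ⊆ (Fintype.piFinset (fun _ : Φ => Finset.range (n + 1))).image
      (fun e => ∏ g : Φ, (g : A) ^ e g) := by
    intro x hx
    obtain ⟨e, he, rfl⟩ := h1 n x hx
    refine Finset.mem_image.2 ⟨fun g => e g, ?_, ?_⟩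
    · rw [Fintype.mem_piFinset]
      intro g
      exact Finset.mem_range.2 (Nat.lt_succ_of_le (he g g.2))
    · exact Finset.prod_coe_sort Φ (fun g => g ^ e g)
  refine (Finset.card_le_card h2).trans (Finset.card_image_le.trans ?_)
  rw [Fintype.card_piFinset]
  simp

/-- solvable groups have asymptotic property C -/
theorem APC_solvable (G : Type) [Group G] [hG : Group.IsSolvable G] : APCon (Set.univ : Set G) := by
  obtain ⟨r, hr⟩ := hG.solvable
  refine APC_series (fun i => derivedSeries G (r - i)) r ?_ ?_ ?_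
  · simpa using hr
  · simp
  · intro i hi
    have h1 : r - i = (r - (i + 1)) + 1 := by omega
    have h2 : derivedSeries G (r - i) =
        ⁅derivedSeries G (r - (i + 1)), derivedSeries G (r - (i + 1))⁆ := by
      rw [h1, derivedSeries_succ]
    refine ⟨?_, Abelianization (derivedSeries G (r - (i + 1))), inferInstance,
      Abelianization.of, ?_, APC_of_locPoly (LocPoly_comm _)⟩
    · show derivedSeries G (r - i) ≤ derivedSeries G (r - (i + 1))
      rw [h2]
      exact Subgroup.commutator_le_self _
    · intro x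
      show Abelianization.of x = 1 ↔ (x : G) ∈ derivedSeries G (r - i)
      rw [h2, ← Subgroup.map_subtype_commutator, ← MonoidHom.mem_ker, Abelianization.ker_of]
      constructor
      · intro hx
        exact ⟨x, hx, rfl⟩
      · rintro ⟨y, hy, hxy⟩
        have : y = x := Subtype.ext hxy
        rw [← this]
        exact hy

end Pool.Agent.TH18.APC
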