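import Pool.Agent.TH18.APC.Ext

/-! Metric form and colour form of asymptotic property C. -/

set_option autoImplicit false

namespace Pool.Agent.TH18.APC

open Classical Pointwise

section
variable {G N : Type} [Group G] [Group N]

theorem dist_le_sum (d : G → G → ℝ) (s : Finset G) {g : G} (hg : g ∈ s) :
    d 1 g ≤ ∑ h ∈ s, |d 1 h| :=
  (le_abs_self _).trans (Finset.single_le_sum (f := fun h => |d 1 h|)
    (fun _ _ => abs_nonneg _) hg)

theorem dist_eq (d : G → G → ℝ) (hinv : ∀ g x y, d (g * x) (g * y) = d x y) (x y : G) :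
    d x y = d 1 (x⁻¹ * y) := by
  have := hinv x 1 (x⁻¹ * y)
  rw [mul_one, mul_inv_cancel_left] at this
  exact this

/-- from covers to colourings -/
theorem APCon_of_metric (Y : Set G) (d : G → G → ℝ)
    (hinv : ∀ g x y, d (g * x) (g * y) = d x y) (hprop : ∀ r : ℝ, Set.Finite {x : G | d 1 x ≤ r})
    (h : ∀ R : ℕ → ℝ, (∀ i, 0 < R i) → ∃ n : ℕ, ∃ U : ℕ → Set (Set G),
      (∀ i < n, ∃ B : ℝ, ∀ V ∈ U i, ∀ x ∈ V, ∀ y ∈ V, d x y ≤ B) ∧
      (∀ i < n, ∀ V ∈ U i, ∀ W ∈ U i, V ≠ W → ∀ x ∈ V, ∀ y ∈ W, R i < d x y) ∧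
      (∀ x ∈ Y, ∃ i < n, ∃ V ∈ U i, x ∈ V)) : APCon Y := by
  intro s
  obtain ⟨n, U, h1, h2, h3⟩ := h (fun i => 1 + ∑ g ∈ s i, |d 1 g|) (fun i => by
    have : 0 ≤ ∑ g ∈ s i, |d 1 g| := Finset.sum_nonneg (fun _ _ => abs_nonneg _)
    linarith)
  have h4 : ∀ x : G, ∃ p : ℕ × Set G, x ∈ Y → p.1 < n ∧ p.2 ∈ U p.1 ∧ x ∈ p.2 := by
    intro x
    by_cases hx : x ∈ Y
    · obtain ⟨i, hi, V, hV, hxV⟩ := h3 x hx
      exact ⟨(i, V), fun _ => ⟨hi, hV, hxV⟩⟩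
    · exact ⟨(0, ∅), fun h => absurd h hx⟩
  choose p hp using h4
  have h5 : ∀ i, ∃ B : ℝ, i < n → ∀ V ∈ U i, ∀ x ∈ V, ∀ y ∈ V, d x y ≤ B := by
    intro i
    by_cases hi : i < n
    · obtain ⟨B, hB⟩ := h1 i hi
      exact ⟨B, fun _ => hB⟩
    · exact ⟨0, fun h => absurd h hi⟩
  choose B hB using h5
  obtain ⟨κ, h6, h7⟩ := exists_base (Y := Y) (s := s) (c := fun x => (p x).1)
    (fun x => (p x).2) (hprop (∑ i ∈ Finset.range n, |B i|)).toFinset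
    (by
      intro x hx y hy hc hs
      by_contra hne
      obtain ⟨h8, h9, h10⟩ := hp x hx
      obtain ⟨h11, h12, h13⟩ := hp y hy
      have hc' : (p x).1 = (p y).1 := hc
      rw [← hc'] at h12
      have h14 := h2 (p x).1 h8 (p x).2 h9 (p y).2 h12 hne x h10 y h13
      rw [dist_eq d hinv x y] at h14
      have h15 := dist_le_sum d (s (p x).1) hs
      linarith)
    (by
      intro x hx y hy hc hl
      obtain ⟨h8, h9, h10⟩ := hp x hx
      obtain ⟨h11, h12, h13⟩ := hp y hy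
      have hl' : (p x).2 = (p y).2 := hl
      rw [← hl'] at h13
      rw [Set.Finite.mem_toFinset]
      show d 1 (x⁻¹ * y) ≤ _
      rw [← dist_eq d hinv x y]
      refine (hB _ h8 _ h9 x h10 y h13).trans ((le_abs_self _).trans ?_)
      exact Finset.single_le_sum (f := fun i => |B i|) (fun _ _ => abs_nonneg _)
        (Finset.mem_range.2 h8))
  exact ⟨n, fun x => (p x).1, κ, _, fun x hx => (hp x hx).1, h6, h7⟩

/-- from colourings to covers -/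
theorem metric_of_APC (hG : APCon (Set.univ : Set G)) (d : G → G → ℝ)
    (hinv : ∀ g x y, d (g * x) (g * y) = d x y) (hprop : ∀ r : ℝ, Set.Finite {x : G | d 1 x ≤ r})
    (R : ℕ → ℝ) : ∃ n : ℕ, ∃ U : ℕ → Set (Set G), ∃ B : ℝ,
      (∀ i < n, ∀ V ∈ U i, ∀ x ∈ V, ∀ y ∈ V, d x y ≤ B) ∧
      (∀ i < n, ∀ V ∈ U i, ∀ W ∈ U i, V ≠ W → ∀ x ∈ V, ∀ y ∈ W, R i < d x y) ∧
      (∀ x : G, ∃ i < n, ∃ V ∈ U i, x ∈ V) := by
  obtain ⟨n, c, κ, D, h1, h2, h3⟩ := hG (fun i => (hprop (R i)).toFinset)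
  refine ⟨n, fun i => {V | ∃ b : G, V = {y | c y = i ∧ κ y = b}},
    ∑ g ∈ D⁻¹ * D, |d 1 g|, ?_, ?_, ?_⟩
  · rintro i hi V ⟨b, rfl⟩ x ⟨hx, hx'⟩ y ⟨hy, hy'⟩
    rw [dist_eq d hinv x y]
    refine dist_le_sum d _ ?_
    have h4 : x⁻¹ * y = ((κ x)⁻¹ * x)⁻¹ * ((κ y)⁻¹ * y) := by rw [hx', hy']; group
    rw [h4]
    exact Finset.mul_mem_mul (Finset.inv_mem_inv (h3 x (Set.mem_univ x))) (h3 y (Set.mem_univ y))
  · rintro i hi V ⟨b, rfl⟩ W ⟨b', rfl⟩ hne x ⟨hx, hx'⟩ y ⟨hy, hy'⟩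
    by_contra hcon
    push Not at hcon
    rw [dist_eq d hinv x y] at hcon
    have h4 := h2 x (Set.mem_univ x) y (Set.mem_univ y) (hx.trans hy.symm)
      (by rw [hx, Set.Finite.mem_toFinset]; exact hcon)
    refine hne ?_
    rw [← hx', ← hy', h4]
  · intro x
    exact ⟨c x, h1 x (Set.mem_univ x), _, ⟨κ x, rfl⟩, rfl, rfl⟩

/-- images under injective homomorphisms -/
theorem APCon_range (ι : N →* G) (hι : Function.Injective ι) (h : APCon (Set.univ : Set N)) :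
    APCon (Set.range ι) := by
  intro s
  obtain ⟨n, c, κ, D, h1, h2, h3⟩ := h (fun i => (s i).preimage ι hι.injOn)
  have hinv : ∀ x : N, Function.invFun ι (ι x) = x := Function.leftInverse_invFun hι
  refine ⟨n, fun x => c (Function.invFun ι x), fun x => ι (κ (Function.invFun ι x)),
    D.image ι, ?_, ?_, ?_⟩
  · intro x hx
    exact h1 _ (Set.mem_univ _)
  · rintro _ ⟨x, rfl⟩ _ ⟨y, rfl⟩ hc hs
    show ι (κ (Function.invFun ι (ι x))) = ι (κ (Function.invFun ι (ι y)))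
    have hc' : c (Function.invFun ι (ι x)) = c (Function.invFun ι (ι y)) := hc
    have hs' : (ι x)⁻¹ * ι y ∈ s (c (Function.invFun ι (ι x))) := hs
    rw [hinv, hinv] at hc'
    rw [hinv] at hs'
    rw [hinv, hinv]
    refine congrArg ι (h2 x (Set.mem_univ x) y (Set.mem_univ y) hc' ?_)
    rw [Finset.mem_preimage, map_mul, map_inv]
    exact hs'
  · rintro _ ⟨x, rfl⟩
    show (ι (κ (Function.invFun ι (ι x))))⁻¹ * ι x ∈ _
    rw [hinv, ← map_inv, ← map_mul]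
    exact Finset.mem_image_of_mem _ (h3 x (Set.mem_univ x))

end

end Pool.Agent.TH18.APC
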