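import Pool.Agent.TH18.APC.Ext

/-! The fibering theorem for controlled maps between groups. -/

set_option autoImplicit false

namespace Pool.Agent.TH18.APC

open Classical Pointwise

section
variable {G Q : Type} [Group G] [Group Q]

theorem APCon_union {A B : Set G} (hA : APCon A) (hB : APCon B) : APCon (A ∪ B) := by
  intro s
  obtain ⟨n, c, κ, D, h1, h2, h3⟩ := hA s
  obtain ⟨n', c', κ', D', h1', h2', h3'⟩ := hB (fun i => s (n + i))
  refine ⟨n + n', fun x => if x ∈ A then c x else n + c' x,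
    fun x => if x ∈ A then κ x else κ' x, D ∪ D', ?_, ?_, ?_⟩
  · intro x hx
    by_cases hxA : x ∈ A
    · simp only [hxA, if_true]
      exact Nat.lt_add_right _ (h1 x hxA)
    · simp only [hxA, if_false]
      exact Nat.add_lt_add_left (h1' x (hx.resolve_left hxA)) _
  · intro x hx y hy hc hs
    by_cases hxA : x ∈ A
    · by_cases hyA : y ∈ A
      · simp only [hxA, hyA, if_true] at hc hs ⊢
        exact h2 x hxA y hyA hc hs
      · simp only [hxA, hyA, if_true, if_false] at hc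
        have := h1 x hxA
        omega
    · have hxB := hx.resolve_left hxA
      by_cases hyA : y ∈ A
      · simp only [hxA, hyA, if_true, if_false] at hc
        have := h1 y hyA
        omega
      · have hyB := hy.resolve_left hyA
        simp only [hxA, hyA, if_false] at hc hs ⊢
        exact h2' x hxB y hyB (by omega) hs
  · intro x hx
    by_cases hxA : x ∈ A
    · simp only [hxA, if_true]
      exact Finset.mem_union_left _ (h3 x hxA)
    · simp only [hxA, if_false]
      exact Finset.mem_union_right _ (h3' x (hx.resolve_left hxA))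

theorem APCon_mono {A B : Set G} (h : A ⊆ B) (hB : APCon B) : APCon A := by
  intro s
  obtain ⟨n, c, κ, D, h1, h2, h3⟩ := hB s
  exact ⟨n, c, κ, D, fun x hx => h1 x (h hx), fun x hx y hy => h2 x (h hx) y (h hy),
    fun x hx => h3 x (h hx)⟩

theorem APCon_empty : APCon (∅ : Set G) := by
  intro s
  exact ⟨0, fun _ => 0, fun _ => 1, ∅, fun _ hx => absurd hx (by simp),
    fun _ hx => absurd hx (by simp), fun _ hx => absurd hx (by simp)⟩

theorem APCon_translate {A : Set G} (u : G) (hA : APCon A) : APCon {x | u⁻¹ * x ∈ A} := by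
  intro s
  obtain ⟨n, c, κ, D, h1, h2, h3⟩ := hA s
  refine ⟨n, fun x => c (u⁻¹ * x), fun x => u * κ (u⁻¹ * x), D, ?_, ?_, ?_⟩
  · intro x hx
    exact h1 _ hx
  · intro x hx y hy hc hs
    have h4 := h2 _ hx _ hy hc (by
      have h5 : (u⁻¹ * x)⁻¹ * (u⁻¹ * y) = x⁻¹ * y := by group
      rw [h5]
      exact hs)
    show u * κ (u⁻¹ * x) = u * κ (u⁻¹ * y)
    rw [h4]
  · intro x hx
    have h4 := h3 _ hx
    have h5 : (u * κ (u⁻¹ * x))⁻¹ * x = (κ (u⁻¹ * x))⁻¹ * (u⁻¹ * x) := by group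
    rw [h5]
    exact h4

/-- finitely many left translates -/
theorem APCon_translates {A : Set G} (hA : APCon A) (T : Finset G) :
    APCon {x | ∃ u ∈ T, u⁻¹ * x ∈ A} := by
  induction T using Finset.induction_on with
  | empty =>
    refine APCon_mono ?_ APCon_empty
    rintro x ⟨u, hu, -⟩
    exact absurd hu (by simp)
  | insert a T _ ih =>
    refine APCon_mono ?_ (APCon_union (APCon_translate a hA) ih)
    rintro x ⟨u, hu, hx⟩
    rcases Finset.mem_insert.1 hu with rfl | hu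
    · exact Or.inl hx
    · exact Or.inr ⟨u, hu, hx⟩

/-- **Fibering theorem.** Let `f : G → Q` be a controlled map to a group with asymptotic property
C. If the fibres of `f` have asymptotic property C uniformly, then so does `G`. -/
theorem APC_fib (f : G → Q) (ctl : Finset G → Finset Q)
    (hctl : ∀ s x y, x⁻¹ * y ∈ s → (f x)⁻¹ * f y ∈ ctl s) (Yf : Finset Q → Set G)
    (hYf : ∀ E x y, (f x)⁻¹ * f y ∈ E → x⁻¹ * y ∈ Yf E)
    (hQ : APCon (Set.univ : Set Q)) (hN : ∀ E, APCon (Yf E)) :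
    APCon (Set.univ : Set G) := by
  intro F
  have hq := fun K : ℕ => hQ (fun i => ctl (F (K + i)))
  choose n c κ L h1 h2 h3 using hq
  replace h1 : ∀ K x, c K x < n K := fun K x => h1 K x (Set.mem_univ x)
  replace h2 : ∀ K x y, c K x = c K y → x⁻¹ * y ∈ ctl (F (K + c K x)) → κ K x = κ K y :=
    fun K x y => h2 K x (Set.mem_univ x) y (Set.mem_univ y)
  replace h3 : ∀ K x, (κ K x)⁻¹ * x ∈ L K := fun K x => h3 K x (Set.mem_univ x)
  have hκ : ∀ K x y, κ K x = κ K y → x⁻¹ * y ∈ (L K)⁻¹ * L K := by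
    intro K x y hxy
    have h4 : x⁻¹ * y = ((κ K x)⁻¹ * x)⁻¹ * ((κ K y)⁻¹ * y) := by rw [hxy]; group
    rw [h4]
    exact Finset.mul_mem_mul (Finset.inv_mem_inv (h3 K x)) (h3 K y)
  let K : ℕ → ℕ := fun j => Nat.rec 0 (fun _ k => k + n k) j
  have hK : ∀ j, K (j + 1) = K j + n (K j) := fun j => rfl
  have hKmono : ∀ i j, i ≤ j → K i ≤ K j := by
    intro i j hij
    induction hij with
    | refl => exact le_rfl
    | step _ ih => exact ih.trans (by rw [hK]; exact Nat.le_add_right _ _)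
  -- base points
  let rep : ℕ × Q → G := fun p =>
    if h : ∃ y, c 0 (f y) = p.1 ∧ κ 0 (f y) = p.2 then Classical.choose h else 1
  let g : G → G := fun x => rep (c 0 (f x), κ 0 (f x))
  have hg : ∀ x, c 0 (f (g x)) = c 0 (f x) ∧ κ 0 (f (g x)) = κ 0 (f x) := by
    intro x
    have h : ∃ y, c 0 (f y) = (c 0 (f x), κ 0 (f x)).1 ∧ κ 0 (f y) = (c 0 (f x), κ 0 (f x)).2 :=
      ⟨x, rfl, rfl⟩
    have h4 : g x = Classical.choose h := dif_pos h
    rw [h4]
    exact Classical.choose_spec h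
  have hgg : ∀ x y, f (g x) = f (g y) → g x = g y := by
    intro x y hxy
    have h4 : c 0 (f x) = c 0 (f y) := by rw [← (hg x).1, ← (hg y).1, hxy]
    have h5 : κ 0 (f x) = κ 0 (f y) := by rw [← (hg x).2, ← (hg y).2, hxy]
    show rep (c 0 (f x), κ 0 (f x)) = rep (c 0 (f y), κ 0 (f y))
    rw [h4, h5]
  have hgY0 : ∀ x, (f (g x))⁻¹ * f x ∈ (L 0)⁻¹ * L 0 := fun x => hκ 0 _ _ (hg x).2
  have hgY : ∀ x, (g x)⁻¹ * x ∈ Yf ((L 0)⁻¹ * L 0) := fun x => hYf _ _ _ (hgY0 x)
  have hgY' : ∀ x, (f x)⁻¹ * f (g x) ∈ (L 0)⁻¹ * L 0 := fun x => hκ 0 _ _ (hg x).2.symm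
  -- colourings
  have hcol := fun j : ℕ => exists_coloring hQ
    ((L 0)⁻¹ * L 0 * ((L (K j))⁻¹ * L (K j)) * ((L 0)⁻¹ * L 0))
  choose M χ hM hχ using hcol
  have hχg : ∀ j x y, κ (K j) (f x) = κ (K j) (f y) → χ j (f (g x)) = χ j (f (g y)) →
      g x = g y := by
    intro j x y hxy hc
    refine hgg x y (hχ j _ _ ?_ hc)
    have h4 : (f (g x))⁻¹ * f (g y) =
        ((f (g x))⁻¹ * f x) * ((f x)⁻¹ * f y) * ((f y)⁻¹ * f (g y)) := by
      group
    rw [h4]
    exact Finset.mul_mem_mul (Finset.mul_mem_mul (hgY0 x) (hκ _ _ _ hxy)) (hgY' y)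
  -- the scales
  let Ψ : ℕ → Finset G := fun j => (Finset.range (n (K j))).biUnion (fun i => F (K j + i))
  let Φ : ℕ → Finset G := fun j => insert 1 (Ψ j ∪ (Ψ j)⁻¹)
  have hΦ1 : ∀ j, (1 : G) ∈ Φ j := fun j => Finset.mem_insert_self _ _
  have hΦs : ∀ j, ∀ a ∈ Φ j, a⁻¹ ∈ Φ j := by
    intro j a ha
    rcases Finset.mem_insert.1 ha with rfl | ha
    · rw [inv_one]; exact hΦ1 j
    · refine Finset.mem_insert_of_mem ?_
      rcases Finset.mem_union.1 ha with ha | ha
      · exact Finset.mem_union_right _ (Finset.inv_mem_inv ha)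
      · exact Finset.mem_union_left _ (Finset.mem_inv'.1 ha)
  have hΦF : ∀ j i, i < n (K j) → F (K j + i) ⊆ Φ j := by
    intro j i hi a ha
    exact Finset.mem_insert_of_mem (Finset.mem_union_left _
      (Finset.mem_biUnion.2 ⟨i, Finset.mem_range.2 hi, ha⟩))
  obtain ⟨l, ρ, cc, κκ, -, hcl, -, -, hCB⟩ := TP.zero
    (hN ((L 0)⁻¹ * L 0)) M hΦ1 (fun _ => ∅) {1} (Finset.mem_singleton_self _)
  let χG : G → ℕ → ℕ := fun y j => χ j (f y)
  let lev : G → ℕ := fun x => cc (χG (g x)) ((g x)⁻¹ * x)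
  have hlev : ∀ x, lev x < l := fun x => hcl _ (fun j => hM j _) _ (hgY x)
  let S : ℕ → ℕ → Q → Set G := fun j i q =>
    {x | (c (K j) (f x) = i ∧ κ (K j) (f x) = q) ∧ lev x = j}
  have hS : ∀ j i q, CB (Φ j) ρ (S j i q) := by
    intro j i q
    have h4 := hCB j (Nat.zero_le _) {x | c (K j) (f x) = i ∧ κ (K j) (f x) = q} g χG
      ⟨fun x _ => hgY x, fun x _ j => hM j _, fun x hx y hy hxy =>
        hχg j x y (hx.2.trans hy.2.symm) hxy⟩ ∅ (CB_empty _ _)
    rw [Set.empty_union] at h4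
    exact h4
  let lab : G → ℕ × Q × Set G := fun x => (lev x, κ (K (lev x)) (f x),
    {y | Relation.ReflTransGen (St (Φ (lev x))
      (S (lev x) (c (K (lev x)) (f x)) (κ (K (lev x)) (f x)))) x y})
  have hcol : ∀ x y, K (lev x) + c (K (lev x)) (f x) = K (lev y) + c (K (lev y)) (f y) →
      lev x = lev y ∧ c (K (lev x)) (f x) = c (K (lev x)) (f y) := by
    intro x y h
    have h4 : lev x = lev y := by
      rcases lt_trichotomy (lev x) (lev y) with h5 | h5 | h5
      · have h6 := hKmono (lev x + 1) (lev y) h5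
        rw [hK] at h6
        have h7 := h1 (K (lev x)) (f x)
        omega
      · exact h5
      · have h6 := hKmono (lev y + 1) (lev x) h5
        rw [hK] at h6
        have h7 := h1 (K (lev y)) (f y)
        omega
    refine ⟨h4, ?_⟩
    rw [← h4] at h
    omega
  obtain ⟨κ', h4, h5⟩ := exists_base (Y := Set.univ) (s := F)
    (c := fun x => K (lev x) + c (K (lev x)) (f x)) lab ρ
    (by
      intro x _ y _ hc hxy
      obtain ⟨h4, h5⟩ := hcol x y hc
      have h6 : κ (K (lev x)) (f x) = κ (K (lev x)) (f y) := by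
        exact h2 _ _ _ h5 (hctl _ _ _ hxy)
      have h7 : x⁻¹ * y ∈ Φ (lev x) := hΦF _ _ (h1 _ _) hxy
      have hx : x ∈ S (lev x) (c (K (lev x)) (f x)) (κ (K (lev x)) (f x)) := ⟨⟨rfl, rfl⟩, rfl⟩
      have hy : y ∈ S (lev x) (c (K (lev x)) (f x)) (κ (K (lev x)) (f x)) :=
        ⟨⟨h5.symm, h6.symm⟩, h4.symm⟩
      have h8 : Relation.ReflTransGen (St (Φ (lev x))
        (S (lev x) (c (K (lev x)) (f x)) (κ (K (lev x)) (f x)))) x y :=
        Relation.ReflTransGen.single ⟨hx, hy, h7⟩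
      have h9 := St_symm (hΦs (lev x)) h8
      show (lev x, κ (K (lev x)) (f x), _) = (lev y, κ (K (lev y)) (f y), _)
      rw [← h4, ← h6, ← h5]
      refine congrArg _ (congrArg _ ?_)
      ext z
      exact ⟨fun h => h9.trans h, fun h => h8.trans h⟩)
    (by
      intro x _ y _ hc hxy
      obtain ⟨h4, h5⟩ := hcol x y hc
      have h6 : κ (K (lev x)) (f x) = κ (K (lev y)) (f y) := congrArg (fun p => p.2.1) hxy
      rw [← h4] at h6
      have hx : x ∈ S (lev x) (c (K (lev x)) (f x)) (κ (K (lev x)) (f x)) := ⟨⟨rfl, rfl⟩, rfl⟩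
      have hy : y ∈ S (lev x) (c (K (lev x)) (f x)) (κ (K (lev x)) (f x)) :=
        ⟨⟨h5.symm, h6.symm⟩, h4.symm⟩
      refine hS _ _ _ x hx y hy ?_
      have h7 : {z | Relation.ReflTransGen (St (Φ (lev x))
          (S (lev x) (c (K (lev x)) (f x)) (κ (K (lev x)) (f x)))) x z} =
        {z | Relation.ReflTransGen (St (Φ (lev y))
          (S (lev y) (c (K (lev y)) (f y)) (κ (K (lev y)) (f y)))) y z} :=
        congrArg (fun p => p.2.2) hxy
      have h8 : y ∈ {z | Relation.ReflTransGen (St (Φ (lev y))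
          (S (lev y) (c (K (lev y)) (f y)) (κ (K (lev y)) (f y)))) y z} :=
        Relation.ReflTransGen.refl
      rw [← h7] at h8
      exact h8)
  refine ⟨K l, fun x => K (lev x) + c (K (lev x)) (f x), κ', ρ, ?_, h4, h5⟩
  intro x _
  have h6 := hKmono (lev x + 1) l (hlev x)
  rw [hK] at h6
  have h7 := h1 (K (lev x)) (f x)
  show K (lev x) + c (K (lev x)) (f x) < K l
  omega

end

end Pool.Agent.TH18.APC
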