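import Pool.Agent.TH18.APC.Metric
import Pool.Agent.S13007

/-! Free products of finitely many groups with asymptotic property C. -/

set_option autoImplicit false

namespace Pool.Agent.TH18.APC

open Classical Pointwise

/-- from the colour form to covers by finite-set conditions -/
theorem covers_of_APC {G : Type} [Group G] (h : APCon (Set.univ : Set G)) (F : ℕ → Finset G) :
    ∃ n : ℕ, ∃ 𝒰 : Fin n → Set (Set G), ∃ L : Finset G,
      (∀ i, ∀ U ∈ 𝒰 i, ∀ x ∈ U, ∀ y ∈ U, x⁻¹ * y ∈ L) ∧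
      (∀ i : Fin n, ∀ U ∈ 𝒰 i, ∀ U' ∈ 𝒰 i, U ≠ U' →
        ∀ x ∈ U, ∀ y ∈ U', x⁻¹ * y ∉ F i.val) ∧
      (∀ x : G, ∃ i, ∃ U ∈ 𝒰 i, x ∈ U) := by
  obtain ⟨n, c, κ, D, h1, h2, h3⟩ := h F
  refine ⟨n, fun i => {U | ∃ b, U = {x | c x = i ∧ κ x = b}}, D⁻¹ * D, ?_, ?_, ?_⟩
  · rintro i U ⟨b, rfl⟩ x ⟨hx1, hx2⟩ y ⟨hy1, hy2⟩
    have h4 : x⁻¹ * y = ((κ x)⁻¹ * x)⁻¹ * ((κ y)⁻¹ * y) := by rw [hx2, hy2]; group
    rw [h4]
    exact Finset.mul_mem_mul (Finset.inv_mem_inv (h3 x (Set.mem_univ x))) (h3 y (Set.mem_univ y))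
  · rintro i U ⟨b, rfl⟩ U' ⟨b', rfl⟩ hne x ⟨hx1, hx2⟩ y ⟨hy1, hy2⟩ hmem
    refine hne ?_
    have h4 := h2 x (Set.mem_univ x) y (Set.mem_univ y) (hx1.trans hy1.symm)
      (by rw [hx1]; exact hmem)
    rw [← hx2, ← hy2, h4]
  · intro x
    exact ⟨⟨c x, h1 x (Set.mem_univ x)⟩, _, ⟨κ x, rfl⟩, rfl, rfl⟩

/-- from covers by finite-set conditions to the colour form -/
theorem APC_of_covers {G : Type} [Group G] (h : ∀ F : ℕ → Finset G,
    ∃ n : ℕ, ∃ 𝒰 : Fin n → Set (Set G), ∃ L : Finset G,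
      (∀ i, ∀ U ∈ 𝒰 i, ∀ x ∈ U, ∀ y ∈ U, x⁻¹ * y ∈ L) ∧
      (∀ i : Fin n, ∀ U ∈ 𝒰 i, ∀ U' ∈ 𝒰 i, U ≠ U' →
        ∀ x ∈ U, ∀ y ∈ U', x⁻¹ * y ∉ F i.val) ∧
      (∀ x : G, ∃ i, ∃ U ∈ 𝒰 i, x ∈ U)) : APCon (Set.univ : Set G) := by
  intro s
  obtain ⟨n, U, L, h1, h2, h3⟩ := h s
  have h4 : ∀ x : G, ∃ p : Fin n × Set G, p.2 ∈ U p.1 ∧ x ∈ p.2 := by
    intro x
    obtain ⟨i, V, hV, hx⟩ := h3 x
    exact ⟨(i, V), hV, hx⟩
  choose p hp using h4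
  obtain ⟨κ, h5, h6⟩ := exists_base (Y := Set.univ) (s := s) (c := fun x => ((p x).1 : ℕ))
    (fun x => (p x).2) L
    (by
      intro x _ y _ hc hs
      by_contra hne
      have hc' : (p x).1 = (p y).1 := Fin.ext hc
      have h7 := (hp y).1
      rw [← hc'] at h7
      exact h2 _ _ (hp x).1 _ h7 hne x (hp x).2 y (hp y).2 hs)
    (by
      intro x _ y _ hc hl
      have hl' : (p x).2 = (p y).2 := hl
      have h7 := (hp y).2
      rw [← hl'] at h7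
      exact h1 _ _ (hp x).1 x (hp x).2 y h7)
  exact ⟨n, fun x => ((p x).1 : ℕ), κ, L, fun x _ => (p x).1.2, h5, h6⟩

/-- finite free products -/
theorem APC_coprodI {V : Type} [Fintype V] (P : V → Type) [∀ v, Group (P v)]
    [∀ v, Countable (P v)] (h : ∀ v, APCon (Set.univ : Set (P v))) :
    APCon (Set.univ : Set (Monoid.CoprodI P)) := by
  refine APC_of_covers ?_
  refine Pool.Agent.S13007.result V ⊥ P (Monoid.CoprodI P) (fun v => Monoid.CoprodI.of) ?_ ?_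
    (fun v F => covers_of_APC (h v) F)
  · intro v w hvw
    exact absurd hvw (by simp)
  · intro K _ φ _
    refine ⟨Monoid.CoprodI.lift φ, fun v => ?_, ?_⟩
    · ext x
      simp
    · intro f hf
      refine Monoid.CoprodI.ext_hom _ _ (fun v => ?_)
      rw [hf v]
      ext x
      simp

end Pool.Agent.TH18.APC
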