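import Pool.Agent.TH18.APC.Series
import Pool.Agent.TH18.APC.Free
import Pool.Agent.TH18.APC.Fib

/-! Amalgamated free products with a homomorphism to a group with asymptotic property C. -/

set_option autoImplicit false

namespace Pool.Agent.TH18.APC

open Classical Pointwise Monoid

section
variable {C L : Type} [Group C] [Group L] (ρC : C →* L)

theorem cc_exists (l : L) :
    ∃ c : C, ρC c = (Quotient.out (QuotientGroup.mk l : L ⧸ ρC.range))⁻¹ * l := by
  obtain ⟨⟨h, c, hc⟩, hh⟩ := QuotientGroup.mk_out_eq_mul ρC.range l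
  refine ⟨c⁻¹, ?_⟩
  have hh' : Quotient.out (QuotientGroup.mk l : L ⧸ ρC.range) = l * h := hh
  rw [hh', map_inv, hc]
  group

/-- the `C`-coordinate of `l` with respect to a transversal of the cosets of the image of `C` -/
noncomputable def cc (l : L) : C := Classical.choose (cc_exists ρC l)

theorem cc_spec (l : L) :
    ρC (cc ρC l) = (Quotient.out (QuotientGroup.mk l : L ⧸ ρC.range))⁻¹ * l :=
  Classical.choose_spec (cc_exists ρC l)

theorem cc_mk (l : L) (c : C) :
    (QuotientGroup.mk (l * ρC c) : L ⧸ ρC.range) = QuotientGroup.mk l := by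
  rw [QuotientGroup.eq]
  refine ⟨c⁻¹, ?_⟩
  rw [map_inv]
  group

theorem cc_mul (l : L) (c : C) : ρC (cc ρC (l * ρC c)) = ρC (cc ρC l * c) := by
  rw [cc_spec, cc_mk, map_mul, cc_spec, mul_assoc]

end

section
variable {ι : Type} {G P : ι → Type} [∀ i, Group (G i)] [∀ i, Group (P i)] {C : Type}
  [Group C] {φ : ∀ i, C →* G i} (π : ∀ i, G i →* P i) (b : PushoutI φ → C)

/-- the letter of the free product -/
noncomputable def lt (i : ι) (z : PushoutI φ) (g : G i) : P i :=
  π i (φ i (b (z * (PushoutI.of i g)⁻¹))) * π i g * (π i (φ i (b z)))⁻¹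

/-- the action of the factors -/
noncomputable def actEquiv (i : ι) : G i →* Equiv.Perm (PushoutI φ × CoprodI P) where
  toFun g :=
    { toFun := fun p => (p.1 * (PushoutI.of i g)⁻¹, CoprodI.of (lt π b i p.1 g) * p.2)
      invFun := fun p => (p.1 * PushoutI.of i g,
        (CoprodI.of (lt π b i (p.1 * PushoutI.of i g) g))⁻¹ * p.2)
      left_inv := by
        intro p
        refine Prod.ext ?_ ?_
        · simp
        · simp
      right_inv := by
        intro p
        refine Prod.ext ?_ ?_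
        · simp
        · simp }
  map_one' := by
    ext p
    · simp
    · simp [lt]
  map_mul' g h := by
    ext p
    · simp [mul_assoc]
    · simp only [Equiv.Perm.coe_mul, Function.comp_apply, Equiv.coe_fn_mk, map_mul, mul_inv_rev,
        mul_assoc, lt]
      rw [← mul_assoc (CoprodI.of _) (CoprodI.of _) p.2, ← map_mul]
      simp [mul_assoc]

variable {π b}

theorem lt_base (hb : ∀ z c, b (z * PushoutI.base φ c) = b z * c) (i : ι) (c : C)
    (z : PushoutI φ) : lt π b i z (φ i c) = 1 := by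
  unfold lt
  rw [PushoutI.of_apply_eq_base, ← map_inv, hb, map_mul, map_mul, map_inv, map_inv]
  simp

variable (P)

/-- the action of the base group -/
noncomputable def actBase : C →* Equiv.Perm (PushoutI φ × CoprodI P) where
  toFun c :=
    { toFun := fun p => (p.1 * (PushoutI.base φ c)⁻¹, p.2)
      invFun := fun p => (p.1 * PushoutI.base φ c, p.2)
      left_inv := by intro p; simp
      right_inv := by intro p; simp }
  map_one' := by ext p <;> simp
  map_mul' g h := by ext p <;> simp [mul_assoc]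

variable {P}
variable (π)

/-- the action of the amalgamated product on its product with the free product of the `P i` -/
noncomputable def act (hb : ∀ z c, b (z * PushoutI.base φ c) = b z * c) :
    PushoutI φ →* Equiv.Perm (PushoutI φ × CoprodI P) :=
  PushoutI.lift (fun i => actEquiv π b i) (actBase P) (by
    intro i
    ext c : 1
    refine Equiv.ext (fun p => ?_)
    refine Prod.ext ?_ ?_
    · show p.1 * (PushoutI.of i (φ i c))⁻¹ = p.1 * (PushoutI.base φ c)⁻¹
      rw [PushoutI.of_apply_eq_base]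
    · show CoprodI.of (lt π b i p.1 (φ i c)) * p.2 = p.2
      rw [lt_base hb, map_one, one_mul])

/-- the second coordinate of the action -/
noncomputable def FF (hb : ∀ z c, b (z * PushoutI.base φ c) = b z * c) (z t : PushoutI φ) :
    CoprodI P := (act π hb t (z, 1)).2

theorem act_right (hb : ∀ z c, b (z * PushoutI.base φ c) = b z * c) (t : PushoutI φ) :
    ∀ (z : PushoutI φ) (n : CoprodI P), act π hb t (z, n) = (z * t⁻¹, FF π hb z t * n) := by
  induction t using PushoutI.induction_on with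
  | of i g =>
    intro z n
    unfold FF act
    rw [PushoutI.lift_of]
    refine Prod.ext rfl ?_
    show CoprodI.of (lt π b i z g) * n = CoprodI.of (lt π b i z g) * 1 * n
    rw [mul_one]
  | base c =>
    intro z n
    unfold FF act
    rw [PushoutI.lift_base]
    refine Prod.ext rfl ?_
    show n = 1 * n
    rw [one_mul]
  | mul x y ihx ihy =>
    intro z n
    have h1 : act π hb y (z, 1) = (z * y⁻¹, FF π hb z y) := by
      rw [ihy z 1, mul_one]
    have h2 : FF π hb z (x * y) = FF π hb (z * y⁻¹) x * FF π hb z y := by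
      show (act π hb (x * y) (z, 1)).2 = _
      rw [map_mul, Equiv.Perm.mul_apply, h1, ihx]
    rw [map_mul, Equiv.Perm.mul_apply, ihy z n, ihx, h2]
    refine Prod.ext ?_ ?_
    · simp [mul_assoc]
    · simp [mul_assoc]

theorem FF_of (hb : ∀ z c, b (z * PushoutI.base φ c) = b z * c) (i : ι) (g : G i)
    (z : PushoutI φ) : FF π hb z (PushoutI.of i g) = CoprodI.of (lt π b i z g) := by
  unfold FF act
  rw [PushoutI.lift_of]
  show CoprodI.of (lt π b i z g) * 1 = _
  rw [mul_one]

theorem FF_base (hb : ∀ z c, b (z * PushoutI.base φ c) = b z * c) (c : C)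
    (z : PushoutI φ) : FF π hb z (PushoutI.base φ c) = 1 := by
  unfold FF act
  rw [PushoutI.lift_base]
  rfl

theorem FF_mul (hb : ∀ z c, b (z * PushoutI.base φ c) = b z * c) (x y z : PushoutI φ) :
    FF π hb z (x * y) = FF π hb (z * y⁻¹) x * FF π hb z y := by
  show (act π hb (x * y) (z, 1)).2 = _
  rw [map_mul, Equiv.Perm.mul_apply, act_right π hb y z 1, act_right π hb x, mul_one]

variable {L : Type} [Group L] (R : PushoutI φ →* L)

theorem FF_fin (hb : ∀ z c, b (z * PushoutI.base φ c) = b z * c)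
    (hb3 : ∀ W : Set L, W.Finite → ∀ i, {x | ∃ z, R z ∈ W ∧ x = π i (φ i (b z))}.Finite)
    (t : PushoutI φ) :
    ∀ W : Set L, W.Finite → {n | ∃ z, R z ∈ W ∧ n = FF π hb z t}.Finite := by
  induction t using PushoutI.induction_on with
  | of i g =>
    intro W hW
    have h1 := hb3 W hW i
    have h2 := hb3 ((fun w => w * (R (PushoutI.of i g))⁻¹) '' W) (hW.image _) i
    refine (Set.Finite.image2 (fun x y => CoprodI.of (x * π i g * y⁻¹)) h2 h1).subset ?_
    rintro n ⟨z, hz, rfl⟩
    refine ⟨_, ⟨z * (PushoutI.of i g)⁻¹, ⟨R z, hz, ?_⟩, rfl⟩, _, ⟨z, hz, rfl⟩, ?_⟩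
    · rw [map_mul, map_inv]
    · rw [FF_of]
      rfl
  | base c =>
    intro W hW
    refine (Set.finite_singleton (1 : CoprodI P)).subset ?_
    rintro n ⟨z, hz, rfl⟩
    exact FF_base π hb c z
  | mul x y ihx ihy =>
    intro W hW
    have h1 := ihy W hW
    have h2 := ihx ((fun w => w * (R y)⁻¹) '' W) (hW.image _)
    refine (Set.Finite.image2 (fun x y => x * y) h2 h1).subset ?_
    rintro n ⟨z, hz, rfl⟩
    refine ⟨_, ⟨z * y⁻¹, ⟨R z, hz, ?_⟩, rfl⟩, _, ⟨z, hz, rfl⟩, ?_⟩
    · rw [map_mul, map_inv]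
    · rw [FF_mul]

theorem lt_ne (hπ : ∀ i g, π i g = 1 → g ∈ (φ i).range) (i : ι) (z : PushoutI φ) (g : G i)
    (hg : g ∉ (φ i).range) : lt π b i z g ≠ 1 := by
  intro h4
  refine hg ?_
  unfold lt at h4
  rw [← map_inv, ← map_inv, ← map_mul, ← map_mul] at h4
  obtain ⟨c, hc⟩ := hπ _ _ h4
  refine ⟨(b (z * (PushoutI.of i g)⁻¹))⁻¹ * c * b z, ?_⟩
  rw [map_mul, map_mul, hc]
  simp [mul_assoc]

theorem nw_cases {d : PushoutI.NormalWord.Transversal φ} (w : PushoutI.NormalWord d)
    (hw : w.head = 1) : w = PushoutI.NormalWord.empty ∨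
      ∃ (i : ι) (g : G i) (w' : PushoutI.NormalWord d) (hmw : w'.fstIdx ≠ some i)
        (hgr : g ∉ (φ i).range), g ∈ d.set i ∧ w'.head = 1 ∧
          w = PushoutI.NormalWord.cons g w' hmw hgr := by
  induction w using PushoutI.NormalWord.consRecOn with
  | empty => exact Or.inl rfl
  | cons i g w hmw hgn hgr hw1 ih => exact Or.inr ⟨i, g, w, hmw, hgr, hgn, hw1, rfl⟩
  | base c w hw1 ih =>
    have h1 : c = 1 := by
      rw [PushoutI.NormalWord.base_smul_eq_smul, PushoutI.NormalWord.base_smul_def'] at hw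
      have h2 : c * w.head = 1 := hw
      rwa [hw1, mul_one] at h2
    rw [h1, map_one, one_smul]
    exact ih hw1

theorem word_aux (hb : ∀ z c, b (z * PushoutI.base φ c) = b z * c)
    (hπ : ∀ i g, π i g = 1 → g ∈ (φ i).range)
    {d : PushoutI.NormalWord.Transversal φ} (w : PushoutI.NormalWord d) :
    ∀ z, ∃ wp : CoprodI.Word P, FF π hb z w.prod = wp.prod ∧ wp.fstIdx = w.fstIdx := by
  induction w using PushoutI.NormalWord.consRecOn with
  | empty =>
    intro z
    refine ⟨CoprodI.Word.empty, ?_, rfl⟩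
    rw [PushoutI.NormalWord.prod_empty, ← map_one (PushoutI.base φ), FF_base]
    simp
  | cons i g w hmw hgn hgr hw1 ih =>
    intro z
    obtain ⟨wp, h1, h2⟩ := ih z
    refine ⟨CoprodI.Word.cons (lt π b i (z * w.prod⁻¹) g) wp (by rw [h2]; exact hmw)
      (lt_ne π hπ i _ g hgr), ?_, ?_⟩
    · rw [PushoutI.NormalWord.prod_cons, FF_mul, FF_of, h1, CoprodI.Word.prod_cons]
    · rw [CoprodI.Word.fstIdx_cons]
      simp [PushoutI.NormalWord.cons]
  | base c w hw ih =>
    intro z
    obtain ⟨wp, h1, h2⟩ := ih z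
    refine ⟨wp, ?_, ?_⟩
    · rw [PushoutI.NormalWord.prod_smul, FF_mul, FF_base, one_mul]
      exact h1
    · rw [h2, PushoutI.NormalWord.base_smul_eq_smul, PushoutI.NormalWord.base_smul_def']

theorem wprod_injective : Function.Injective (CoprodI.Word.prod : CoprodI.Word P → CoprodI P) :=
  CoprodI.Word.equiv.symm.injective

theorem FF_fib (hb : ∀ z c, b (z * PushoutI.base φ c) = b z * c)
    (hb3 : ∀ W : Set L, W.Finite → ∀ i, {x | ∃ z, R z ∈ W ∧ x = π i (φ i (b z))}.Finite)
    (hπ : ∀ i g, π i g = 1 → g ∈ (φ i).range)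
    (d : PushoutI.NormalWord.Transversal φ) (wp : CoprodI.Word P) :
    ∀ W : Set L, W.Finite → {t | ∃ w : PushoutI.NormalWord d, w.head = 1 ∧ w.prod = t ∧
      ∃ z, R z ∈ W ∧ FF π hb z t = wp.prod}.Finite := by
  induction wp using CoprodI.Word.consRecOn with
  | empty =>
    intro W hW
    refine (Set.finite_singleton (1 : PushoutI φ)).subset ?_
    rintro t ⟨w, hw, rfl, z, hz, hF⟩
    obtain ⟨wp, h1, h2⟩ := word_aux π hb hπ w z
    have h3 : wp = CoprodI.Word.empty := wprod_injective (h1.symm.trans hF)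
    rcases nw_cases w hw with h4 | ⟨i, g, w', hmw, hgr, hg, hw', h4⟩
    · rw [h4, PushoutI.NormalWord.prod_empty]
      rfl
    · exfalso
      rw [h3, h4] at h2
      have h5 : (PushoutI.NormalWord.cons g w' hmw hgr).fstIdx = some i := by
        simp [PushoutI.NormalWord.cons]
      rw [h5] at h2
      simp [CoprodI.Word.fstIdx, CoprodI.Word.empty] at h2
  | cons i κ wp' hi hκ ih =>
    intro W hW
    have hT := ih W hW
    set T := {t | ∃ w : PushoutI.NormalWord d, w.head = 1 ∧ w.prod = t ∧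
      ∃ z, R z ∈ W ∧ FF π hb z t = wp'.prod} with hTdef
    have hB := hb3 (Set.image2 (fun w t => w * (R t)⁻¹) W T) (Set.Finite.image2 _ hW hT) i
    set B := {x | ∃ z, R z ∈ Set.image2 (fun w t => w * (R t)⁻¹) W T ∧ x = π i (φ i (b z))}
      with hBdef
    have hG : (⋃ β ∈ B, {g : G i | g ∈ d.set i ∧ ∃ c : C, π i g = π i (φ i c) * κ * β}).Finite := by
      refine hB.biUnion (fun β _ => Set.Subsingleton.finite ?_)
      rintro g ⟨hg, c, hc⟩ g' ⟨hg', c', hc'⟩
      have h1 : π i (φ i (c' * c⁻¹) * (g * g'⁻¹)) = 1 := by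
        rw [map_mul, map_mul, map_mul, map_mul, map_inv, map_inv, map_inv, hc, hc']
        group
      obtain ⟨e, he⟩ := hπ _ _ h1
      have h2 : g = φ i ((c' * c⁻¹)⁻¹ * e) * g' := by
        rw [map_mul, he, map_inv]
        group
      have h3 := (d.compl i).1 (a₁ := (⟨φ i ((c' * c⁻¹)⁻¹ * e), ⟨_, rfl⟩⟩, ⟨g', hg'⟩))
        (a₂ := (⟨1, one_mem _⟩, ⟨g, hg⟩)) (by
          show φ i ((c' * c⁻¹)⁻¹ * e) * g' = 1 * g
          rw [one_mul]
          exact h2.symm)
      exact (congrArg (fun p => (p.2 : G i)) h3).symm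
    refine ((Set.finite_singleton (1 : PushoutI φ)).union
      (Set.Finite.image2 (fun g t => PushoutI.of i g * t) hG hT)).subset ?_
    rintro t ⟨w, hw, rfl, z, hz, hF⟩
    rcases nw_cases w hw with h4 | ⟨j, g, w', hmw, hgr, hg, hw', h4⟩
    · left
      rw [h4, PushoutI.NormalWord.prod_empty]
      rfl
    · right
      obtain ⟨wq, h1, h2⟩ := word_aux π hb hπ w' z
      have h5 : w.prod = PushoutI.of j g * w'.prod := by
        rw [h4, PushoutI.NormalWord.prod_cons]
      have h6 : CoprodI.Word.cons (lt π b j (z * w'.prod⁻¹) g) wq (by rw [h2]; exact hmw)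
          (lt_ne π hπ j _ g hgr) = CoprodI.Word.cons κ wp' hi hκ := by
        refine wprod_injective ?_
        rw [← hF, h5, FF_mul, FF_of, h1, CoprodI.Word.prod_cons]
      have h7 : (⟨j, lt π b j (z * w'.prod⁻¹) g⟩ : Σ i, P i) :: wq.toList =
          ⟨i, κ⟩ :: wp'.toList := congrArg CoprodI.Word.toList h6
      obtain ⟨h8, h9⟩ := List.cons.inj h7
      have h10 : wq = wp' := CoprodI.Word.ext h9
      obtain ⟨rfl, h11⟩ := Sigma.mk.inj_iff.1 h8
      have h11 := eq_of_heq h11
      have hT' : w'.prod ∈ T := ⟨w', hw', rfl, z, hz, by rw [h1, h10]⟩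
      rw [h5]
      refine ⟨g, ?_, w'.prod, hT', rfl⟩
      refine Set.mem_iUnion₂.2 ⟨π j (φ j (b (z * w'.prod⁻¹))), ⟨z * w'.prod⁻¹,
        ⟨R z, hz, w'.prod, hT', ?_⟩, rfl⟩, hg,
        (b (z * w'.prod⁻¹ * (PushoutI.of j g)⁻¹))⁻¹, ?_⟩
      · show R z * (R w'.prod)⁻¹ = _
        rw [map_mul, map_inv]
      · rw [← h11]
        unfold lt
        rw [map_inv, map_inv]
        group

end

end Pool.Agent.TH18.APC
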