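import Pool.Agent.TH18.APC.Amalgam

/-! Amalgamated free products with a homomorphism to a group with asymptotic property C. -/

set_option autoImplicit false

namespace Pool.Agent.TH18.APC

open Classical Pointwise Monoid

section
variable {ι : Type} {G P : ι → Type} [∀ i, Group (G i)] [∀ i, Group (P i)] {C L : Type}
  [Group C] [Group L] {φ : ∀ i, C →* G i} (π : ∀ i, G i →* P i) (R : PushoutI φ →* L)

/-- an equivariant map from the amalgamated product to `C` which is compatible with `R` -/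
noncomputable def bb (z : PushoutI φ) : C :=
  cc (R.comp (PushoutI.base φ)) (R (z * (PushoutI.base φ (cc (PushoutI.base φ) z))⁻¹)) *
    cc (PushoutI.base φ) z

theorem bb_mul (hφ : ∀ i, Function.Injective (φ i)) (z : PushoutI φ) (c : C) :
    bb R (z * PushoutI.base φ c) = bb R z * c := by
  have h1 : cc (PushoutI.base φ) (z * PushoutI.base φ c) = cc (PushoutI.base φ) z * c :=
    PushoutI.base_injective hφ (cc_mul (PushoutI.base φ) z c)
  unfold bb
  rw [h1]
  have h2 : z * PushoutI.base φ c * (PushoutI.base φ (cc (PushoutI.base φ) z * c))⁻¹ =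
      z * (PushoutI.base φ (cc (PushoutI.base φ) z))⁻¹ := by
    rw [map_mul]
    group
  rw [h2, mul_assoc]

theorem bb_R (z : PushoutI φ) :
    R (PushoutI.base φ (bb R z)) =
      R (PushoutI.base φ (cc (R.comp (PushoutI.base φ)) (R z))) := by
  have h1 := cc_spec (R.comp (PushoutI.base φ)) (R z)
  have h2 := cc_spec (R.comp (PushoutI.base φ))
    (R (z * (PushoutI.base φ (cc (PushoutI.base φ) z))⁻¹))
  rw [MonoidHom.comp_apply] at h1 h2
  have h3 : R (z * (PushoutI.base φ (cc (PushoutI.base φ) z))⁻¹) =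
      R z * (R.comp (PushoutI.base φ)) (cc (PushoutI.base φ) z)⁻¹ := by
    rw [map_mul, map_inv, map_inv]
    rfl
  have h4 : (QuotientGroup.mk (R (z * (PushoutI.base φ (cc (PushoutI.base φ) z))⁻¹)) :
      L ⧸ (R.comp (PushoutI.base φ)).range) = QuotientGroup.mk (R z) := by
    rw [h3]
    exact cc_mk _ _ _
  unfold bb
  rw [map_mul, map_mul, h2, h4, h1, map_mul, map_inv]
  group

theorem bb_fin (hfin : ∀ i, {x | ∃ c, R (PushoutI.base φ c) = 1 ∧ x = π i (φ i c)}.Finite)
    (W : Set L) (hW : W.Finite) (i : ι) :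
    {x | ∃ z, R z ∈ W ∧ x = π i (φ i (bb R z))}.Finite := by
  refine (Set.Finite.image2 (fun l x => π i (φ i (cc (R.comp (PushoutI.base φ)) l)) * x) hW
    (hfin i)).subset ?_
  rintro x ⟨z, hz, rfl⟩
  refine ⟨R z, hz, π i (φ i ((cc (R.comp (PushoutI.base φ)) (R z))⁻¹ * bb R z)),
    ⟨_, ?_, rfl⟩, ?_⟩
  · rw [map_mul, map_mul, map_inv, map_inv, bb_R, inv_mul_cancel]
  · show π i (φ i (cc (R.comp (PushoutI.base φ)) (R z))) *
      π i (φ i ((cc (R.comp (PushoutI.base φ)) (R z))⁻¹ * bb R z)) = _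
    rw [← map_mul, ← map_mul, mul_inv_cancel_left]

variable {R}

/-- **Amalgamated products over a homomorphism to a group with asymptotic property C.** -/
theorem APC_amalgam [Fintype ι] [∀ i, Countable (P i)] (hφ : ∀ i, Function.Injective (φ i))
    (hπ : ∀ i g, π i g = 1 → g ∈ (φ i).range)
    (hfin : ∀ i, {x | ∃ c, R (PushoutI.base φ c) = 1 ∧ x = π i (φ i c)}.Finite)
    (hL : APCon (Set.univ : Set L)) (hP : ∀ i, APCon (Set.univ : Set (P i)))
    (hC : APCon (Set.univ : Set C)) : APCon (Set.univ : Set (PushoutI φ)) := by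
  obtain ⟨d⟩ := PushoutI.NormalWord.transversal_nonempty φ hφ
  have hb := bb_mul R hφ
  have hb3 := fun W hW i => bb_fin π R hfin W hW i
  have hW1 : ({1} : Set L).Finite := Set.finite_singleton 1
  have hR : ∀ x : R.ker, R (x : PushoutI φ) ∈ ({1} : Set L) := fun x => x.2
  -- the finite sets
  have hctl : ∀ s : Finset R.ker,
      (⋃ t ∈ (s : Set R.ker), {n | ∃ z, R z ∈ ({1} : Set L) ∧
        n = FF π hb z ((t : PushoutI φ))⁻¹}).Finite := fun s =>
    s.finite_toSet.biUnion (fun t _ => FF_fin π R hb hb3 _ _ hW1)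
  have hT : ∀ E : Finset (CoprodI P), (⋃ n ∈ (E : Set (CoprodI P)),
      {t | ∃ w : PushoutI.NormalWord d, w.head = 1 ∧ w.prod = t ∧
        ∃ z, R z ∈ ({1} : Set L) ∧ FF π hb z t = (CoprodI.Word.equiv n).prod}).Finite := fun E =>
    E.finite_toSet.biUnion (fun n _ => FF_fib π R hb hb3 hπ d _ _ hW1)
  have hequiv : ∀ n : CoprodI P, (CoprodI.Word.equiv n).prod = n := fun n =>
    CoprodI.Word.equiv.symm_apply_apply n
  let f : R.ker → CoprodI P := fun x => (FF π hb 1 ((x : PushoutI φ))⁻¹)⁻¹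
  have hf : ∀ x y : R.ker, (f x)⁻¹ * f y =
      (FF π hb (x : PushoutI φ) (((x⁻¹ * y : R.ker) : PushoutI φ))⁻¹)⁻¹ := by
    intro x y
    have h1 : ((y : PushoutI φ))⁻¹ =
        (((x⁻¹ * y : R.ker) : PushoutI φ))⁻¹ * ((x : PushoutI φ))⁻¹ := by
      rw [Subgroup.coe_mul, Subgroup.coe_inv]
      group
    show (FF π hb 1 ((x : PushoutI φ))⁻¹)⁻¹⁻¹ * (FF π hb 1 ((y : PushoutI φ))⁻¹)⁻¹ = _
    rw [h1, FF_mul, inv_inv, inv_inv, one_mul, mul_inv_rev, mul_inv_cancel_left]
  have h1 : APCon (Set.univ : Set R.ker) := by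
    refine APC_fib f (fun s => (hctl s).toFinset.image (fun n => n⁻¹)) ?_
      (fun E => {x | ∃ u ∈ (hT (E.image (fun n => n⁻¹))).toFinset.image (fun t => t⁻¹),
        u⁻¹ * (x : PushoutI φ) ∈ Set.range (PushoutI.base φ)}) ?_ (APC_coprodI P hP) ?_
    · intro s x y hxy
      rw [hf]
      refine Finset.mem_image_of_mem _ ?_
      rw [Set.Finite.mem_toFinset]
      exact Set.mem_iUnion₂.2 ⟨x⁻¹ * y, hxy, _, hR x, rfl⟩
    · intro E x y hxy
      rw [hf] at hxy
      set t : PushoutI φ := (((x⁻¹ * y : R.ker) : PushoutI φ))⁻¹ with ht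
      have h2 : FF π hb (x : PushoutI φ) t ∈ E.image (fun n => n⁻¹) := by
        refine Finset.mem_image.2 ⟨_, hxy, inv_inv _⟩
      -- the normal form of `t`
      let w := PushoutI.NormalWord.equiv (d := d) t
      have hw : w.prod = t := PushoutI.NormalWord.equiv.symm_apply_apply t
      let w1 : PushoutI.NormalWord d := (w.head)⁻¹ • w
      have hw1 : w1.prod = (PushoutI.base φ w.head)⁻¹ * t := by
        show ((w.head)⁻¹ • w).prod = _
        rw [PushoutI.NormalWord.prod_base_smul, hw, map_inv]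
      have hw2 : w1.head = 1 := by
        show ((w.head)⁻¹ • w).head = 1
        rw [PushoutI.NormalWord.base_smul_def']
        exact inv_mul_cancel _
      have ht2 : t = PushoutI.base φ w.head * w1.prod := by
        rw [hw1, mul_inv_cancel_left]
      have h3 : FF π hb (x : PushoutI φ) w1.prod = FF π hb (x : PushoutI φ) t := by
        conv_rhs => rw [ht2, FF_mul, FF_base, one_mul]
      refine ⟨w1.prod⁻¹, Finset.mem_image_of_mem _ ?_, ?_⟩
      · rw [Set.Finite.mem_toFinset]
        refine Set.mem_iUnion₂.2 ⟨_, h2, w1, hw2, rfl, _, hR x, ?_⟩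
        rw [hequiv, h3]
      · refine ⟨w.head⁻¹, ?_⟩
        have h4 : ((x⁻¹ * y : R.ker) : PushoutI φ) = t⁻¹ := by rw [ht, inv_inv]
        show PushoutI.base φ (w.head)⁻¹ = w1.prod⁻¹⁻¹ * ((x⁻¹ * y : R.ker) : PushoutI φ)
        rw [h4, ht2, map_inv]
        group
    · intro E
      exact APCon_comap R.ker.subtype Subtype.val_injective (fun x hx => hx)
        (APCon_translates (APCon_range _ (PushoutI.base_injective hφ) hC)
          ((hT (E.image (fun n => n⁻¹))).toFinset.image (fun t => t⁻¹)))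
  refine APC_ext R hL ?_
  have h2 := APCon_range R.ker.subtype Subtype.val_injective h1
  have h3 : Set.range R.ker.subtype = (R.ker : Set (PushoutI φ)) := by
    rw [Subgroup.coe_subtype]
    exact Subtype.range_coe
  rw [h3] at h2
  exact h2

end

end Pool.Agent.TH18.APC
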