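import Mathlib

/-! Asymptotic property C of subsets of a group, in colour form; components; the union lemma. -/

set_option autoImplicit false

namespace Pool.Agent.TH18.APC

open Classical Pointwise

/-- asymptotic property C of the subset `Y` of the group `G`, in colour form: for every sequence
of finite sets `s` there is a colouring of `Y` by finitely many colours and a base point map,
such that points of the same colour `i` whose difference lies in `s i` have the same base point,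
and the points of `Y` are at a bounded difference from their base points -/
def APCon {G : Type} [Group G] (Y : Set G) : Prop :=
  ∀ s : ℕ → Finset G, ∃ (n : ℕ) (c : G → ℕ) (κ : G → G) (D : Finset G),
    (∀ x ∈ Y, c x < n) ∧
    (∀ x ∈ Y, ∀ y ∈ Y, c x = c y → x⁻¹ * y ∈ s (c x) → κ x = κ y) ∧
    (∀ x ∈ Y, (κ x)⁻¹ * x ∈ D)

/-- the step relation of the `Φ`-chains in `S` -/
def St {G : Type} [Group G] (Φ : Finset G) (S : Set G) (a b : G) : Prop :=
  a ∈ S ∧ b ∈ S ∧ a⁻¹ * b ∈ Φ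

/-- the `Φ`-components of `S` are bounded by `ρ` -/
def CB {G : Type} [Group G] (Φ ρ : Finset G) (S : Set G) : Prop :=
  ∀ x ∈ S, ∀ y ∈ S, Relation.ReflTransGen (St Φ S) x y → x⁻¹ * y ∈ ρ

section
variable {G : Type} [Group G]

theorem CB.mono {Φ ρ ρ' : Finset G} {S : Set G} (h : CB Φ ρ S) (hρ : ρ ⊆ ρ') : CB Φ ρ' S :=
  fun x hx y hy hxy => hρ (h x hx y hy hxy)

theorem CB_empty (Φ ρ : Finset G) : CB Φ ρ (∅ : Set G) := fun x hx => absurd hx (by simp)

theorem CB_union (Φ ρ D : Finset G) (h1 : (1 : G) ∈ Φ) (hρ : (1 : G) ∈ ρ) (B A : Set G)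
    (hB : CB Φ ρ B) {β : Type} (κ : G → β)
    (hA : ∀ x ∈ A, ∀ y ∈ A, x⁻¹ * y ∈ Φ * ρ * Φ → κ x = κ y)
    (hD : ∀ x ∈ A, ∀ y ∈ A, κ x = κ y → x⁻¹ * y ∈ D) :
    CB Φ (ρ ∪ ρ * Φ * D * Φ * ρ) (B ∪ A) := by
  have hone : (1 : G) ∈ ρ * Φ := by
    have := Finset.mul_mem_mul hρ h1
    rwa [mul_one] at this
  have hone' : (1 : G) ∈ Φ * ρ := by
    have := Finset.mul_mem_mul h1 hρ
    rwa [mul_one] at this
  intro x hx y hy hxy
  have key : (x ∈ B ∧ y ∈ B ∧ Relation.ReflTransGen (St Φ B) x y) ∨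
      (∃ a ∈ A, ∃ a' ∈ A, κ a = κ a' ∧ x⁻¹ * a ∈ ρ * Φ ∧
        (y = a' ∨ ∃ b ∈ B, y ∈ B ∧ a'⁻¹ * b ∈ Φ ∧ Relation.ReflTransGen (St Φ B) b y)) := by
    clear hy
    induction hxy with
    | refl =>
      rcases hx with hx | hx
      · exact Or.inl ⟨hx, hx, Relation.ReflTransGen.refl⟩
      · refine Or.inr ⟨x, hx, x, hx, rfl, ?_, Or.inl rfl⟩
        rw [inv_mul_cancel]
        exact hone
    | tail hab hbc ih =>
      rename_i b c
      obtain ⟨-, hc, hstep⟩ := hbc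
      rcases ih with ⟨h2, h3, h4⟩ | ⟨a, ha, a', ha', h2, h3, h4⟩
      · rcases hc with hc | hc
        · exact Or.inl ⟨h2, hc, h4.tail ⟨h3, hc, hstep⟩⟩
        · refine Or.inr ⟨c, hc, c, hc, rfl, ?_, Or.inl rfl⟩
          have h5 := hB _ h2 _ h3 h4
          have h6 : x⁻¹ * c = x⁻¹ * b * (b⁻¹ * c) := by group
          rw [h6]
          exact Finset.mul_mem_mul h5 hstep
      · rcases h4 with rfl | ⟨b', hb', h5, h6, h7⟩
        · rcases hc with hc | hc
          · exact Or.inr ⟨a, ha, b, ha', h2, h3, Or.inr ⟨c, hc, hc, hstep,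
              Relation.ReflTransGen.refl⟩⟩
          · refine Or.inr ⟨a, ha, c, hc, h2.trans (hA _ ha' _ hc ?_), h3, Or.inl rfl⟩
            have h8 : b⁻¹ * c = b⁻¹ * c * 1 * 1 := by group
            rw [h8]
            exact Finset.mul_mem_mul (Finset.mul_mem_mul hstep hρ) h1
        · rcases hc with hc | hc
          · exact Or.inr ⟨a, ha, a', ha', h2, h3, Or.inr ⟨b', hb', hc, h6,
              h7.tail ⟨h5, hc, hstep⟩⟩⟩
          · refine Or.inr ⟨a, ha, c, hc, h2.trans (hA _ ha' _ hc ?_), h3, Or.inl rfl⟩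
            have h8 : a'⁻¹ * c = a'⁻¹ * b' * (b'⁻¹ * b) * (b⁻¹ * c) := by group
            rw [h8]
            exact Finset.mul_mem_mul (Finset.mul_mem_mul h6 (hB _ hb' _ h5 h7)) hstep
  rcases key with ⟨h2, h3, h4⟩ | ⟨a, ha, a', ha', h2, h3, h4⟩
  · exact Finset.mem_union_left _ (hB _ h2 _ h3 h4)
  · refine Finset.mem_union_right _ ?_
    have h5 : a'⁻¹ * y ∈ Φ * ρ := by
      rcases h4 with rfl | ⟨b', hb', h5, h6, h7⟩
      · rw [inv_mul_cancel]
        exact hone'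
      · have h8 : a'⁻¹ * y = a'⁻¹ * b' * (b'⁻¹ * y) := by group
        rw [h8]
        exact Finset.mul_mem_mul h6 (hB _ hb' _ h5 h7)
    have h6 : x⁻¹ * y = x⁻¹ * a * (a⁻¹ * a') * (a'⁻¹ * y) := by group
    have h7 : ρ * Φ * D * Φ * ρ = ρ * Φ * D * (Φ * ρ) := by rw [mul_assoc]
    rw [h6, h7]
    exact Finset.mul_mem_mul (Finset.mul_mem_mul h3 (hD _ ha _ ha' h2)) h5

end

end Pool.Agent.TH18.APC
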