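import Pool.Agent.TH18.APC.Tree

/-! Extensions of groups with asymptotic property C. -/

set_option autoImplicit false

namespace Pool.Agent.TH18.APC

open Classical Pointwise

section
variable {G Q : Type} [Group G] [Group Q]

theorem exists_base {Y : Set G} {s : ℕ → Finset G} {c : G → ℕ} {β : Type} (lab : G → β)
    (D : Finset G)
    (h2 : ∀ x ∈ Y, ∀ y ∈ Y, c x = c y → x⁻¹ * y ∈ s (c x) → lab x = lab y)
    (h3 : ∀ x ∈ Y, ∀ y ∈ Y, c x = c y → lab x = lab y → x⁻¹ * y ∈ D) :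
    ∃ κ : G → G, (∀ x ∈ Y, ∀ y ∈ Y, c x = c y → x⁻¹ * y ∈ s (c x) → κ x = κ y) ∧
      ∀ x ∈ Y, (κ x)⁻¹ * x ∈ D := by
  let rep : ℕ × β → G := fun p =>
    if h : ∃ y, y ∈ Y ∧ c y = p.1 ∧ lab y = p.2 then Classical.choose h else 1
  have hrep : ∀ x ∈ Y, rep (c x, lab x) ∈ Y ∧ c (rep (c x, lab x)) = c x ∧
      lab (rep (c x, lab x)) = lab x := by
    intro x hx
    have h : ∃ y, y ∈ Y ∧ c y = (c x, lab x).1 ∧ lab y = (c x, lab x).2 := ⟨x, hx, rfl, rfl⟩
    have h4 : rep (c x, lab x) = Classical.choose h := dif_pos h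
    rw [h4]
    exact Classical.choose_spec h
  refine ⟨fun x => rep (c x, lab x), ?_, ?_⟩
  · intro x hx y hy hc hs
    show rep (c x, lab x) = rep (c y, lab y)
    rw [h2 x hx y hy hc hs, hc]
  · intro x hx
    obtain ⟨h4, h5, h6⟩ := hrep x hx
    exact h3 _ h4 _ hx h5 h6

theorem APCon_preimage (f : G →* Q) (hN : APCon (f.ker : Set G)) (B : Finset Q) :
    APCon {x : G | f x ∈ B} := by
  intro s
  let e : G → G := fun x => Function.invFun f (f x)
  have he : ∀ x, f (e x) = f x := fun x => Function.invFun_eq ⟨x, rfl⟩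
  let E : Finset G := B.image (Function.invFun f)
  have heE : ∀ x, f x ∈ B → e x ∈ E := fun x hx => Finset.mem_image_of_mem _ hx
  obtain ⟨n, c, κ, D, h1, h2, h3⟩ := hN (fun i => E * s i * E⁻¹)
  have hker : ∀ x, x * (e x)⁻¹ ∈ (f.ker : Set G) := by
    intro x
    have : f (x * (e x)⁻¹) = 1 := by rw [map_mul, map_inv, he, mul_inv_cancel]
    exact this
  refine ⟨n, fun x => c (x * (e x)⁻¹), fun x => κ (x * (e x)⁻¹), D * E, ?_, ?_, ?_⟩
  · intro x hx
    exact h1 _ (hker x)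
  · intro x hx y hy hc hs
    refine h2 _ (hker x) _ (hker y) hc ?_
    have h4 : (x * (e x)⁻¹)⁻¹ * (y * (e y)⁻¹) = e x * (x⁻¹ * y) * (e y)⁻¹ := by group
    rw [h4]
    exact Finset.mul_mem_mul (Finset.mul_mem_mul (heE x hx) hs) (Finset.inv_mem_inv (heE y hy))
  · intro x hx
    have h4 : (κ (x * (e x)⁻¹))⁻¹ * x = (κ (x * (e x)⁻¹))⁻¹ * (x * (e x)⁻¹) * e x := by group
    rw [h4]
    exact Finset.mul_mem_mul (h3 _ (hker x)) (heE x hx)

theorem exists_coloring (hQ : APCon (Set.univ : Set Q)) (W : Finset Q) :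
    ∃ (M : ℕ) (χ : Q → ℕ), (∀ q, χ q < M) ∧ ∀ q q', q⁻¹ * q' ∈ W → χ q = χ q' → q = q' := by
  obtain ⟨n, c, κ, L, h1, h2, h3⟩ := hQ (fun _ => W)
  have hmem : ∀ q, (c q, (κ q)⁻¹ * q) ∈ (Finset.range n ×ˢ L) := fun q =>
    Finset.mem_product.2 ⟨Finset.mem_range.2 (h1 q (Set.mem_univ q)), h3 q (Set.mem_univ q)⟩
  refine ⟨(Finset.range n ×ˢ L).card,
    fun q => ((Finset.range n ×ˢ L).equivFin ⟨_, hmem q⟩ : ℕ), fun q => Fin.is_lt _, ?_⟩
  intro q q' hq hχ
  have h4 := (Finset.range n ×ˢ L).equivFin.injective (Fin.ext hχ)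
  have h5 : (c q, (κ q)⁻¹ * q) = (c q', (κ q')⁻¹ * q') := congrArg Subtype.val h4
  have h6 : c q = c q' := congrArg Prod.fst h5
  have h7 : (κ q)⁻¹ * q = (κ q')⁻¹ * q' := congrArg Prod.snd h5
  have h8 : κ q = κ q' := h2 q (Set.mem_univ q) q' (Set.mem_univ q') h6 hq
  rw [h8] at h7
  exact mul_left_cancel h7

theorem St_symm {Φ : Finset G} (hs : ∀ a ∈ Φ, a⁻¹ ∈ Φ) {S : Set G} {x y : G}
    (h : Relation.ReflTransGen (St Φ S) x y) : Relation.ReflTransGen (St Φ S) y x := by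
  induction h with
  | refl => exact Relation.ReflTransGen.refl
  | tail _ hbc ih =>
    obtain ⟨h1, h2, h3⟩ := hbc
    refine Relation.ReflTransGen.head ⟨h2, h1, ?_⟩ ih
    have := hs _ h3
    rwa [mul_inv_rev, inv_inv] at this

/-- **Extension theorem.** If `Q` and the kernel of `f : G →* Q` have asymptotic property C,
then so does `G`. -/
theorem APC_ext (f : G →* Q) (hQ : APCon (Set.univ : Set Q)) (hN : APCon (f.ker : Set G)) :
    APCon (Set.univ : Set G) := by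
  intro F
  have hq := fun K : ℕ => hQ (fun i => (F (K + i)).image f)
  choose n c κ L h1 h2 h3 using hq
  replace h1 : ∀ K x, c K x < n K := fun K x => h1 K x (Set.mem_univ x)
  replace h2 : ∀ K x y, c K x = c K y → x⁻¹ * y ∈ (F (K + c K x)).image f → κ K x = κ K y :=
    fun K x y => h2 K x (Set.mem_univ x) y (Set.mem_univ y)
  replace h3 : ∀ K x, (κ K x)⁻¹ * x ∈ L K := fun K x => h3 K x (Set.mem_univ x)
  have hκ : ∀ K x y, κ K x = κ K y → x⁻¹ * y ∈ (L K)⁻¹ * L K := by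
    intro K x y hxy
    have h4 : x⁻¹ * y = ((κ K x)⁻¹ * x)⁻¹ * ((κ K y)⁻¹ * y) := by rw [hxy]; group
    rw [h4]
    exact Finset.mul_mem_mul (Finset.inv_mem_inv (h3 K x)) (h3 K y)
  let K : ℕ → ℕ := fun j => Nat.rec 0 (fun _ k => k + n k) j
  have hK : ∀ j, K (j + 1) = K j + n (K j) := fun j => rfl
  have hKmono : ∀ i j, i ≤ j → K i ≤ K j := by
    intro i j hij
    induction hij with
    | refl => exact le_rfl
    | step _ ih => exact ih.trans (by rw [hK]; exact Nat.le_add_right _ _)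
  -- base points
  let rep : ℕ × Q → G := fun p =>
    if h : ∃ y, c 0 (f y) = p.1 ∧ κ 0 (f y) = p.2 then Classical.choose h else 1
  let g : G → G := fun x => rep (c 0 (f x), κ 0 (f x))
  have hg : ∀ x, c 0 (f (g x)) = c 0 (f x) ∧ κ 0 (f (g x)) = κ 0 (f x) := by
    intro x
    have h : ∃ y, c 0 (f y) = (c 0 (f x), κ 0 (f x)).1 ∧ κ 0 (f y) = (c 0 (f x), κ 0 (f x)).2 :=
      ⟨x, rfl, rfl⟩
    have h4 : g x = Classical.choose h := dif_pos h
    rw [h4]
    exact Classical.choose_spec h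
  have hgg : ∀ x y, f (g x) = f (g y) → g x = g y := by
    intro x y hxy
    have h4 : c 0 (f x) = c 0 (f y) := by rw [← (hg x).1, ← (hg y).1, hxy]
    have h5 : κ 0 (f x) = κ 0 (f y) := by rw [← (hg x).2, ← (hg y).2, hxy]
    show rep (c 0 (f x), κ 0 (f x)) = rep (c 0 (f y), κ 0 (f y))
    rw [h4, h5]
  have hgY : ∀ x, f ((g x)⁻¹ * x) ∈ (L 0)⁻¹ * L 0 := by
    intro x
    rw [map_mul, map_inv]
    exact hκ 0 _ _ (hg x).2
  have hgY' : ∀ x, (f x)⁻¹ * f (g x) ∈ (L 0)⁻¹ * L 0 := fun x => hκ 0 _ _ (hg x).2.symm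
  -- colourings
  have hcol := fun j : ℕ => exists_coloring hQ
    ((L 0)⁻¹ * L 0 * ((L (K j))⁻¹ * L (K j)) * ((L 0)⁻¹ * L 0))
  choose M χ hM hχ using hcol
  have hχg : ∀ j x y, κ (K j) (f x) = κ (K j) (f y) → χ j (f (g x)) = χ j (f (g y)) →
      g x = g y := by
    intro j x y hxy hc
    refine hgg x y (hχ j _ _ ?_ hc)
    have h4 : (f (g x))⁻¹ * f (g y) =
        f ((g x)⁻¹ * x) * ((f x)⁻¹ * f y) * ((f y)⁻¹ * f (g y)) := by
      rw [map_mul, map_inv]; group
    rw [h4]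
    exact Finset.mul_mem_mul (Finset.mul_mem_mul (hgY x) (hκ _ _ _ hxy)) (hgY' y)
  -- the scales
  let Ψ : ℕ → Finset G := fun j => (Finset.range (n (K j))).biUnion (fun i => F (K j + i))
  let Φ : ℕ → Finset G := fun j => insert 1 (Ψ j ∪ (Ψ j)⁻¹)
  have hΦ1 : ∀ j, (1 : G) ∈ Φ j := fun j => Finset.mem_insert_self _ _
  have hΦs : ∀ j, ∀ a ∈ Φ j, a⁻¹ ∈ Φ j := by
    intro j a ha
    rcases Finset.mem_insert.1 ha with rfl | ha
    · rw [inv_one]; exact hΦ1 j
    · refine Finset.mem_insert_of_mem ?_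
      rcases Finset.mem_union.1 ha with ha | ha
      · exact Finset.mem_union_right _ (Finset.inv_mem_inv ha)
      · exact Finset.mem_union_left _ (Finset.mem_inv'.1 ha)
  have hΦF : ∀ j i, i < n (K j) → F (K j + i) ⊆ Φ j := by
    intro j i hi a ha
    exact Finset.mem_insert_of_mem (Finset.mem_union_left _
      (Finset.mem_biUnion.2 ⟨i, Finset.mem_range.2 hi, ha⟩))
  obtain ⟨l, ρ, cc, κκ, -, hcl, -, -, hCB⟩ := TP.zero
    (APCon_preimage f hN ((L 0)⁻¹ * L 0)) M hΦ1 (fun _ => ∅) {1} (Finset.mem_singleton_self _)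
  let χG : G → ℕ → ℕ := fun y j => χ j (f y)
  let lev : G → ℕ := fun x => cc (χG (g x)) ((g x)⁻¹ * x)
  have hlev : ∀ x, lev x < l := fun x => hcl _ (fun j => hM j _) _ (hgY x)
  let S : ℕ → ℕ → Q → Set G := fun j i q =>
    {x | (c (K j) (f x) = i ∧ κ (K j) (f x) = q) ∧ lev x = j}
  have hS : ∀ j i q, CB (Φ j) ρ (S j i q) := by
    intro j i q
    have h4 := hCB j (Nat.zero_le _) {x | c (K j) (f x) = i ∧ κ (K j) (f x) = q} g χG
      ⟨fun x _ => hgY x, fun x _ j => hM j _, fun x hx y hy hxy =>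
        hχg j x y (hx.2.trans hy.2.symm) hxy⟩ ∅ (CB_empty _ _)
    rw [Set.empty_union] at h4
    exact h4
  let lab : G → ℕ × Q × Set G := fun x => (lev x, κ (K (lev x)) (f x),
    {y | Relation.ReflTransGen (St (Φ (lev x))
      (S (lev x) (c (K (lev x)) (f x)) (κ (K (lev x)) (f x)))) x y})
  have hcol : ∀ x y, K (lev x) + c (K (lev x)) (f x) = K (lev y) + c (K (lev y)) (f y) →
      lev x = lev y ∧ c (K (lev x)) (f x) = c (K (lev x)) (f y) := by
    intro x y h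
    have h4 : lev x = lev y := by
      rcases lt_trichotomy (lev x) (lev y) with h5 | h5 | h5
      · have h6 := hKmono (lev x + 1) (lev y) h5
        rw [hK] at h6
        have h7 := h1 (K (lev x)) (f x)
        omega
      · exact h5
      · have h6 := hKmono (lev y + 1) (lev x) h5
        rw [hK] at h6
        have h7 := h1 (K (lev y)) (f y)
        omega
    refine ⟨h4, ?_⟩
    rw [← h4] at h
    omega
  obtain ⟨κ', h4, h5⟩ := exists_base (Y := Set.univ) (s := F)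
    (c := fun x => K (lev x) + c (K (lev x)) (f x)) lab ρ
    (by
      intro x _ y _ hc hxy
      obtain ⟨h4, h5⟩ := hcol x y hc
      have h6 : κ (K (lev x)) (f x) = κ (K (lev x)) (f y) := by
        refine h2 _ _ _ h5 ?_
        rw [← map_inv, ← map_mul]
        exact Finset.mem_image_of_mem _ hxy
      have h7 : x⁻¹ * y ∈ Φ (lev x) := hΦF _ _ (h1 _ _) hxy
      have hx : x ∈ S (lev x) (c (K (lev x)) (f x)) (κ (K (lev x)) (f x)) := ⟨⟨rfl, rfl⟩, rfl⟩
      have hy : y ∈ S (lev x) (c (K (lev x)) (f x)) (κ (K (lev x)) (f x)) :=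
        ⟨⟨h5.symm, h6.symm⟩, h4.symm⟩
      have h8 : Relation.ReflTransGen (St (Φ (lev x))
        (S (lev x) (c (K (lev x)) (f x)) (κ (K (lev x)) (f x)))) x y :=
        Relation.ReflTransGen.single ⟨hx, hy, h7⟩
      have h9 := St_symm (hΦs (lev x)) h8
      show (lev x, κ (K (lev x)) (f x), _) = (lev y, κ (K (lev y)) (f y), _)
      rw [← h4, ← h6, ← h5]
      refine congrArg _ (congrArg _ ?_)
      ext z
      exact ⟨fun h => h9.trans h, fun h => h8.trans h⟩)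
    (by
      intro x _ y _ hc hxy
      obtain ⟨h4, h5⟩ := hcol x y hc
      have h6 : κ (K (lev x)) (f x) = κ (K (lev y)) (f y) := congrArg (fun p => p.2.1) hxy
      rw [← h4] at h6
      have hx : x ∈ S (lev x) (c (K (lev x)) (f x)) (κ (K (lev x)) (f x)) := ⟨⟨rfl, rfl⟩, rfl⟩
      have hy : y ∈ S (lev x) (c (K (lev x)) (f x)) (κ (K (lev x)) (f x)) :=
        ⟨⟨h5.symm, h6.symm⟩, h4.symm⟩
      refine hS _ _ _ x hx y hy ?_
      have h7 : {z | Relation.ReflTransGen (St (Φ (lev x))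
          (S (lev x) (c (K (lev x)) (f x)) (κ (K (lev x)) (f x)))) x z} =
        {z | Relation.ReflTransGen (St (Φ (lev y))
          (S (lev y) (c (K (lev y)) (f y)) (κ (K (lev y)) (f y)))) y z} :=
        congrArg (fun p => p.2.2) hxy
      have h8 : y ∈ {z | Relation.ReflTransGen (St (Φ (lev y))
          (S (lev y) (c (K (lev y)) (f y)) (κ (K (lev y)) (f y)))) y z} :=
        Relation.ReflTransGen.refl
      rw [← h7] at h8
      exact h8)
  refine ⟨K l, fun x => K (lev x) + c (K (lev x)) (f x), κ', ρ, ?_, h4, h5⟩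
  intro x _
  have h6 := hKmono (lev x + 1) l (hlev x)
  rw [hK] at h6
  have h7 := h1 (K (lev x)) (f x)
  show K (lev x) + c (K (lev x)) (f x) < K l
  omega

end

end Pool.Agent.TH18.APC
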