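import Pool.Agent.TH18.APC.Metric
import Pool.Agent.TH18.AC.Shell
import Pool.Agent.TH18.AC.Growth

/-! Groups all of whose finite subsets have polynomial growth have asymptotic property C. -/

set_option autoImplicit false

namespace Pool.Agent.TH18.APC

open Classical Pointwise Pool.Agent.TH18.AC

theorem APC_of_locPoly {G : Type} [Group G] (hG : LocPoly G) : APCon (Set.univ : Set G) := by
  intro F
  let Φ : Finset G := insert 1 (F 0 ∪ (F 0)⁻¹)
  have h1 : (1 : G) ∈ Φ := Finset.mem_insert_self _ _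
  have hs : ∀ a ∈ Φ, a⁻¹ ∈ Φ := by
    intro a ha
    rcases Finset.mem_insert.1 ha with rfl | ha
    · rw [inv_one]; exact h1
    · refine Finset.mem_insert_of_mem ?_
      rcases Finset.mem_union.1 ha with ha | ha
      · exact Finset.mem_union_right _ (Finset.inv_mem_inv ha)
      · exact Finset.mem_union_left _ (Finset.mem_inv'.1 ha)
  have hF0 : F 0 ⊆ Φ := fun a ha => Finset.mem_insert_of_mem (Finset.mem_union_left _ ha)
  obtain ⟨C, q, hCq⟩ := hG Φ
  let m : ℕ := (q + 1) * (q + 1)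
  let FR : Finset G := insert 1 ((Finset.range (1 + m)).biUnion F)
  have hFR1 : (1 : G) ∈ FR := Finset.mem_insert_self _ _
  have hFR : ∀ i, i < 1 + m → F i ⊆ FR := fun i hi a ha =>
    Finset.mem_insert_of_mem (Finset.mem_biUnion.2 ⟨i, Finset.mem_range.2 hi, ha⟩)
  let K : ℕ := 4 ^ (q + 1)
  obtain ⟨T0, hT0, hscale⟩ := exists_scale ((FR ^ q).card * K * ((FR ^ q).card * 2))
    ((FR ^ q).card * K * ((FR ^ q).card * C)) q
  have hone : ∀ n, (1 : G) ∈ Φ ^ n := by
    intro n
    have : (1 : G) ∈ Φ ^ 0 := by rw [pow_zero]; exact Finset.mem_one.2 rfl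
    exact pow_mono' h1 (Nat.zero_le _) this
  obtain ⟨T, hTT, hdoub⟩ := doubling (fun n => (Φ ^ n).card) C q hCq
    (fun n => Finset.card_pos.2 ⟨1, hone n⟩) T0
  have hT : 0 < T := lt_of_lt_of_le hT0 hTT
  obtain ⟨Z, hZ1, hZ2⟩ := exists_net h1 hs T
  obtain ⟨ω, c, κ, L, hc1, hc2, hc3⟩ := shell_cover FR hFR1 (fun x => NP Φ Z T x) hT
    (fun x v => bad Φ T (v⁻¹ * x)) K (Φ ^ (3 * T)).card q
    (fun x => card_NP h1 hs hZ1 K hdoub x) (fun x v => card_bad h1 T _)
    (by
      intro v A hA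
      have hsub : A.image (fun y => v⁻¹ * y) ⊆ Φ ^ (3 * T) := by
        intro g hg
        obtain ⟨y, hy, rfl⟩ := Finset.mem_image.1 hg
        exact ((mem_NP hs).1 (hA y hy)).2
      have := Finset.card_le_card hsub
      rwa [Finset.card_image_of_injective _ (mul_right_injective v⁻¹)] at this)
    ((Φ ^ (3 * T))⁻¹ * Φ ^ (3 * T))
    (by
      intro v y y' hy hy'
      have h4 : y⁻¹ * y' = (v⁻¹ * y)⁻¹ * (v⁻¹ * y') := by group
      rw [h4]
      exact Finset.mul_mem_mul (Finset.inv_mem_inv ((mem_NP hs).1 hy).2) ((mem_NP hs).1 hy').2)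
    (by
      refine le_trans ?_ (hscale T hTT)
      have h4 : (FR ^ q).card * K * ((FR ^ q).card * (Φ ^ (3 * T)).card) + 1 ≤
          (FR ^ q).card * K * ((FR ^ q).card * C) * (3 * T + 1) ^ q + 1 := by
        have h5 := Nat.mul_le_mul_left ((FR ^ q).card * K * (FR ^ q).card) (hCq (3 * T))
        refine Nat.succ_le_succ ?_
        calc (FR ^ q).card * K * ((FR ^ q).card * (Φ ^ (3 * T)).card)
            = (FR ^ q).card * K * (FR ^ q).card * (Φ ^ (3 * T)).card := by ring
          _ ≤ (FR ^ q).card * K * (FR ^ q).card * (C * (3 * T + 1) ^ q) := h5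
          _ = (FR ^ q).card * K * ((FR ^ q).card * C) * (3 * T + 1) ^ q := by ring
      have h6 : ((((FR ^ q).card * K : ℕ) : ℝ) * (((FR ^ q).card * 2 : ℕ) : ℝ)) =
          (((FR ^ q).card * K * ((FR ^ q).card * 2) : ℕ) : ℝ) := by push_cast; ring
      rw [h6]
      refine mul_le_mul_of_nonneg_left ?_ (by positivity)
      exact_mod_cast h4)
  -- the colouring
  let on : G → Prop := fun x => ∃ v ∈ NP Φ Z T x, ω v ∈ bad Φ T (v⁻¹ * x)
  let col : G → ℕ := fun x => if on x then 1 + c x else 0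
  let lab : G → Set G ⊕ Finset G := fun x =>
    if on x then Sum.inr (κ x) else Sum.inl {z | z ∈ Z ∧ z⁻¹ * x ∈ Φ ^ (2 * T + ω z)}
  have hcol1 : ∀ x, on x → col x = 1 + c x := fun x hx => if_pos hx
  have hcol0 : ∀ x, ¬ on x → col x = 0 := fun x hx => if_neg hx
  have hlab1 : ∀ x, on x → lab x = Sum.inr (κ x) := fun x hx => if_pos hx
  have hlab0 : ∀ x, ¬ on x → lab x = Sum.inl {z | z ∈ Z ∧ z⁻¹ * x ∈ Φ ^ (2 * T + ω z)} :=
    fun x hx => if_neg hx
  have hstep : ∀ x y, ¬ on x → x⁻¹ * y ∈ Φ → ∀ z ∈ Z, z⁻¹ * x ∈ Φ ^ (2 * T + (ω z : ℕ)) →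
      z⁻¹ * y ∈ Φ ^ (2 * T + (ω z : ℕ)) := by
    intro x y hx hxy z hz hzx
    have h3 : z ∈ NP Φ Z T x := (mem_NP hs).2 ⟨hz, pow_mono' h1 (by have := (ω z).2; omega) hzx⟩
    have h4 : z⁻¹ * x ∈ Φ ^ (2 * T + (ω z : ℕ) - 1) := by
      by_contra h
      refine hx ⟨z, h3, ?_⟩
      rw [bad, Finset.mem_filter]
      exact ⟨Finset.mem_univ _, pow_mono' h1 (Nat.le_succ _) hzx, h⟩
    have h5 : z⁻¹ * y = z⁻¹ * x * (x⁻¹ * y) := by group
    have h6 : 2 * T + (ω z : ℕ) = (2 * T + (ω z : ℕ) - 1) + 1 := by omega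
    rw [h5, h6, pow_succ]
    exact Finset.mul_mem_mul h4 hxy
  obtain ⟨κ', h5, h6⟩ := exists_base (Y := Set.univ) (s := F) (c := col) lab
    (L ∪ (Φ ^ (3 * T))⁻¹ * Φ ^ (3 * T))
    (by
      intro x _ y _ hc hxy
      by_cases hx : on x
      · have hy : on y := by
          by_contra hy
          rw [hcol1 x hx, hcol0 y hy] at hc
          omega
        rw [hcol1 x hx, hcol1 y hy] at hc
        rw [hcol1 x hx] at hxy
        rw [hlab1 x hx, hlab1 y hy, hc2 x y hx hy (by omega)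
          (hFR _ (by have := hc1 x hx; show 1 + c x < 1 + (q + 1) * (q + 1); omega) hxy)]
      · have hy : ¬ on y := by
          intro hy
          rw [hcol0 x hx, hcol1 y hy] at hc
          omega
        rw [hcol0 x hx] at hxy
        have hxy' : x⁻¹ * y ∈ Φ := hF0 hxy
        have hyx : y⁻¹ * x ∈ Φ := by
          have := hs _ hxy'
          rwa [mul_inv_rev, inv_inv] at this
        rw [hlab0 x hx, hlab0 y hy]
        congr 1
        ext z
        exact ⟨fun h => ⟨h.1, hstep x y hx hxy' z h.1 h.2⟩,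
          fun h => ⟨h.1, hstep y x hy hyx z h.1 h.2⟩⟩)
    (by
      intro x _ y _ hc hl
      by_cases hx : on x
      · have hy : on y := by
          by_contra hy
          rw [hcol1 x hx, hcol0 y hy] at hc
          omega
        rw [hcol1 x hx, hcol1 y hy] at hc
        rw [hlab1 x hx, hlab1 y hy] at hl
        exact Finset.mem_union_left _ (hc3 x y hx hy (by omega) (Sum.inr_injective hl))
      · have hy : ¬ on y := by
          intro hy
          rw [hcol0 x hx, hcol1 y hy] at hc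
          omega
        rw [hlab0 x hx, hlab0 y hy] at hl
        have hl' := Sum.inl_injective hl
        obtain ⟨z, hz, hzx⟩ := hZ2 x
        have h7 : z ∈ {z | z ∈ Z ∧ z⁻¹ * x ∈ Φ ^ (2 * T + (ω z : ℕ))} :=
          ⟨hz, pow_mono' h1 (Nat.le_add_right _ _) hzx⟩
        rw [hl'] at h7
        refine Finset.mem_union_right _ ?_
        have h8 : x⁻¹ * y = (z⁻¹ * x)⁻¹ * (z⁻¹ * y) := by group
        rw [h8]
        exact Finset.mul_mem_mul (Finset.inv_mem_inv (pow_mono' h1 (by omega) hzx))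
          (pow_mono' h1 (by have := (ω z).2; omega) h7.2))
  refine ⟨1 + m, col, κ', _, ?_, h5, h6⟩
  intro x _
  by_cases hx : on x
  · rw [hcol1 x hx]
    have := hc1 x hx
    show 1 + c x < 1 + (q + 1) * (q + 1)
    omega
  · rw [hcol0 x hx]
    omega

end Pool.Agent.TH18.APC
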