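import Pool.Agent.TH18.APC.Basic

/-! The simultaneous decomposition of neighbouring classes at well separated scales. -/

set_option autoImplicit false

namespace Pool.Agent.TH18.APC

open Classical Pointwise

section
variable {G : Type} [Group G]

/-- a family `Z` of points lying in translates `g x • Y`, where distinct translates met by `Z`
have distinct `j`-th colours -/
structure Config (Y : Set G) (M : ℕ → ℕ) (j : ℕ) (Z : Set G) (g : G → G) (χ : G → ℕ → ℕ) :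
    Prop where
  memY : ∀ x ∈ Z, (g x)⁻¹ * x ∈ Y
  lt : ∀ x ∈ Z, ∀ i, χ (g x) i < M i
  inj : ∀ x ∈ Z, ∀ y ∈ Z, χ (g x) j = χ (g y) j → g x = g y

/-- the simultaneous decomposition property, with `n` scales fixed -/
def TP (Y : Set G) (Φ : ℕ → Finset G) (M : ℕ → ℕ) (n : ℕ) (s : ℕ → Finset G) : Prop :=
  ∀ ρ : Finset G, (1 : G) ∈ ρ → ∃ (l : ℕ) (ρ' : Finset G) (c : (ℕ → ℕ) → G → ℕ)
    (κ : (ℕ → ℕ) → G → G),
    ρ ⊆ ρ' ∧
    (∀ χ : ℕ → ℕ, (∀ i, χ i < M i) → ∀ x ∈ Y, c χ x < l) ∧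
    (∀ χ : ℕ → ℕ, (∀ i, χ i < M i) → ∀ x ∈ Y, ∀ y ∈ Y, c χ x = c χ y → c χ x < n →
      x⁻¹ * y ∈ s (c χ x) → κ χ x = κ χ y) ∧
    (∀ χ : ℕ → ℕ, (∀ i, χ i < M i) → ∀ x ∈ Y, ∀ y ∈ Y, κ χ x = κ χ y → x⁻¹ * y ∈ ρ') ∧
    (∀ j, n ≤ j → ∀ (Z : Set G) (g : G → G) (χ : G → ℕ → ℕ), Config Y M j Z g χ →
      ∀ B : Set G, CB (Φ j) ρ B →
        CB (Φ j) ρ' (B ∪ {x | x ∈ Z ∧ c (χ (g x)) ((g x)⁻¹ * x) = j}))

theorem TP.congr {Y : Set G} {Φ : ℕ → Finset G} {M : ℕ → ℕ} {n : ℕ} {s s' : ℕ → Finset G}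
    (h : TP Y Φ M n s) (hs : ∀ j < n, s j = s' j) : TP Y Φ M n s' := by
  intro ρ hρ
  obtain ⟨l, ρ', c, κ, h1, h2, h3, h4, h5⟩ := h ρ hρ
  refine ⟨l, ρ', c, κ, h1, h2, ?_, h4, h5⟩
  intro χ hχ x hx y hy hxy hn hm
  refine h3 χ hχ x hx y hy hxy hn ?_
  rw [hs _ hn]
  exact hm

theorem TP.leaf {Y : Set G} (Φ : ℕ → Finset G) (M : ℕ → ℕ) {n : ℕ} {s : ℕ → Finset G}
    {c : G → ℕ} {κ : G → G} {D : Finset G} (h1 : ∀ x ∈ Y, c x < n)
    (h2 : ∀ x ∈ Y, ∀ y ∈ Y, c x = c y → x⁻¹ * y ∈ s (c x) → κ x = κ y)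
    (h3 : ∀ x ∈ Y, (κ x)⁻¹ * x ∈ D) : TP Y Φ M n s := by
  intro ρ hρ
  refine ⟨n, ρ ∪ D⁻¹ * D, fun _ => c, fun _ => κ, Finset.subset_union_left, fun _ _ => h1,
    fun _ _ x hx y hy hxy _ => h2 x hx y hy hxy, ?_, ?_⟩
  · intro _ _ x hx y hy hxy
    refine Finset.mem_union_right _ ?_
    have h4 : x⁻¹ * y = ((κ x)⁻¹ * x)⁻¹ * ((κ y)⁻¹ * y) := by
      have hxy' : κ x = κ y := hxy
      rw [hxy']; group
    rw [h4]
    exact Finset.mul_mem_mul (Finset.inv_mem_inv (h3 x hx)) (h3 y hy)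
  · intro j hj Z g χ hZ B hB
    have h4 : {x | x ∈ Z ∧ c ((g x)⁻¹ * x) = j} = (∅ : Set G) := by
      ext x
      simp only [Set.mem_ofPred_eq, Set.mem_empty_iff_false, iff_false, not_and]
      intro hx h
      have := h1 _ (hZ.memY x hx)
      omega
    rw [h4, Set.union_empty]
    exact hB.mono Finset.subset_union_left

theorem TP.step {Y : Set G} {Φ : ℕ → Finset G} {M : ℕ → ℕ} (hΦ : ∀ j, (1 : G) ∈ Φ j) {n : ℕ}
    {s : ℕ → Finset G} (h : ∀ t, TP Y Φ M (n + 1) (Function.update s n t)) : TP Y Φ M n s := by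
  have hh : ∀ r : {ρ : Finset G // (1 : G) ∈ ρ}, _ := fun r =>
    h (Φ n * r.1 * Φ n) r.1 r.2
  choose l ρ' c κ h1 h2 h3 h4 h5 using hh
  intro ρ hρ
  let nx : {ρ : Finset G // (1 : G) ∈ ρ} → {ρ : Finset G // (1 : G) ∈ ρ} := fun r =>
    ⟨ρ' r ∪ (r.1 ∪ r.1 * Φ n * ρ' r * Φ n * r.1), Finset.mem_union_left _ (h1 r r.2)⟩
  let sq : ℕ → {ρ : Finset G // (1 : G) ∈ ρ} := fun k => nx^[k] ⟨ρ, hρ⟩
  have hsq : ∀ k, sq (k + 1) = nx (sq k) := fun k => Function.iterate_succ_apply' nx k _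
  have hle1 : ∀ k, ρ' (sq k) ⊆ (sq (k + 1)).1 := by
    intro k
    rw [hsq k]
    exact Finset.subset_union_left
  have hle2 : ∀ k, (sq k).1 ∪ (sq k).1 * Φ n * ρ' (sq k) * Φ n * (sq k).1 ⊆ (sq (k + 1)).1 := by
    intro k
    rw [hsq k]
    exact Finset.subset_union_right
  have hmono : ∀ k m, k ≤ m → (sq k).1 ⊆ (sq m).1 := by
    intro k m hkm
    induction hkm with
    | refl => exact Finset.Subset.refl _
    | step _ ih => exact ih.trans ((h1 _).trans (hle1 _))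
  refine ⟨(Finset.range (M n)).sup (fun k => l (sq k)), (sq (M n)).1,
    fun χ => c (sq (χ n)) χ, fun χ => κ (sq (χ n)) χ, hmono 0 (M n) (Nat.zero_le _), ?_, ?_, ?_, ?_⟩
  · intro χ hχ x hx
    refine lt_of_lt_of_le (h2 (sq (χ n)) χ hχ x hx) ?_
    exact Finset.le_sup (f := fun k => l (sq k)) (Finset.mem_range.2 (hχ n))
  · intro χ hχ x hx y hy hxy hn hm
    refine h3 (sq (χ n)) χ hχ x hx y hy hxy (Nat.lt_succ_of_lt hn) ?_
    rw [Function.update_of_ne (Nat.ne_of_lt hn)]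
    exact hm
  · intro χ hχ x hx y hy hxy
    exact hmono (χ n + 1) (M n) (hχ n) (hle1 _ (h4 (sq (χ n)) χ hχ x hx y hy hxy))
  · intro j hj Z g χ hZ B hB
    have key : ∀ k, CB (Φ j) (sq k).1
        (B ∪ {x | (x ∈ Z ∧ χ (g x) n < k) ∧ c (sq (χ (g x) n)) (χ (g x)) ((g x)⁻¹ * x) = j}) := by
      intro k
      induction k with
      | zero =>
        have h6 : {x | (x ∈ Z ∧ χ (g x) n < 0) ∧
            c (sq (χ (g x) n)) (χ (g x)) ((g x)⁻¹ * x) = j} = (∅ : Set G) := by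
          ext x
          simp
        rw [h6, Set.union_empty]
        exact hB
      | succ k ih =>
        have h6 : B ∪ {x | (x ∈ Z ∧ χ (g x) n < k + 1) ∧
            c (sq (χ (g x) n)) (χ (g x)) ((g x)⁻¹ * x) = j} =
            (B ∪ {x | (x ∈ Z ∧ χ (g x) n < k) ∧
              c (sq (χ (g x) n)) (χ (g x)) ((g x)⁻¹ * x) = j}) ∪
            {x | (x ∈ Z ∧ χ (g x) n = k) ∧ c (sq k) (χ (g x)) ((g x)⁻¹ * x) = j} := by
          ext x
          simp only [Set.mem_union, Set.mem_ofPred_eq]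
          constructor
          · rintro (hx | ⟨⟨hx, hlt⟩, hc⟩)
            · exact Or.inl (Or.inl hx)
            · rcases Nat.lt_succ_iff_lt_or_eq.1 hlt with h7 | h7
              · exact Or.inl (Or.inr ⟨⟨hx, h7⟩, hc⟩)
              · refine Or.inr ⟨⟨hx, h7⟩, ?_⟩
                rw [h7] at hc
                exact hc
          · rintro ((hx | ⟨⟨hx, hlt⟩, hc⟩) | ⟨⟨hx, h7⟩, hc⟩)
            · exact Or.inl hx
            · exact Or.inr ⟨⟨hx, Nat.lt_succ_of_lt hlt⟩, hc⟩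
            · refine Or.inr ⟨⟨hx, by omega⟩, ?_⟩
              rw [h7]
              exact hc
        rw [h6]
        rcases Nat.eq_or_lt_of_le hj with hjn | hjn
        · subst hjn
          refine (CB_union (Φ n) (sq k).1 (ρ' (sq k)) (hΦ n) (sq k).2 _ _ ih
            (fun x => κ (sq k) (χ (g x)) ((g x)⁻¹ * x)) ?_ ?_).mono (hle2 k)
          · rintro x ⟨⟨hx, hxk⟩, hcx⟩ y ⟨⟨hy, hyk⟩, hcy⟩ hxy
            have hg : g x = g y := hZ.inj x hx y hy (by rw [hxk, hyk])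
            show κ (sq k) (χ (g x)) ((g x)⁻¹ * x) = κ (sq k) (χ (g y)) ((g y)⁻¹ * y)
            rw [← hg]
            refine h3 (sq k) (χ (g x)) (hZ.lt x hx) _ (hZ.memY x hx) _ ?_ ?_ ?_ ?_
            · rw [hg]; exact hZ.memY y hy
            · rw [hcx, hg, hcy]
            · rw [hcx]; exact Nat.lt_succ_self n
            · rw [hcx, Function.update_self]
              have : ((g x)⁻¹ * x)⁻¹ * ((g x)⁻¹ * y) = x⁻¹ * y := by group
              rw [this]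
              exact hxy
          · rintro x ⟨⟨hx, hxk⟩, hcx⟩ y ⟨⟨hy, hyk⟩, hcy⟩ hxy
            have hg : g x = g y := hZ.inj x hx y hy (by rw [hxk, hyk])
            have hxy' : κ (sq k) (χ (g x)) ((g x)⁻¹ * x) =
              κ (sq k) (χ (g y)) ((g y)⁻¹ * y) := hxy
            rw [← hg] at hxy'
            have := h4 (sq k) (χ (g x)) (hZ.lt x hx) _ (hZ.memY x hx) _
              (by rw [hg]; exact hZ.memY y hy) hxy'
            have h8 : ((g x)⁻¹ * x)⁻¹ * ((g x)⁻¹ * y) = x⁻¹ * y := by group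
            rwa [h8] at this
        · refine CB.mono ?_ (hle1 k)
          exact h5 (sq k) j hjn {x | x ∈ Z ∧ χ (g x) n = k} g χ
            ⟨fun x hx => hZ.memY x hx.1, fun x hx => hZ.lt x hx.1,
              fun x hx y hy => hZ.inj x hx.1 y hy.1⟩ _ ih
    have h7 := key (M n)
    have h8 : {x | (x ∈ Z ∧ χ (g x) n < M n) ∧
        c (sq (χ (g x) n)) (χ (g x)) ((g x)⁻¹ * x) = j} =
        {x | x ∈ Z ∧ c (sq (χ (g x) n)) (χ (g x)) ((g x)⁻¹ * x) = j} := by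
      ext x
      simp only [Set.mem_ofPred_eq]
      exact ⟨fun hx => ⟨hx.1.1, hx.2⟩, fun hx => ⟨⟨hx.1, hZ.lt x hx.1 n⟩, hx.2⟩⟩
    rw [h8] at h7
    exact h7

theorem TP.zero {Y : Set G} (hY : APCon Y) {Φ : ℕ → Finset G} (M : ℕ → ℕ)
    (hΦ : ∀ j, (1 : G) ∈ Φ j) (s : ℕ → Finset G) : TP Y Φ M 0 s := by
  by_contra hcon
  have hnext : ∀ (n : ℕ) (u : {s : ℕ → Finset G // ¬ TP Y Φ M n s}),
      ∃ t, ¬ TP Y Φ M (n + 1) (Function.update u.1 n t) := by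
    intro n u
    by_contra h
    push Not at h
    exact u.2 (TP.step hΦ h)
  choose t ht using hnext
  let u : (n : ℕ) → {s : ℕ → Finset G // ¬ TP Y Φ M n s} := fun n =>
    Nat.rec ⟨s, hcon⟩ (fun n v => ⟨Function.update v.1 n (t n v), ht n v⟩) n
  have hu : ∀ n, (u (n + 1)).1 = Function.update (u n).1 n (t n (u n)) := fun n => rfl
  let σ : ℕ → Finset G := fun n => (u (n + 1)).1 n
  have hσ : ∀ n, ∀ j < n, σ j = (u n).1 j := by
    intro n
    induction n with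
    | zero => intro j hj; omega
    | succ n ih =>
      intro j hj
      rcases Nat.lt_succ_iff_lt_or_eq.1 hj with h | h
      · rw [hu n, Function.update_of_ne (Nat.ne_of_lt h)]
        exact ih j h
      · rw [h]
  obtain ⟨n, c, κ, D, h1, h2, h3⟩ := hY σ
  exact (u n).2 ((TP.leaf Φ M h1 h2 h3).congr (hσ n))

end

end Pool.Agent.TH18.APC
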