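import Pool.Agent.TH18.APC.TreeUp

/-! Decompositions of a group with a tree structure. -/

set_option autoImplicit false

namespace Pool.Agent.TH18.APC

open Classical Pointwise

section
variable {G ι : Type} [Group G]

/-- the set `Z` is decomposed by the scales `F a, …, F (b - 1)` -/
def Dec (F : ℕ → Finset G) (a b : ℕ) (Z : Set G) : Prop :=
  ∃ (c : G → ℕ) (κ : G → G) (D : Finset G), (∀ x ∈ Z, a ≤ c x ∧ c x < b) ∧
    (∀ x ∈ Z, ∀ y ∈ Z, c x = c y → x⁻¹ * y ∈ F (c x) → κ x = κ y) ∧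
    (∀ x ∈ Z, (κ x)⁻¹ * x ∈ D)

theorem Dec.mono {F : ℕ → Finset G} {a b : ℕ} {Z Z' : Set G} (h : Dec F a b Z) (hZ : Z' ⊆ Z) :
    Dec F a b Z' := by
  obtain ⟨c, κ, D, h1, h2, h3⟩ := h
  exact ⟨c, κ, D, fun x hx => h1 x (hZ hx), fun x hx y hy => h2 x (hZ hx) y (hZ hy),
    fun x hx => h3 x (hZ hx)⟩

theorem Dec.union {F : ℕ → Finset G} {a b b' : ℕ} {Z Z' : Set G} (h : Dec F a b Z)
    (h' : Dec F b b' Z') (hab : a ≤ b) (hbb : b ≤ b') : Dec F a b' (Z ∪ Z') := by
  obtain ⟨c, κ, D, h1, h2, h3⟩ := h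
  obtain ⟨c', κ', D', h1', h2', h3'⟩ := h'
  refine ⟨fun x => if x ∈ Z then c x else c' x, fun x => if x ∈ Z then κ x else κ' x, D ∪ D',
    ?_, ?_, ?_⟩
  · intro x hx
    by_cases hxA : x ∈ Z
    · simp only [hxA, if_true]
      have := h1 x hxA
      omega
    · simp only [hxA, if_false]
      have := h1' x (hx.resolve_left hxA)
      omega
  · intro x hx y hy hc hs
    by_cases hxA : x ∈ Z
    · by_cases hyA : y ∈ Z
      · simp only [hxA, hyA, if_true] at hc hs ⊢
        exact h2 x hxA y hyA hc hs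
      · simp only [hxA, hyA, if_true, if_false] at hc
        have := h1 x hxA
        have := h1' y (hy.resolve_left hyA)
        omega
    · by_cases hyA : y ∈ Z
      · simp only [hxA, hyA, if_true, if_false] at hc
        have := h1 y hyA
        have := h1' x (hx.resolve_left hxA)
        omega
      · simp only [hxA, hyA, if_false] at hc hs ⊢
        exact h2' x (hx.resolve_left hxA) y (hy.resolve_left hyA) hc hs
  · intro x hx
    by_cases hxA : x ∈ Z
    · simp only [hxA, if_true]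
      exact Finset.mem_union_left _ (h3 x hxA)
    · simp only [hxA, if_false]
      exact Finset.mem_union_right _ (h3' x (hx.resolve_left hxA))

theorem APCon_of_Dec {N : Set G} (h : ∀ F : ℕ → Finset G, ∃ n, Dec F 0 n N) : APCon N := by
  intro F
  obtain ⟨n, c, κ, D, h1, h2, h3⟩ := h F
  exact ⟨n, c, κ, D, fun x hx => (h1 x hx).2, h2, h3⟩

/-- the uniform finite dimensionality of the sets of points which are close to two edges, the
second one being the `k`-th ancestor of the first one -/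
def EdgeDim (C : Subgroup G) (A : ι → Subgroup G) (t : G → Option ι) (N : Set G) (k e : ℕ) :
    Prop :=
  ∀ ρ s : Finset G, ∃ D : Finset G, ∀ (Y : Set G) (z z' : G → G), Y ⊆ N →
    (∀ x ∈ Y, x⁻¹ * z x ∈ ρ ∧ x⁻¹ * z' x ∈ ρ) →
    (∀ x ∈ Y, ∀ y ∈ Y, (z x)⁻¹ * z y ∈ C ∧ (z' x)⁻¹ * z' y ∈ C) →
    (∀ x ∈ Y, ∃ p : ℕ → G, p 0 = z x ∧ p k = z' x ∧ ∀ j < k, p (j + 1) ∈ Ent A t (p j)) →
    ∃ (c : G → ℕ) (κ : G → G), (∀ x ∈ Y, c x < e) ∧
      (∀ x ∈ Y, ∀ y ∈ Y, c x = c y → x⁻¹ * y ∈ s → κ x = κ y) ∧ (∀ x ∈ Y, (κ x)⁻¹ * x ∈ D)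

variable {C : Subgroup G} {A : ι → Subgroup G} {t : G → Option ι} {ℓ : G → ℕ}

theorem exists_word (hT : TStr C A t ℓ) (g : G) :
    ∃ l : List G, (∀ a ∈ l, ∃ i, a ∈ A i) ∧ l.prod = g := by
  have h1 : g ∈ Subgroup.closure (⋃ i, (A i : Set G)) := by
    rw [hT.gen]; trivial
  induction h1 using Subgroup.closure_induction with
  | mem x hx =>
    obtain ⟨i, hi⟩ := Set.mem_iUnion.1 hx
    refine ⟨[x], ?_, List.prod_singleton⟩
    intro a ha
    rw [List.mem_singleton] at ha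
    rw [ha]
    exact ⟨i, hi⟩
  | one => exact ⟨[], fun a ha => absurd ha (by simp), List.prod_nil⟩
  | mul x y _ _ hx hy =>
    obtain ⟨l, h1, h2⟩ := hx
    obtain ⟨l', h3, h4⟩ := hy
    refine ⟨l ++ l', ?_, by rw [List.prod_append, h2, h4]⟩
    intro a ha
    rcases List.mem_append.1 ha with h | h
    · exact h1 a h
    · exact h3 a h
  | inv x _ hx =>
    obtain ⟨l, h1, h2⟩ := hx
    refine ⟨(l.map (fun a => a⁻¹)).reverse, ?_, by rw [← List.prod_inv_reverse, h2]⟩
    intro a ha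
    rw [List.mem_reverse, List.mem_map] at ha
    obtain ⟨b, hb, rfl⟩ := ha
    obtain ⟨i, hi⟩ := h1 b hb
    exact ⟨i, (A i).inv_mem hi⟩

/-- separation and ancestors in terms of finite windows -/
theorem window (hT : TStr C A t ℓ) (s : Finset G) : ∃ (w : Finset G) (M : ℕ),
    (∀ x y, x⁻¹ * y ∈ s → SameV A t x y ∨ (∃ e ∈ Ent A t x, x⁻¹ * e ∈ w) ∨
      (∃ e ∈ Ent A t y, y⁻¹ * e ∈ w)) ∧
    (∀ x y, x⁻¹ * y ∈ s → ℓ x < ℓ y + M ∧ ℓ y < ℓ x + M) ∧
    (∀ x y e, x⁻¹ * y ∈ s → Relation.ReflTransGen (fun x e => e ∈ Ent A t x) x e →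
      ℓ e + M ≤ ℓ x → Relation.ReflTransGen (fun x e => e ∈ Ent A t x) y e) := by
  choose wd h1 h2 using exists_word hT
  let w : Finset G := s.biUnion (fun g => (Finset.range ((wd g).length + 1)).biUnion
    (fun m => {((wd g).take m).prod, g⁻¹ * ((wd g).take m).prod}))
  let M : ℕ := s.sup (fun g => (wd g).length) + 1
  have hM : ∀ g ∈ s, (wd g).length < M := fun g hg =>
    Nat.lt_succ_of_le (Finset.le_sup (f := fun g => (wd g).length) hg)
  have hw1 : ∀ g ∈ s, ∀ m ≤ (wd g).length, ((wd g).take m).prod ∈ w := by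
    intro g hg m hm
    refine Finset.mem_biUnion.2 ⟨g, hg, Finset.mem_biUnion.2 ⟨m, Finset.mem_range.2 (by omega), ?_⟩⟩
    exact Finset.mem_insert_self _ _
  have hw2 : ∀ g ∈ s, ∀ m ≤ (wd g).length, g⁻¹ * ((wd g).take m).prod ∈ w := by
    intro g hg m hm
    refine Finset.mem_biUnion.2 ⟨g, hg, Finset.mem_biUnion.2 ⟨m, Finset.mem_range.2 (by omega), ?_⟩⟩
    exact Finset.mem_insert_of_mem (Finset.mem_singleton_self _)
  have hy : ∀ x y : G, y = x * (wd (x⁻¹ * y)).prod := by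
    intro x y
    rw [h2, mul_inv_cancel_left]
  refine ⟨w, M, ?_, ?_, ?_⟩
  · intro x y hxy
    have h3 := separation hT _ (wd (x⁻¹ * y)) rfl (h1 _) x
    rw [← hy x y] at h3
    rcases h3 with h3 | ⟨m, hm, h3⟩ | ⟨m, hm, h3⟩
    · exact Or.inl h3
    · refine Or.inr (Or.inl ⟨_, h3, ?_⟩)
      rw [inv_mul_cancel_left]
      exact hw1 _ hxy m hm
    · refine Or.inr (Or.inr ⟨_, h3, ?_⟩)
      have h4 : y⁻¹ * (x * ((wd (x⁻¹ * y)).take m).prod) =
          (x⁻¹ * y)⁻¹ * ((wd (x⁻¹ * y)).take m).prod := by group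
      rw [h4]
      exact hw2 _ hxy m hm
  · intro x y hxy
    have h3 := len_chain hT (wd (x⁻¹ * y)) (h1 _) x
    rw [← hy x y] at h3
    have := hM _ hxy
    omega
  · intro x y e hxy he hl
    have h3 := anc_chain hT (wd (x⁻¹ * y)) (h1 _) x e he (by have := hM _ hxy; omega)
    rwa [← hy x y] at h3

/-- base points of the vertices -/
theorem vertex_base (hT : TStr C A t ℓ) : ∃ β : G → G, (∀ x y, SameV A t x y → β x = β y) ∧
    (∀ x, (β x)⁻¹ * x ∈ (C : Set G) ∪ ⋃ i, (A i : Set G)) := by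
  let β : G → G := fun x =>
    match t x with
    | none => 1
    | some i => Quotient.out (QuotientGroup.mk x : G ⧸ A i)
  have hn : ∀ x, t x = none → β x = 1 := fun x hx => by
    show (match t x with
    | none => 1
    | some i => Quotient.out (QuotientGroup.mk x : G ⧸ A i)) = 1
    rw [hx]
  have hs : ∀ x i, t x = some i → β x = Quotient.out (QuotientGroup.mk x : G ⧸ A i) :=
    fun x i hx => by
    show (match t x with
    | none => 1
    | some i => Quotient.out (QuotientGroup.mk x : G ⧸ A i)) = _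
    rw [hx]
  refine ⟨β, ?_, ?_⟩
  · rintro x y (⟨h1, h2⟩ | ⟨i, h1, h2, h3⟩)
    · rw [hn x h1, hn y h2]
    · rw [hs x i h1, hs y i h2]
      have h4 : (QuotientGroup.mk x : G ⧸ A i) = QuotientGroup.mk y := QuotientGroup.eq.2 h3
      rw [h4]
  · intro x
    rcases h : t x with _ | i
    · rw [hn x h, inv_one, one_mul]
      exact Or.inl (hT.tnone x h)
    · refine Or.inr (Set.mem_iUnion.2 ⟨i, ?_⟩)
      rw [hs x i h]
      obtain ⟨a, ha⟩ := QuotientGroup.mk_out_eq_mul (A i) x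
      have ha' : Quotient.out (QuotientGroup.mk x : G ⧸ A i) = x * a := ha
      rw [ha', mul_inv_rev, inv_mul_cancel_right]
      exact (A i).inv_mem a.2

/-- going up the tree for `k` steps -/
theorem go_up (hT : TStr C A t ℓ) (hU : APCon ((C : Set G) ∪ ⋃ i, (A i : Set G)))
    (F : ℕ → Finset G) (e : ℕ) (k : ℕ) : ∃ (n : ℕ) (ρ : Finset G) (S : Set G), e ≤ n ∧
      Dec F e n Sᶜ ∧ ∀ x ∈ S, ∃ p : ℕ → G, p 0 = x ∧ (∀ j < k, p (j + 1) ∈ Ent A t (p j)) ∧
        ∀ j ≤ k, x⁻¹ * p j ∈ ρ := by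
  obtain ⟨β, hβ1, hβ2⟩ := vertex_base hT
  induction k with
  | zero =>
    refine ⟨e, {1}, Set.univ, le_rfl, ?_, ?_⟩
    · rw [Set.compl_univ]
      exact ⟨fun _ => 0, fun _ => 1, ∅, fun _ hx => absurd hx (by simp),
        fun _ hx => absurd hx (by simp), fun _ hx => absurd hx (by simp)⟩
    · intro x _
      refine ⟨fun _ => x, rfl, fun j hj => absurd hj (by omega), fun j _ => ?_⟩
      rw [inv_mul_cancel]
      exact Finset.mem_singleton_self _
  | succ k ih =>
    obtain ⟨n, ρ, S, hen, hdec, hp⟩ := ih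
    choose! p hp0 hp1 hp2 using hp
    obtain ⟨m, c, κ, D, h1, h2, h3⟩ := hU (fun j => ρ⁻¹ * F (n + j) * ρ)
    choose w M hw1 hw2 hw3 using window hT
    let r : Finset G := (Finset.range m).biUnion (fun j => w (ρ⁻¹ * F (n + j) * ρ))
    have hr : ∀ j < m, w (ρ⁻¹ * F (n + j) * ρ) ⊆ r := fun j hj =>
      Finset.subset_biUnion_of_mem (fun j => w (ρ⁻¹ * F (n + j) * ρ)) (Finset.mem_range.2 hj)
    let S' : Set G := {x | x ∈ S ∧ ∃ e ∈ Ent A t (p x k), (p x k)⁻¹ * e ∈ r}
    have hS' : Dec F n (n + m) (S \ S') := by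
      refine ⟨fun x => n + c ((β (p x k))⁻¹ * p x k),
        fun x => β (p x k) * κ ((β (p x k))⁻¹ * p x k), D * ρ⁻¹, ?_, ?_, ?_⟩
      · intro x hx
        have := h1 _ (hβ2 (p x k))
        show n ≤ n + c ((β (p x k))⁻¹ * p x k) ∧ n + c ((β (p x k))⁻¹ * p x k) < n + m
        omega
      · rintro x ⟨hx, hx'⟩ y ⟨hy, hy'⟩ hc hs
        replace hc : c ((β (p x k))⁻¹ * p x k) = c ((β (p y k))⁻¹ * p y k) :=
          Nat.add_left_cancel hc
        have h4 : (p x k)⁻¹ * p y k ∈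
            ρ⁻¹ * F (n + c ((β (p x k))⁻¹ * p x k)) * ρ := by
          have h5 : (p x k)⁻¹ * p y k = (x⁻¹ * p x k)⁻¹ * (x⁻¹ * y) * (y⁻¹ * p y k) := by group
          rw [h5]
          exact Finset.mul_mem_mul (Finset.mul_mem_mul
            (Finset.inv_mem_inv (hp2 x hx k le_rfl)) hs) (hp2 y hy k le_rfl)
        have h5 := hr _ (h1 _ (hβ2 (p x k)))
        have h6 : β (p x k) = β (p y k) := by
          rcases hw1 _ _ _ h4 with h6 | ⟨e, he, h6⟩ | ⟨e, he, h6⟩
          · exact hβ1 _ _ h6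
          · exact absurd ⟨hx, e, he, h5 h6⟩ hx'
          · exact absurd ⟨hy, e, he, h5 h6⟩ hy'
        show β (p x k) * κ ((β (p x k))⁻¹ * p x k) = β (p y k) * κ ((β (p y k))⁻¹ * p y k)
        rw [h2 _ (hβ2 (p x k)) _ (hβ2 (p y k)) hc ?_, h6]
        have h7 : ((β (p x k))⁻¹ * p x k)⁻¹ * ((β (p y k))⁻¹ * p y k) = (p x k)⁻¹ * p y k := by
          rw [h6]; group
        rw [h7]
        exact h4
      · rintro x ⟨hx, hx'⟩
        have h4 : (β (p x k) * κ ((β (p x k))⁻¹ * p x k))⁻¹ * x =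
          ((κ ((β (p x k))⁻¹ * p x k))⁻¹ * ((β (p x k))⁻¹ * p x k)) * (x⁻¹ * p x k)⁻¹ := by group
        show (β (p x k) * κ ((β (p x k))⁻¹ * p x k))⁻¹ * x ∈ D * ρ⁻¹
        rw [h4]
        exact Finset.mul_mem_mul (h3 _ (hβ2 (p x k))) (Finset.inv_mem_inv (hp2 x hx k le_rfl))
    refine ⟨n + m, ρ ∪ ρ * r, S', by omega, ?_, ?_⟩
    · refine (hdec.union hS' hen (Nat.le_add_right _ _)).mono ?_
      intro x hx
      by_cases hxS : x ∈ S
      · exact Or.inr ⟨hxS, hx⟩
      · exact Or.inl hxS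
    · rintro x ⟨hx, e', he', her⟩
      refine ⟨fun j => if j ≤ k then p x j else e', ?_, ?_, ?_⟩
      · show (if 0 ≤ k then p x 0 else e') = x
        rw [if_pos (Nat.zero_le _), hp0 x hx]
      · intro j hj
        show (if j + 1 ≤ k then p x (j + 1) else e') ∈ Ent A t (if j ≤ k then p x j else e')
        rw [if_pos (Nat.le_of_lt_succ hj)]
        rcases Nat.lt_or_ge j k with h4 | h4
        · rw [if_pos (by omega)]
          exact hp1 x hx j h4
        · have h5 : j = k := by omega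
          subst h5
          rw [if_neg (by omega)]
          exact he'
      · intro j hj
        show x⁻¹ * (if j ≤ k then p x j else e') ∈ ρ ∪ ρ * r
        by_cases h4 : j ≤ k
        · rw [if_pos h4]
          exact Finset.mem_union_left _ (hp2 x hx j h4)
        · rw [if_neg h4]
          refine Finset.mem_union_right _ ?_
          have h5 : x⁻¹ * e' = (x⁻¹ * p x k) * ((p x k)⁻¹ * e') := by group
          rw [h5]
          exact Finset.mul_mem_mul (hp2 x hx k le_rfl) her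

theorem path_anc (hT : TStr C A t ℓ) {p : ℕ → G} {k : ℕ}
    (hp : ∀ j < k, p (j + 1) ∈ Ent A t (p j)) : ∀ j ≤ k,
    Relation.ReflTransGen (fun x e => e ∈ Ent A t x) (p 0) (p j) ∧ ℓ (p j) + j = ℓ (p 0) := by
  intro j
  induction j with
  | zero => intro _; exact ⟨Relation.ReflTransGen.refl, rfl⟩
  | succ j ih =>
    intro hj
    obtain ⟨h1, h2⟩ := ih (by omega)
    have h3 := hp j (by omega)
    refine ⟨h1.tail h3, ?_⟩
    have := Ent_len hT h3
    omega

/-- **The tree theorem.** -/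
theorem APC_tree (hT : TStr C A t ℓ) (hU : APCon ((C : Set G) ∪ ⋃ i, (A i : Set G)))
    (N : Set G) (k e : ℕ) (hE : EdgeDim C A t N k e) : APCon N := by
  refine APCon_of_Dec (fun F => ?_)
  let Ψ : Finset G := (Finset.range (2 * e)).biUnion F
  have hΨ : ∀ j < 2 * e, F j ⊆ Ψ := fun j hj =>
    Finset.subset_biUnion_of_mem F (Finset.mem_range.2 hj)
  obtain ⟨-, M₀, -, hM1, hM2⟩ := window hT Ψ
  let M : ℕ := M₀ + 1
  obtain ⟨n, ρ, S, hen, hdec, hp⟩ := go_up hT hU F (2 * e) (2 * M + k)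
  choose! p hp0 hp1 hp2 using hp
  refine ⟨n, ?_⟩
  have hpath : ∀ x ∈ S, ∀ j ≤ 2 * M + k,
      Relation.ReflTransGen (fun x e => e ∈ Ent A t x) x (p x j) ∧ ℓ (p x j) + j = ℓ x := by
    intro x hx j hj
    have := path_anc hT (hp1 x hx) j hj
    rwa [hp0 x hx] at this
  -- the label of a point
  let a : G → ℕ := fun x => ℓ x / M
  let m : G → ℕ := fun x => ℓ x % M + M
  let z : G → G := fun x => p x (m x)
  let z' : G → G := fun x => p x (m x + k)
  have hMpos : 0 < M := Nat.succ_pos _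
  have hm1 : ∀ x, m x < 2 * M := by
    intro x
    have := Nat.mod_lt (ℓ x) hMpos
    show ℓ x % M + M < 2 * M
    omega
  have hm2 : ∀ x, M ≤ m x := fun x => Nat.le_add_left _ _
  have hz : ∀ x ∈ S, Relation.ReflTransGen (fun x e => e ∈ Ent A t x) x (z x) ∧
      ℓ (z x) + m x = ℓ x := fun x hx => hpath x hx (m x) (by have := hm1 x; omega)
  have hz' : ∀ x ∈ S, Relation.ReflTransGen (fun x e => e ∈ Ent A t x) x (z' x) ∧
      ℓ (z' x) + (m x + k) = ℓ x := fun x hx => hpath x hx (m x + k) (by have := hm1 x; omega)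
  have hℓ : ∀ x, ℓ x + M = a x * M + m x := by
    intro x
    have := Nat.div_add_mod (ℓ x) M
    show ℓ x + M = ℓ x / M * M + (ℓ x % M + M)
    rw [mul_comm] at this
    omega
  let lab : G → ℕ × (G ⧸ C) × (G ⧸ C) := fun x =>
    (a x, QuotientGroup.mk (z x), QuotientGroup.mk (z' x))
  obtain ⟨D, hD⟩ := hE ρ Ψ
  have hD' := fun q : ℕ × (G ⧸ C) × (G ⧸ C) => hD {x | (x ∈ S ∧ x ∈ N) ∧ lab x = q} z z'
    (fun x hx => hx.1.2)
    (fun x hx => ⟨hp2 x hx.1.1 _ (by have := hm1 x; omega), hp2 x hx.1.1 _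
      (by have := hm1 x; omega)⟩)
    (fun x hx y hy => by
      have h1 : lab x = lab y := hx.2.trans hy.2.symm
      exact ⟨QuotientGroup.eq.1 (congrArg (fun q => q.2.1) h1),
        QuotientGroup.eq.1 (congrArg (fun q => q.2.2) h1)⟩)
    (fun x hx => ⟨fun j => p x (m x + j), rfl, rfl, fun j hj =>
      hp1 x hx.1.1 (m x + j) (by have := hm1 x; omega)⟩)
  choose c κ h1 h2 h3 using hD'
  have hS : Dec F 0 (2 * e) (S ∩ N) := by
    refine ⟨fun x => (a x % 2) * e + c (lab x) x, fun x => κ (lab x) x, D, ?_, ?_, ?_⟩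
    · intro x hx
      have h4 := h1 (lab x) x ⟨hx, rfl⟩
      refine ⟨Nat.zero_le _, ?_⟩
      show (a x % 2) * e + c (lab x) x < 2 * e
      rcases Nat.mod_two_eq_zero_or_one (a x) with h5 | h5 <;> rw [h5] <;> omega
    · intro x hx y hy hc hs
      replace hc : (a x % 2) * e + c (lab x) x = (a y % 2) * e + c (lab y) y := hc
      replace hs : x⁻¹ * y ∈ F ((a x % 2) * e + c (lab x) x) := hs
      have hcx := h1 (lab x) x ⟨hx, rfl⟩
      have hcy := h1 (lab y) y ⟨hy, rfl⟩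
      have hlt : (a x % 2) * e + c (lab x) x < 2 * e := by
        rcases Nat.mod_two_eq_zero_or_one (a x) with h5 | h5 <;> rw [h5] <;> omega
      have hs' : x⁻¹ * y ∈ Ψ := hΨ _ hlt hs
      have hpar : a x % 2 = a y % 2 ∧ c (lab x) x = c (lab y) y := by
        rcases Nat.mod_two_eq_zero_or_one (a x) with h5 | h5 <;>
        rcases Nat.mod_two_eq_zero_or_one (a y) with h6 | h6 <;>
        rw [h5, h6] at hc ⊢ <;> omega
      have hxy := hM1 x y hs'
      have haa : a x = a y := by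
        have h5 : ℓ x < ℓ y + M := by show ℓ x < ℓ y + (M₀ + 1); omega
        have h6 : ℓ y < ℓ x + M := by show ℓ y < ℓ x + (M₀ + 1); omega
        have h7 : a x ≤ a y + 1 := by
          have h8 : ℓ x / M ≤ (ℓ y + M) / M := Nat.div_le_div_right h5.le
          rwa [Nat.add_div_right _ hMpos] at h8
        have h8 : a y ≤ a x + 1 := by
          have h8 : ℓ y / M ≤ (ℓ x + M) / M := Nat.div_le_div_right h6.le
          rwa [Nat.add_div_right _ hMpos] at h8
        omega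
      obtain ⟨hzx1, hzx2⟩ := hz x hx.1
      obtain ⟨hzy1, hzy2⟩ := hz y hy.1
      obtain ⟨hzx1', hzx2'⟩ := hz' x hx.1
      obtain ⟨hzy1', hzy2'⟩ := hz' y hy.1
      have hℓx := hℓ x
      have hℓy := hℓ y
      rw [← haa] at hℓy
      have hmx := hm2 x
      have hMM : M₀ + 1 = M := rfl
      have h5 := hM2 x y (z x) hs' hzx1 (by omega)
      have h6 := anc_unique hT (ℓ y) y _ _ rfl h5 hzy1 (by omega)
      have h7 := hM2 x y (z' x) hs' hzx1' (by omega)
      have h8 := anc_unique hT (ℓ y) y _ _ rfl h7 hzy1' (by omega)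
      have h9 : lab x = lab y := by
        show (a x, (QuotientGroup.mk (z x) : G ⧸ C), (QuotientGroup.mk (z' x) : G ⧸ C)) =
          (a y, QuotientGroup.mk (z y), QuotientGroup.mk (z' y))
        rw [haa, QuotientGroup.eq.2 h6, QuotientGroup.eq.2 h8]
      show κ (lab x) x = κ (lab y) y
      have hc' := hpar.2
      rw [← h9] at hc' ⊢
      exact h2 (lab x) x ⟨hx, rfl⟩ y ⟨hy, h9.symm⟩ hc' hs'
    · intro x hx
      exact h3 (lab x) x ⟨hx, rfl⟩
  refine (hS.union hdec (Nat.zero_le _) hen).mono ?_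
  intro x hx
  by_cases hxS : x ∈ S
  · exact Or.inl ⟨hxS, hx⟩
  · exact Or.inr hxS

end

end Pool.Agent.TH18.APC
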