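import Pool.Agent.TH18.APC.TreeMetric

/-! The tree theorem for infinitely many vertex groups. -/

set_option autoImplicit false

namespace Pool.Agent.TH18.APC

open Classical Pointwise

section
variable {G ι : Type} [Group G]

/-- uniform asymptotic property C of a family of subsets of a group -/
def UAPC {κ : Type} (B : κ → Set G) : Prop :=
  ∀ s : ℕ → Finset G, ∃ (n : ℕ) (D : Finset G), ∀ i, ∃ (c : G → ℕ) (κ : G → G),
    (∀ x ∈ B i, c x < n) ∧
    (∀ x ∈ B i, ∀ y ∈ B i, c x = c y → x⁻¹ * y ∈ s (c x) → κ x = κ y) ∧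
    (∀ x ∈ B i, (κ x)⁻¹ * x ∈ D)

/-- the vertex groups and the root -/
def vset (C : Subgroup G) (A : ι → Subgroup G) : Option ι → Set G := fun o =>
  match o with
  | none => C
  | some i => A i

/-- infinitely many vertex groups meeting in `C` -/
theorem UAPC_family (C : Subgroup G) (A : ι → Subgroup G)
    (hAA : ∀ i j, i ≠ j → ∀ a, a ∈ A i → a ∈ A j → a ∈ C) (hC : APCon (C : Set G))
    (hA : ∀ i, APCon (A i : Set G)) : UAPC (vset C A) := by
  intro s
  obtain ⟨n, c, κ, D, h1, h2, h3⟩ := hC s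
  let S : Finset G := (Finset.range n).biUnion s
  have hI : Set.Finite {i | ∃ a ∈ S, a ∈ A i ∧ a ∉ C} := by
    have h4 : {i | ∃ a ∈ S, a ∈ A i ∧ a ∉ C} ⊆ ⋃ a ∈ (S : Set G), {i | a ∈ A i ∧ a ∉ C} := by
      rintro i ⟨a, ha, h5⟩
      exact Set.mem_iUnion₂.2 ⟨a, ha, h5⟩
    refine (S.finite_toSet.biUnion (fun a _ => ?_)).subset h4
    refine Set.Subsingleton.finite ?_
    rintro i ⟨hi, hi'⟩ j ⟨hj, -⟩
    by_contra hij
    exact hi' (hAA i j hij a hi hj)
  have hA' := fun i => hA i s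
  choose n' c' κ' D' h1' h2' h3' using hA'
  refine ⟨n + ∑ i ∈ hI.toFinset, n' i, D ∪ hI.toFinset.biUnion D', ?_⟩
  intro o
  rcases o with _ | i
  · exact ⟨c, κ, fun x hx => Nat.lt_add_right _ (h1 x hx), h2,
      fun x hx => Finset.mem_union_left _ (h3 x hx)⟩
  · by_cases hi : i ∈ hI.toFinset
    · refine ⟨c' i, κ' i, ?_, h2' i, ?_⟩
      · intro x hx
        have h4 := Finset.single_le_sum (f := n') (fun _ _ => Nat.zero_le _) hi
        have h5 := h1' i x hx
        omega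
      · intro x hx
        exact Finset.mem_union_right _ (Finset.mem_biUnion.2 ⟨i, hi, h3' i x hx⟩)
    · have hi' : ∀ a ∈ S, a ∈ A i → a ∈ C := by
        intro a ha ha'
        by_contra hcon
        exact hi (hI.mem_toFinset.2 ⟨a, ha, ha', hcon⟩)
      let b : G → G := fun x => Quotient.out (QuotientGroup.mk x : G ⧸ C)
      have hb : ∀ x, (b x)⁻¹ * x ∈ C := by
        intro x
        obtain ⟨a, ha⟩ := QuotientGroup.mk_out_eq_mul C x
        have ha' : b x = x * a := ha
        rw [ha', mul_inv_rev, inv_mul_cancel_right]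
        exact C.inv_mem a.2
      refine ⟨fun x => c ((b x)⁻¹ * x), fun x => b x * κ ((b x)⁻¹ * x), ?_, ?_, ?_⟩
      · intro x _
        exact Nat.lt_add_right _ (h1 _ (hb x))
      · intro x hx y hy hc hs
        replace hc : c ((b x)⁻¹ * x) = c ((b y)⁻¹ * y) := hc
        replace hs : x⁻¹ * y ∈ s (c ((b x)⁻¹ * x)) := hs
        have h4 : x⁻¹ * y ∈ S := Finset.mem_biUnion.2 ⟨_, Finset.mem_range.2 (h1 _ (hb x)), hs⟩
        have h5 : x⁻¹ * y ∈ C := hi' _ h4 ((A i).mul_mem ((A i).inv_mem hx) hy)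
        have h6 : b x = b y := by
          show Quotient.out (QuotientGroup.mk x : G ⧸ C) = Quotient.out (QuotientGroup.mk y : G ⧸ C)
          rw [QuotientGroup.eq.2 h5]
        show b x * κ ((b x)⁻¹ * x) = b y * κ ((b y)⁻¹ * y)
        rw [h2 _ (hb x) _ (hb y) hc ?_, h6]
        have h7 : ((b x)⁻¹ * x)⁻¹ * ((b y)⁻¹ * y) = x⁻¹ * y := by rw [h6]; group
        rw [h7]
        exact hs
      · intro x _
        show (b x * κ ((b x)⁻¹ * x))⁻¹ * x ∈ _
        have h4 : (b x * κ ((b x)⁻¹ * x))⁻¹ * x = (κ ((b x)⁻¹ * x))⁻¹ * ((b x)⁻¹ * x) := by group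
        rw [h4]
        exact Finset.mem_union_left _ (h3 _ (hb x))

variable {C : Subgroup G} {A : ι → Subgroup G} {t : G → Option ι} {ℓ : G → ℕ}

/-- base points of the vertices -/
theorem vertex_baseU (hT : TStr C A t ℓ) : ∃ β : G → G, (∀ x y, SameV A t x y → β x = β y) ∧
    (∀ x, (β x)⁻¹ * x ∈ vset C A (t x)) := by
  let β : G → G := fun x =>
    match t x with
    | none => 1
    | some i => Quotient.out (QuotientGroup.mk x : G ⧸ A i)
  have hn : ∀ x, t x = none → β x = 1 := fun x hx => by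
    show (match t x with
    | none => 1
    | some i => Quotient.out (QuotientGroup.mk x : G ⧸ A i)) = 1
    rw [hx]
  have hs : ∀ x i, t x = some i → β x = Quotient.out (QuotientGroup.mk x : G ⧸ A i) :=
    fun x i hx => by
    show (match t x with
    | none => 1
    | some i => Quotient.out (QuotientGroup.mk x : G ⧸ A i)) = _
    rw [hx]
  refine ⟨β, ?_, ?_⟩
  · rintro x y (⟨h1, h2⟩ | ⟨i, h1, h2, h3⟩)
    · rw [hn x h1, hn y h2]
    · rw [hs x i h1, hs y i h2]
      have h4 : (QuotientGroup.mk x : G ⧸ A i) = QuotientGroup.mk y := QuotientGroup.eq.2 h3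
      rw [h4]
  · intro x
    rcases h : t x with _ | i
    · rw [hn x h, inv_one, one_mul]
      exact hT.tnone x h
    · rw [hs x i h]
      obtain ⟨a, ha⟩ := QuotientGroup.mk_out_eq_mul (A i) x
      have ha' : Quotient.out (QuotientGroup.mk x : G ⧸ A i) = x * a := ha
      rw [ha', mul_inv_rev, inv_mul_cancel_right]
      exact (A i).inv_mem a.2

theorem SameV_t {x y : G} (h : SameV A t x y) : t x = t y := by
  rcases h with ⟨h1, h2⟩ | ⟨i, h1, h2, -⟩
  · rw [h1, h2]
  · rw [h1, h2]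

/-- going up the tree for `k` steps -/
theorem go_upU (hT : TStr C A t ℓ) (hU : UAPC (vset C A))
    (F : ℕ → Finset G) (e : ℕ) (k : ℕ) : ∃ (n : ℕ) (ρ : Finset G) (S : Set G), e ≤ n ∧
      Dec F e n Sᶜ ∧ ∀ x ∈ S, ∃ p : ℕ → G, p 0 = x ∧ (∀ j < k, p (j + 1) ∈ Ent A t (p j)) ∧
        ∀ j ≤ k, x⁻¹ * p j ∈ ρ := by
  obtain ⟨β, hβ1, hβ2⟩ := vertex_baseU hT
  induction k with
  | zero =>
    refine ⟨e, {1}, Set.univ, le_rfl, ?_, ?_⟩
    · rw [Set.compl_univ]
      exact ⟨fun _ => 0, fun _ => 1, ∅, fun _ hx => absurd hx (by simp),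
        fun _ hx => absurd hx (by simp), fun _ hx => absurd hx (by simp)⟩
    · intro x _
      refine ⟨fun _ => x, rfl, fun j hj => absurd hj (by omega), fun j _ => ?_⟩
      rw [inv_mul_cancel]
      exact Finset.mem_singleton_self _
  | succ k ih =>
    obtain ⟨n, ρ, S, hen, hdec, hp⟩ := ih
    choose! p hp0 hp1 hp2 using hp
    obtain ⟨m, D, hm⟩ := hU (fun j => ρ⁻¹ * F (n + j) * ρ)
    choose c κ h1 h2 h3 using hm
    choose w M hw1 hw2 hw3 using window hT
    let r : Finset G := (Finset.range m).biUnion (fun j => w (ρ⁻¹ * F (n + j) * ρ))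
    have hr : ∀ j < m, w (ρ⁻¹ * F (n + j) * ρ) ⊆ r := fun j hj =>
      Finset.subset_biUnion_of_mem (fun j => w (ρ⁻¹ * F (n + j) * ρ)) (Finset.mem_range.2 hj)
    let S' : Set G := {x | x ∈ S ∧ ∃ e ∈ Ent A t (p x k), (p x k)⁻¹ * e ∈ r}
    have hS' : Dec F n (n + m) (S \ S') := by
      refine ⟨fun x => n + c (t (p x k)) ((β (p x k))⁻¹ * p x k),
        fun x => β (p x k) * κ (t (p x k)) ((β (p x k))⁻¹ * p x k), D * ρ⁻¹, ?_, ?_, ?_⟩
      · intro x hx
        have := h1 _ _ (hβ2 (p x k))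
        show n ≤ n + c (t (p x k)) ((β (p x k))⁻¹ * p x k) ∧ n + c (t (p x k)) ((β (p x k))⁻¹ * p x k) < n + m
        omega
      · rintro x ⟨hx, hx'⟩ y ⟨hy, hy'⟩ hc hs
        replace hc : c (t (p x k)) ((β (p x k))⁻¹ * p x k) = c (t (p y k)) ((β (p y k))⁻¹ * p y k) :=
          Nat.add_left_cancel hc
        have h4 : (p x k)⁻¹ * p y k ∈
            ρ⁻¹ * F (n + c (t (p x k)) ((β (p x k))⁻¹ * p x k)) * ρ := by
          have h5 : (p x k)⁻¹ * p y k = (x⁻¹ * p x k)⁻¹ * (x⁻¹ * y) * (y⁻¹ * p y k) := by group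
          rw [h5]
          exact Finset.mul_mem_mul (Finset.mul_mem_mul
            (Finset.inv_mem_inv (hp2 x hx k le_rfl)) hs) (hp2 y hy k le_rfl)
        have h5 := hr _ (h1 _ _ (hβ2 (p x k)))
        have h6 : SameV A t (p x k) (p y k) := by
          rcases hw1 _ _ _ h4 with h6 | ⟨e, he, h6⟩ | ⟨e, he, h6⟩
          · exact h6
          · exact absurd ⟨hx, e, he, h5 h6⟩ hx'
          · exact absurd ⟨hy, e, he, h5 h6⟩ hy'
        have h8 := SameV_t h6
        have h9 := hβ1 _ _ h6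
        show β (p x k) * κ (t (p x k)) ((β (p x k))⁻¹ * p x k) =
          β (p y k) * κ (t (p y k)) ((β (p y k))⁻¹ * p y k)
        have hy2 := hβ2 (p y k)
        rw [← h8] at hc hy2 ⊢
        rw [h2 _ _ (hβ2 (p x k)) _ hy2 hc ?_, h9]
        have h7 : ((β (p x k))⁻¹ * p x k)⁻¹ * ((β (p y k))⁻¹ * p y k) = (p x k)⁻¹ * p y k := by
          rw [h9]; group
        rw [h7]
        exact h4
      · rintro x ⟨hx, hx'⟩
        have h4 : (β (p x k) * κ (t (p x k)) ((β (p x k))⁻¹ * p x k))⁻¹ * x =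
          ((κ (t (p x k)) ((β (p x k))⁻¹ * p x k))⁻¹ * ((β (p x k))⁻¹ * p x k)) * (x⁻¹ * p x k)⁻¹ := by group
        show (β (p x k) * κ (t (p x k)) ((β (p x k))⁻¹ * p x k))⁻¹ * x ∈ D * ρ⁻¹
        rw [h4]
        exact Finset.mul_mem_mul (h3 _ _ (hβ2 (p x k))) (Finset.inv_mem_inv (hp2 x hx k le_rfl))
    refine ⟨n + m, ρ ∪ ρ * r, S', by omega, ?_, ?_⟩
    · refine (hdec.union hS' hen (Nat.le_add_right _ _)).mono ?_
      intro x hx
      by_cases hxS : x ∈ S
      · exact Or.inr ⟨hxS, hx⟩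
      · exact Or.inl hxS
    · rintro x ⟨hx, e', he', her⟩
      refine ⟨fun j => if j ≤ k then p x j else e', ?_, ?_, ?_⟩
      · show (if 0 ≤ k then p x 0 else e') = x
        rw [if_pos (Nat.zero_le _), hp0 x hx]
      · intro j hj
        show (if j + 1 ≤ k then p x (j + 1) else e') ∈ Ent A t (if j ≤ k then p x j else e')
        rw [if_pos (Nat.le_of_lt_succ hj)]
        rcases Nat.lt_or_ge j k with h4 | h4
        · rw [if_pos (by omega)]
          exact hp1 x hx j h4
        · have h5 : j = k := by omega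
          subst h5
          rw [if_neg (by omega)]
          exact he'
      · intro j hj
        show x⁻¹ * (if j ≤ k then p x j else e') ∈ ρ ∪ ρ * r
        by_cases h4 : j ≤ k
        · rw [if_pos h4]
          exact Finset.mem_union_left _ (hp2 x hx j h4)
        · rw [if_neg h4]
          refine Finset.mem_union_right _ ?_
          have h5 : x⁻¹ * e' = (x⁻¹ * p x k) * ((p x k)⁻¹ * e') := by group
          rw [h5]
          exact Finset.mul_mem_mul (hp2 x hx k le_rfl) her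

/-- **The tree theorem**, for vertex groups with uniform asymptotic property C. -/
theorem APC_treeU (hT : TStr C A t ℓ) (hU : UAPC (vset C A))
    (N : Set G) (k e : ℕ) (hE : EdgeDim C A t N k e) : APCon N := by
  refine APCon_of_Dec (fun F => ?_)
  let Ψ : Finset G := (Finset.range (2 * e)).biUnion F
  have hΨ : ∀ j < 2 * e, F j ⊆ Ψ := fun j hj =>
    Finset.subset_biUnion_of_mem F (Finset.mem_range.2 hj)
  obtain ⟨-, M₀, -, hM1, hM2⟩ := window hT Ψ
  let M : ℕ := M₀ + 1
  obtain ⟨n, ρ, S, hen, hdec, hp⟩ := go_upU hT hU F (2 * e) (2 * M + k)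
  choose! p hp0 hp1 hp2 using hp
  refine ⟨n, ?_⟩
  have hpath : ∀ x ∈ S, ∀ j ≤ 2 * M + k,
      Relation.ReflTransGen (fun x e => e ∈ Ent A t x) x (p x j) ∧ ℓ (p x j) + j = ℓ x := by
    intro x hx j hj
    have := path_anc hT (hp1 x hx) j hj
    rwa [hp0 x hx] at this
  -- the label of a point
  let a : G → ℕ := fun x => ℓ x / M
  let m : G → ℕ := fun x => ℓ x % M + M
  let z : G → G := fun x => p x (m x)
  let z' : G → G := fun x => p x (m x + k)
  have hMpos : 0 < M := Nat.succ_pos _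
  have hm1 : ∀ x, m x < 2 * M := by
    intro x
    have := Nat.mod_lt (ℓ x) hMpos
    show ℓ x % M + M < 2 * M
    omega
  have hm2 : ∀ x, M ≤ m x := fun x => Nat.le_add_left _ _
  have hz : ∀ x ∈ S, Relation.ReflTransGen (fun x e => e ∈ Ent A t x) x (z x) ∧
      ℓ (z x) + m x = ℓ x := fun x hx => hpath x hx (m x) (by have := hm1 x; omega)
  have hz' : ∀ x ∈ S, Relation.ReflTransGen (fun x e => e ∈ Ent A t x) x (z' x) ∧
      ℓ (z' x) + (m x + k) = ℓ x := fun x hx => hpath x hx (m x + k) (by have := hm1 x; omega)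
  have hℓ : ∀ x, ℓ x + M = a x * M + m x := by
    intro x
    have := Nat.div_add_mod (ℓ x) M
    show ℓ x + M = ℓ x / M * M + (ℓ x % M + M)
    rw [mul_comm] at this
    omega
  let lab : G → ℕ × (G ⧸ C) × (G ⧸ C) := fun x =>
    (a x, QuotientGroup.mk (z x), QuotientGroup.mk (z' x))
  obtain ⟨D, hD⟩ := hE ρ Ψ
  have hD' := fun q : ℕ × (G ⧸ C) × (G ⧸ C) => hD {x | (x ∈ S ∧ x ∈ N) ∧ lab x = q} z z'
    (fun x hx => hx.1.2)
    (fun x hx => ⟨hp2 x hx.1.1 _ (by have := hm1 x; omega), hp2 x hx.1.1 _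
      (by have := hm1 x; omega)⟩)
    (fun x hx y hy => by
      have h1 : lab x = lab y := hx.2.trans hy.2.symm
      exact ⟨QuotientGroup.eq.1 (congrArg (fun q => q.2.1) h1),
        QuotientGroup.eq.1 (congrArg (fun q => q.2.2) h1)⟩)
    (fun x hx => ⟨fun j => p x (m x + j), rfl, rfl, fun j hj =>
      hp1 x hx.1.1 (m x + j) (by have := hm1 x; omega)⟩)
  choose c κ h1 h2 h3 using hD'
  have hS : Dec F 0 (2 * e) (S ∩ N) := by
    refine ⟨fun x => (a x % 2) * e + c (lab x) x, fun x => κ (lab x) x, D, ?_, ?_, ?_⟩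
    · intro x hx
      have h4 := h1 (lab x) x ⟨hx, rfl⟩
      refine ⟨Nat.zero_le _, ?_⟩
      show (a x % 2) * e + c (lab x) x < 2 * e
      rcases Nat.mod_two_eq_zero_or_one (a x) with h5 | h5 <;> rw [h5] <;> omega
    · intro x hx y hy hc hs
      replace hc : (a x % 2) * e + c (lab x) x = (a y % 2) * e + c (lab y) y := hc
      replace hs : x⁻¹ * y ∈ F ((a x % 2) * e + c (lab x) x) := hs
      have hcx := h1 (lab x) x ⟨hx, rfl⟩
      have hcy := h1 (lab y) y ⟨hy, rfl⟩
      have hlt : (a x % 2) * e + c (lab x) x < 2 * e := by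
        rcases Nat.mod_two_eq_zero_or_one (a x) with h5 | h5 <;> rw [h5] <;> omega
      have hs' : x⁻¹ * y ∈ Ψ := hΨ _ hlt hs
      have hpar : a x % 2 = a y % 2 ∧ c (lab x) x = c (lab y) y := by
        rcases Nat.mod_two_eq_zero_or_one (a x) with h5 | h5 <;>
        rcases Nat.mod_two_eq_zero_or_one (a y) with h6 | h6 <;>
        rw [h5, h6] at hc ⊢ <;> omega
      have hxy := hM1 x y hs'
      have haa : a x = a y := by
        have h5 : ℓ x < ℓ y + M := by show ℓ x < ℓ y + (M₀ + 1); omega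
        have h6 : ℓ y < ℓ x + M := by show ℓ y < ℓ x + (M₀ + 1); omega
        have h7 : a x ≤ a y + 1 := by
          have h8 : ℓ x / M ≤ (ℓ y + M) / M := Nat.div_le_div_right h5.le
          rwa [Nat.add_div_right _ hMpos] at h8
        have h8 : a y ≤ a x + 1 := by
          have h8 : ℓ y / M ≤ (ℓ x + M) / M := Nat.div_le_div_right h6.le
          rwa [Nat.add_div_right _ hMpos] at h8
        omega
      obtain ⟨hzx1, hzx2⟩ := hz x hx.1
      obtain ⟨hzy1, hzy2⟩ := hz y hy.1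
      obtain ⟨hzx1', hzx2'⟩ := hz' x hx.1
      obtain ⟨hzy1', hzy2'⟩ := hz' y hy.1
      have hℓx := hℓ x
      have hℓy := hℓ y
      rw [← haa] at hℓy
      have hmx := hm2 x
      have hMM : M₀ + 1 = M := rfl
      have h5 := hM2 x y (z x) hs' hzx1 (by omega)
      have h6 := anc_unique hT (ℓ y) y _ _ rfl h5 hzy1 (by omega)
      have h7 := hM2 x y (z' x) hs' hzx1' (by omega)
      have h8 := anc_unique hT (ℓ y) y _ _ rfl h7 hzy1' (by omega)
      have h9 : lab x = lab y := by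
        show (a x, (QuotientGroup.mk (z x) : G ⧸ C), (QuotientGroup.mk (z' x) : G ⧸ C)) =
          (a y, QuotientGroup.mk (z y), QuotientGroup.mk (z' y))
        rw [haa, QuotientGroup.eq.2 h6, QuotientGroup.eq.2 h8]
      show κ (lab x) x = κ (lab y) y
      have hc' := hpar.2
      rw [← h9] at hc' ⊢
      exact h2 (lab x) x ⟨hx, rfl⟩ y ⟨hy, h9.symm⟩ hc' hs'
    · intro x hx
      exact h3 (lab x) x ⟨hx, rfl⟩
  refine (hS.union hdec (Nat.zero_le _) hen).mono ?_
  intro x hx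
  by_cases hxS : x ∈ S
  · exact Or.inl ⟨hxS, hx⟩
  · exact Or.inr hxS

end

end Pool.Agent.TH18.APC
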