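import Pool.Agent.TH18.APC.TreePush
import Pool.Agent.TH18.APC.Series

/-! Amalgamated free products over a subgroup of finite asymptotic dimension. -/

set_option autoImplicit false

namespace Pool.Agent.TH18.APC

open Classical Pointwise Monoid

section
variable {G ι : Type} [Group G] {C : Subgroup G} {A : ι → Subgroup G} {t : G → Option ι}
  {ℓ : G → ℕ}

theorem TStr.quot (hT : TStr C A t ℓ) (M₀ : Subgroup G) [M₀.Normal] (hM : M₀ ≤ C) :
    TStr (C.map (QuotientGroup.mk' M₀)) (fun i => (A i).map (QuotientGroup.mk' M₀))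
      (fun q : G ⧸ M₀ => t (Quotient.out q)) (fun q => ℓ (Quotient.out q)) := by
  have hout : ∀ x : G, ∃ m ∈ M₀, Quotient.out (QuotientGroup.mk x : G ⧸ M₀) = x * m := by
    intro x
    obtain ⟨m, hm⟩ := QuotientGroup.mk_out_eq_mul M₀ x
    exact ⟨m, m.2, hm⟩
  have ht : ∀ x : G, t (Quotient.out (QuotientGroup.mk x : G ⧸ M₀)) = t x := by
    intro x
    obtain ⟨m, hm, h⟩ := hout x
    rw [h, hT.tC x m (hM hm)]
  have hl : ∀ x : G, ℓ (Quotient.out (QuotientGroup.mk x : G ⧸ M₀)) = ℓ x := by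
    intro x
    obtain ⟨m, hm, h⟩ := hout x
    rw [h, hT.lC x m (hM hm)]
  constructor
  · intro i
    exact Subgroup.map_mono (hT.sub i)
  · intro q hq
    obtain ⟨x, rfl⟩ := QuotientGroup.mk_surjective q
    exact ⟨x, hT.tnone x ((ht x).symm.trans hq), rfl⟩
  · intro q c hc
    obtain ⟨x, rfl⟩ := QuotientGroup.mk_surjective q
    obtain ⟨c', hc', rfl⟩ := hc
    show t (Quotient.out (QuotientGroup.mk (x * c') : G ⧸ M₀)) =
      t (Quotient.out (QuotientGroup.mk x : G ⧸ M₀))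
    rw [ht, ht]
    exact hT.tC x c' hc'
  · intro q c hc
    obtain ⟨x, rfl⟩ := QuotientGroup.mk_surjective q
    obtain ⟨c', hc', rfl⟩ := hc
    show ℓ (Quotient.out (QuotientGroup.mk (x * c') : G ⧸ M₀)) =
      ℓ (Quotient.out (QuotientGroup.mk x : G ⧸ M₀))
    rw [hl, hl]
    exact hT.lC x c' hc'
  · intro i q hq a ha hac
    obtain ⟨x, rfl⟩ := QuotientGroup.mk_surjective q
    obtain ⟨a', ha', rfl⟩ := ha
    have h1 : a' ∉ C := fun h => hac ⟨a', h, rfl⟩
    replace hq : t (Quotient.out (QuotientGroup.mk x : G ⧸ M₀)) ≠ some i := hq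
    rw [ht] at hq
    show t (Quotient.out (QuotientGroup.mk (x * a') : G ⧸ M₀)) = some i ∧
      ℓ (Quotient.out (QuotientGroup.mk (x * a') : G ⧸ M₀)) =
        ℓ (Quotient.out (QuotientGroup.mk x : G ⧸ M₀)) + 1
    rw [ht, hl, hl]
    exact hT.down i x hq a' ha' h1
  · intro i q hq
    obtain ⟨x, rfl⟩ := QuotientGroup.mk_surjective q
    obtain ⟨a, ha, h⟩ := hT.ent i x ((ht x).symm.trans hq)
    refine ⟨QuotientGroup.mk' M₀ a, ⟨a, ha, rfl⟩, ?_⟩
    show t (Quotient.out (QuotientGroup.mk (x * a) : G ⧸ M₀)) ≠ some i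
    rwa [ht]
  · rw [eq_top_iff]
    intro q _
    obtain ⟨x, rfl⟩ := QuotientGroup.mk_surjective q
    have hx : x ∈ Subgroup.closure (⋃ i, (A i : Set G)) := by rw [hT.gen]; trivial
    induction hx using Subgroup.closure_induction with
    | mem x hx =>
      obtain ⟨i, hi⟩ := Set.mem_iUnion.1 hx
      exact Subgroup.subset_closure (Set.mem_iUnion.2 ⟨i, x, hi, rfl⟩)
    | one => exact Subgroup.one_mem _
    | mul x y _ _ hx hy => exact Subgroup.mul_mem _ (hx trivial) (hy trivial)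
    | inv x _ hx => exact Subgroup.inv_mem _ (hx trivial)

theorem Alt.lift {M₀ : Subgroup G} [M₀.Normal] {k : ℕ} {q : G ⧸ M₀}
    (h : Alt (C.map (QuotientGroup.mk' M₀)) (fun i => (A i).map (QuotientGroup.mk' M₀)) k q) :
    ∃ g, Alt C A k g ∧ QuotientGroup.mk' M₀ g = q := by
  obtain ⟨i, a, h1, h2, h3⟩ := h
  have h4 : ∀ j, ∃ b, j < k → b ∈ A (i j) ∧ QuotientGroup.mk' M₀ b = a j := by
    intro j
    by_cases hj : j < k
    · obtain ⟨b, hb, hb'⟩ := (h1 j hj).1
      exact ⟨b, fun _ => ⟨hb, hb'⟩⟩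
    · exact ⟨1, fun h => absurd h hj⟩
  choose b hb using h4
  refine ⟨_, ⟨i, b, fun j hj => ⟨(hb j hj).1, fun hc => (h1 j hj).2 ⟨b j, hc, (hb j hj).2⟩⟩,
    h2, rfl⟩, ?_⟩
  rw [h3, map_list_prod, List.map_map]
  congr 1
  refine List.map_congr_left ?_
  intro j hj
  exact (hb j (List.mem_range.1 hj)).2

theorem FinDec.mono {S S' : Set G} {e : ℕ} (h : FinDec S e) (hS : S' ⊆ S) : FinDec S' e := by
  intro s
  obtain ⟨c, κ, D, h1, h2, h3⟩ := h s
  exact ⟨c, κ, D, fun x hx => h1 x (hS hx), fun x hx y hy => h2 x (hS hx) y (hS hy),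
    fun x hx => h3 x (hS hx)⟩

theorem FinDec.image {X : Type} [Group X] (θ : X →* G) (hθ : Function.Injective θ) {S : Set X}
    {e : ℕ} (h : FinDec S e) : FinDec (θ '' S) e := by
  intro s
  obtain ⟨c, κ, D, h1, h2, h3⟩ := h (s.preimage θ hθ.injOn)
  have hinv : ∀ x : X, Function.invFun θ (θ x) = x := Function.leftInverse_invFun hθ
  refine ⟨fun x => c (Function.invFun θ x), fun x => θ (κ (Function.invFun θ x)),
    D.image θ, ?_, ?_, ?_⟩
  · rintro _ ⟨x, hx, rfl⟩
    show c (Function.invFun θ (θ x)) < e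
    rw [hinv]
    exact h1 x hx
  · rintro _ ⟨x, hx, rfl⟩ _ ⟨y, hy, rfl⟩ hc hs
    show θ (κ (Function.invFun θ (θ x))) = θ (κ (Function.invFun θ (θ y)))
    have hc' : c (Function.invFun θ (θ x)) = c (Function.invFun θ (θ y)) := hc
    rw [hinv, hinv] at hc'
    rw [hinv, hinv]
    refine congrArg θ (h2 x hx y hy hc' ?_)
    rw [Finset.mem_preimage, map_mul, map_inv]
    exact hs
  · rintro _ ⟨x, hx, rfl⟩
    show (θ (κ (Function.invFun θ (θ x))))⁻¹ * θ x ∈ _
    rw [hinv, ← map_inv, ← map_mul]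
    exact Finset.mem_image_of_mem _ (h3 x hx)

theorem APCon_iUnion [Finite ι] (S : ι → Set G) (h : ∀ i, APCon (S i)) : APCon (⋃ i, S i) := by
  obtain ⟨inst⟩ := nonempty_fintype ι
  have key : ∀ T : Finset ι, APCon (⋃ i ∈ T, S i) := by
    intro T
    induction T using Finset.induction_on with
    | empty =>
      refine APCon_mono ?_ APCon_empty
      simp
    | insert a T _ ih =>
      refine APCon_mono ?_ (APCon_union (h a) ih)
      intro x hx
      rw [Set.mem_iUnion₂] at hx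
      obtain ⟨i, hi, hx⟩ := hx
      rcases Finset.mem_insert.1 hi with rfl | hi
      · exact Or.inl hx
      · exact Or.inr (Set.mem_iUnion₂.2 ⟨i, hi, hx⟩)
  refine APCon_mono ?_ (key Finset.univ)
  intro x hx
  obtain ⟨i, hi⟩ := Set.mem_iUnion.1 hx
  exact Set.mem_iUnion₂.2 ⟨i, Finset.mem_univ _, hi⟩

end

section
variable {ι : Type} {G : ι → Type} [∀ i, Group (G i)] {C : Type} [Group C]
  {φ : ∀ i, C →* G i}

theorem push_alt {k : ℕ} {g : PushoutI φ}
    (h : Alt (PushoutI.base φ).range (fun i => (PushoutI.of (φ := φ) i).range) k g) :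
    ∃ (i : ℕ → ι) (a : ∀ j, G (i j)), (∀ j < k, a j ∉ Set.range (φ (i j))) ∧
      (∀ j, j + 1 < k → i j ≠ i (j + 1)) ∧
      g = ((List.range k).map (fun j => PushoutI.of (φ := φ) (i j) (a j))).prod := by
  obtain ⟨i, a, h1, h2, h3⟩ := h
  have h4 : ∀ j, ∃ b : G (i j), j < k → PushoutI.of (φ := φ) (i j) b = a j := by
    intro j
    by_cases hj : j < k
    · obtain ⟨b, hb⟩ := (h1 j hj).1
      exact ⟨b, fun _ => hb⟩
    · exact ⟨1, fun h => absurd h hj⟩
  choose b hb using h4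
  refine ⟨i, b, fun j hj => ?_, h2, ?_⟩
  · rintro ⟨c, hc⟩
    exact (h1 j hj).2 ⟨c, by rw [← hb j hj, ← hc, PushoutI.of_apply_eq_base]⟩
  · rw [h3]
    congr 1
    refine List.map_congr_left ?_
    intro j hj
    exact (hb j (List.mem_range.1 hj)).symm

/-- **Amalgamated free products over a group of finite asymptotic dimension.** -/
theorem APC_push [Finite ι] [Nonempty ι] (hφ : ∀ i, Function.Injective (φ i))
    (C₀ : Subgroup C) [hC₀ : C₀.Normal] [hC₀i : ∀ i, (C₀.map (φ i)).Normal] {L : Type} [Group L]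
    (R : PushoutI φ →* L) (hG : ∀ i, APCon (Set.univ : Set (G i)))
    (hG0 : ∀ i, APCon (Set.univ : Set (G i ⧸ C₀.map (φ i)))) (hL : APCon (Set.univ : Set L))
    (k e : ℕ)
    (hC : ∀ (i : ℕ → ι) (a : ∀ j, G (i j)), (∀ j < k, a j ∉ Set.range (φ (i j))) →
      (∀ j, j + 1 < k → i j ≠ i (j + 1)) →
      FinDec ((QuotientGroup.mk' C₀) '' {c | R (PushoutI.base φ c) = 1 ∧ ∃ c',
        PushoutI.base φ c * ((List.range k).map (fun j => PushoutI.of (φ := φ) (i j) (a j))).prod =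
        ((List.range k).map (fun j => PushoutI.of (φ := φ) (i j) (a j))).prod *
          PushoutI.base φ c'}) e) :
    APCon (Set.univ : Set (PushoutI φ)) := by
  obtain ⟨d⟩ := PushoutI.NormalWord.transversal_nonempty φ hφ
  obtain ⟨t, ℓ, hT⟩ : ∃ t ℓ, TStr (PushoutI.base φ).range
      (fun i => (PushoutI.of (φ := φ) i).range) t ℓ := ⟨_, _, push_tree d⟩
  have hbinj := PushoutI.base_injective hφ
  set M₀ : Subgroup (PushoutI φ) := C₀.map (PushoutI.base φ) with hM₀
  have hof : ∀ i (g : G i), ∀ n ∈ M₀, PushoutI.of i g * n * (PushoutI.of i g)⁻¹ ∈ M₀ := by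
    rintro i g _ ⟨c, hc, rfl⟩
    obtain ⟨c', hc', h1⟩ := (hC₀i i).conj_mem (φ i c) ⟨c, hc, rfl⟩ g
    refine ⟨c', hc', ?_⟩
    rw [← PushoutI.of_apply_eq_base φ i, ← PushoutI.of_apply_eq_base φ i, h1, map_mul, map_mul,
      map_inv]
  have hnorm : M₀.Normal := by
    refine ⟨fun n hn g => ?_⟩
    induction g using PushoutI.induction_on generalizing n with
    | of i g => exact hof i g n hn
    | base c =>
      obtain ⟨i⟩ := ‹Nonempty ι›
      rw [← PushoutI.of_apply_eq_base φ i]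
      exact hof i _ n hn
    | mul x y hx hy =>
      have h1 : x * y * n * (x * y)⁻¹ = x * (y * n * y⁻¹) * x⁻¹ := by group
      rw [h1]
      exact hx _ (hy _ hn)
  have hMC : M₀ ≤ (PushoutI.base φ).range := by
    rintro _ ⟨c, -, rfl⟩
    exact ⟨c, rfl⟩
  obtain ⟨t', ℓ', hT'⟩ : ∃ t' ℓ', TStr ((PushoutI.base φ).range.map (QuotientGroup.mk' M₀))
      (fun i => (PushoutI.of (φ := φ) i).range.map (QuotientGroup.mk' M₀)) t' ℓ' :=
    ⟨_, _, hT.quot M₀ hMC⟩
  have hnormN : (R.ker.map (QuotientGroup.mk' M₀)).Normal :=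
    Subgroup.Normal.map inferInstance _ (QuotientGroup.mk'_surjective M₀)
  -- the vertex groups of the quotient
  have hA : ∀ i, APCon (((PushoutI.of (φ := φ) i).range.map (QuotientGroup.mk' M₀) :
      Subgroup (PushoutI φ ⧸ M₀)) : Set (PushoutI φ ⧸ M₀)) := by
    intro i
    have h1 : C₀.map (φ i) ≤ M₀.comap (PushoutI.of i) := by
      rintro _ ⟨c, hc, rfl⟩
      exact ⟨c, hc, (PushoutI.of_apply_eq_base φ i c).symm⟩
    let θ : G i ⧸ C₀.map (φ i) →* PushoutI φ ⧸ M₀ := QuotientGroup.map _ M₀ (PushoutI.of i) h1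
    have hθ : ∀ g : G i, θ (QuotientGroup.mk g) = QuotientGroup.mk (PushoutI.of i g) :=
      fun g => rfl
    have h2 : Function.Injective θ := by
      rw [injective_iff_map_eq_one]
      intro q hq
      obtain ⟨g, rfl⟩ := QuotientGroup.mk_surjective q
      rw [hθ, QuotientGroup.eq_one_iff] at hq
      rw [QuotientGroup.eq_one_iff]
      obtain ⟨c, hc, h3⟩ := hq
      refine ⟨c, hc, ?_⟩
      rw [← PushoutI.of_apply_eq_base φ i] at h3
      exact PushoutI.of_injective hφ i h3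
    refine APCon_mono ?_ (APCon_range θ h2 (hG0 i))
    rintro _ ⟨_, ⟨g, rfl⟩, rfl⟩
    exact ⟨QuotientGroup.mk g, rfl⟩
  have hU : APCon ((((PushoutI.base φ).range.map (QuotientGroup.mk' M₀) :
      Subgroup (PushoutI φ ⧸ M₀)) : Set (PushoutI φ ⧸ M₀)) ∪
      ⋃ i, (((PushoutI.of (φ := φ) i).range.map (QuotientGroup.mk' M₀) :
      Subgroup (PushoutI φ ⧸ M₀)) : Set (PushoutI φ ⧸ M₀))) := by
    refine APCon_union ?_ (APCon_iUnion _ hA)
    obtain ⟨i⟩ := ‹Nonempty ι›
    exact APCon_mono (hT'.sub i) (hA i)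
  -- the edge groups
  have hE : EdgeDim ((PushoutI.base φ).range.map (QuotientGroup.mk' M₀))
      (fun i => (PushoutI.of (φ := φ) i).range.map (QuotientGroup.mk' M₀)) t'
      ((R.ker.map (QuotientGroup.mk' M₀) : Subgroup (PushoutI φ ⧸ M₀)) : Set (PushoutI φ ⧸ M₀))
      k e := by
    refine edgeDim_of hT' _ k e ?_
    intro q hq
    obtain ⟨g, hg, rfl⟩ := hq.lift
    obtain ⟨i, a, h1, h2, h3⟩ := push_alt hg
    have h4 : C₀ ≤ M₀.comap (PushoutI.base φ) := fun c hc => ⟨c, hc, rfl⟩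
    let θ : C ⧸ C₀ →* PushoutI φ ⧸ M₀ := QuotientGroup.map _ M₀ (PushoutI.base φ) h4
    have hθ : ∀ c : C, θ (QuotientGroup.mk c) = QuotientGroup.mk (PushoutI.base φ c) :=
      fun c => rfl
    have h5 : Function.Injective θ := by
      rw [injective_iff_map_eq_one]
      intro q hq
      obtain ⟨c, rfl⟩ := QuotientGroup.mk_surjective q
      rw [hθ, QuotientGroup.eq_one_iff] at hq
      rw [QuotientGroup.eq_one_iff]
      obtain ⟨c', hc', h6⟩ := hq
      rw [← hbinj h6]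
      exact hc'
    refine ((hC i a h1 h2).image θ h5).mono ?_
    rintro x ⟨⟨_, ⟨c₁, rfl⟩, h6⟩, ⟨_, ⟨c₂, rfl⟩, h7⟩, ⟨n, hn, rfl⟩⟩
    have h8 : n ∈ (PushoutI.base φ).range := by
      have h9 : (PushoutI.base φ c₁)⁻¹ * n ∈ M₀ := QuotientGroup.eq.1 h6
      have h10 := (PushoutI.base φ).range.mul_mem ⟨c₁, rfl⟩ (hMC h9)
      rwa [mul_inv_cancel_left] at h10
    obtain ⟨c, rfl⟩ := h8
    have h9 : g⁻¹ * PushoutI.base φ c * g ∈ (PushoutI.base φ).range := by
      have h9 : (PushoutI.base φ c₂)⁻¹ * (g⁻¹ * PushoutI.base φ c * g) ∈ M₀ :=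
        QuotientGroup.eq.1 h7
      have h10 := (PushoutI.base φ).range.mul_mem ⟨c₂, rfl⟩ (hMC h9)
      rwa [mul_inv_cancel_left] at h10
    obtain ⟨c', hc'⟩ := h9
    refine ⟨QuotientGroup.mk' C₀ c, ⟨c, ⟨hn, c', ?_⟩, rfl⟩, rfl⟩
    rw [← h3, hc']
    group
  have hN1 := APC_tree hT' hU _ k e hE
  have hCapc : APCon (Set.univ : Set C) := by
    obtain ⟨i⟩ := ‹Nonempty ι›
    exact APCon_comap (φ i) (hφ i) (fun _ _ => Set.mem_univ _) (hG i)
  have hM1 : APCon (M₀ : Set (PushoutI φ)) :=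
    APCon_mono hMC (APCon_range (PushoutI.base φ) hbinj hCapc)
  have hN2 : APCon (Set.univ : Set R.ker) := by
    refine APC_ext ((QuotientGroup.mk' M₀).subgroupMap R.ker)
      (APCon_comap (R.ker.map (QuotientGroup.mk' M₀)).subtype Subtype.val_injective
        (fun x _ => x.2) hN1) ?_
    refine APCon_comap R.ker.subtype Subtype.val_injective (fun x hx => ?_) hM1
    have h1 : (QuotientGroup.mk' M₀).subgroupMap R.ker x = 1 := hx
    have h2 : QuotientGroup.mk' M₀ (x : PushoutI φ) = 1 := congrArg Subtype.val h1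
    exact (QuotientGroup.eq_one_iff _).1 h2
  refine APC_ext R hL ?_
  have h2 := APCon_range R.ker.subtype Subtype.val_injective hN2
  have h3 : Set.range R.ker.subtype = (R.ker : Set (PushoutI φ)) := by
    rw [Subgroup.coe_subtype]
    exact Subtype.range_coe
  rw [h3] at h2
  exact h2

end

end Pool.Agent.TH18.APC
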