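import Pool.Agent.TH18.APC.TreeDecU

/-! Amalgamated free products of arbitrarily many groups. -/

set_option autoImplicit false

namespace Pool.Agent.TH18.APC

open Classical Pointwise Monoid

section
variable {ι : Type} {G : ι → Type} [∀ i, Group (G i)] {C : Type} [Group C]
  {φ : ∀ i, C →* G i}

/-- **Amalgamated free products over a group of finite asymptotic dimension.** -/
theorem APC_pushU [Nonempty ι] (hφ : ∀ i, Function.Injective (φ i))
    (C₀ : Subgroup C) [hC₀ : C₀.Normal] [hC₀i : ∀ i, (C₀.map (φ i)).Normal] {L : Type} [Group L]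
    (R : PushoutI φ →* L) (hG : ∀ i, APCon (Set.univ : Set (G i)))
    (hG0 : ∀ i, APCon (Set.univ : Set (G i ⧸ C₀.map (φ i)))) (hL : APCon (Set.univ : Set L))
    (k e : ℕ)
    (hC : ∀ (i : ℕ → ι) (a : ∀ j, G (i j)), (∀ j < k, a j ∉ Set.range (φ (i j))) →
      (∀ j, j + 1 < k → i j ≠ i (j + 1)) →
      FinDec ((QuotientGroup.mk' C₀) '' {c | R (PushoutI.base φ c) = 1 ∧ ∃ c',
        PushoutI.base φ c * ((List.range k).map (fun j => PushoutI.of (φ := φ) (i j) (a j))).prod =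
        ((List.range k).map (fun j => PushoutI.of (φ := φ) (i j) (a j))).prod *
          PushoutI.base φ c'}) e) :
    APCon (Set.univ : Set (PushoutI φ)) := by
  obtain ⟨d⟩ := PushoutI.NormalWord.transversal_nonempty φ hφ
  obtain ⟨t, ℓ, hT⟩ : ∃ t ℓ, TStr (PushoutI.base φ).range
      (fun i => (PushoutI.of (φ := φ) i).range) t ℓ := ⟨_, _, push_tree d⟩
  have hbinj := PushoutI.base_injective hφ
  set M₀ : Subgroup (PushoutI φ) := C₀.map (PushoutI.base φ) with hM₀
  have hof : ∀ i (g : G i), ∀ n ∈ M₀, PushoutI.of i g * n * (PushoutI.of i g)⁻¹ ∈ M₀ := by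
    rintro i g _ ⟨c, hc, rfl⟩
    obtain ⟨c', hc', h1⟩ := (hC₀i i).conj_mem (φ i c) ⟨c, hc, rfl⟩ g
    refine ⟨c', hc', ?_⟩
    rw [← PushoutI.of_apply_eq_base φ i, ← PushoutI.of_apply_eq_base φ i, h1, map_mul, map_mul,
      map_inv]
  have hnorm : M₀.Normal := by
    refine ⟨fun n hn g => ?_⟩
    induction g using PushoutI.induction_on generalizing n with
    | of i g => exact hof i g n hn
    | base c =>
      obtain ⟨i⟩ := ‹Nonempty ι›
      rw [← PushoutI.of_apply_eq_base φ i]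
      exact hof i _ n hn
    | mul x y hx hy =>
      have h1 : x * y * n * (x * y)⁻¹ = x * (y * n * y⁻¹) * x⁻¹ := by group
      rw [h1]
      exact hx _ (hy _ hn)
  have hMC : M₀ ≤ (PushoutI.base φ).range := by
    rintro _ ⟨c, -, rfl⟩
    exact ⟨c, rfl⟩
  obtain ⟨t', ℓ', hT'⟩ : ∃ t' ℓ', TStr ((PushoutI.base φ).range.map (QuotientGroup.mk' M₀))
      (fun i => (PushoutI.of (φ := φ) i).range.map (QuotientGroup.mk' M₀)) t' ℓ' :=
    ⟨_, _, hT.quot M₀ hMC⟩
  have hnormN : (R.ker.map (QuotientGroup.mk' M₀)).Normal :=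
    Subgroup.Normal.map inferInstance _ (QuotientGroup.mk'_surjective M₀)
  -- the vertex groups of the quotient
  have hA : ∀ i, APCon (((PushoutI.of (φ := φ) i).range.map (QuotientGroup.mk' M₀) :
      Subgroup (PushoutI φ ⧸ M₀)) : Set (PushoutI φ ⧸ M₀)) := by
    intro i
    have h1 : C₀.map (φ i) ≤ M₀.comap (PushoutI.of i) := by
      rintro _ ⟨c, hc, rfl⟩
      exact ⟨c, hc, (PushoutI.of_apply_eq_base φ i c).symm⟩
    let θ : G i ⧸ C₀.map (φ i) →* PushoutI φ ⧸ M₀ := QuotientGroup.map _ M₀ (PushoutI.of i) h1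
    have hθ : ∀ g : G i, θ (QuotientGroup.mk g) = QuotientGroup.mk (PushoutI.of i g) :=
      fun g => rfl
    have h2 : Function.Injective θ := by
      rw [injective_iff_map_eq_one]
      intro q hq
      obtain ⟨g, rfl⟩ := QuotientGroup.mk_surjective q
      rw [hθ, QuotientGroup.eq_one_iff] at hq
      rw [QuotientGroup.eq_one_iff]
      obtain ⟨c, hc, h3⟩ := hq
      refine ⟨c, hc, ?_⟩
      rw [← PushoutI.of_apply_eq_base φ i] at h3
      exact PushoutI.of_injective hφ i h3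
    refine APCon_mono ?_ (APCon_range θ h2 (hG0 i))
    rintro _ ⟨_, ⟨g, rfl⟩, rfl⟩
    exact ⟨QuotientGroup.mk g, rfl⟩
  have hcl : ∀ (K : Subgroup (PushoutI φ)), M₀ ≤ K → ∀ x : PushoutI φ,
      QuotientGroup.mk' M₀ x ∈ K.map (QuotientGroup.mk' M₀) → x ∈ K := by
    intro K hK x hx
    obtain ⟨y, hy, hxy⟩ := hx
    have h1 : y⁻¹ * x ∈ M₀ := QuotientGroup.eq.1 hxy
    have h2 := K.mul_mem hy (hK h1)
    rwa [mul_inv_cancel_left] at h2
  have hU : UAPC (vset ((PushoutI.base φ).range.map (QuotientGroup.mk' M₀))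
      (fun i => (PushoutI.of (φ := φ) i).range.map (QuotientGroup.mk' M₀))) := by
    refine UAPC_family _ _ ?_ ?_ hA
    · intro i j hij a hi hj
      obtain ⟨x, rfl⟩ := QuotientGroup.mk_surjective a
      have h1 := hcl _ (hMC.trans (hT.sub i)) x hi
      have h2 := hcl _ (hMC.trans (hT.sub j)) x hj
      refine ⟨x, ?_, rfl⟩
      rw [← PushoutI.inf_of_range_eq_base_range hφ hij]
      exact ⟨h1, h2⟩
    · obtain ⟨i⟩ := ‹Nonempty ι›
      exact APCon_mono (hT'.sub i) (hA i)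
  -- the edge groups
  have hE : EdgeDim ((PushoutI.base φ).range.map (QuotientGroup.mk' M₀))
      (fun i => (PushoutI.of (φ := φ) i).range.map (QuotientGroup.mk' M₀)) t'
      ((R.ker.map (QuotientGroup.mk' M₀) : Subgroup (PushoutI φ ⧸ M₀)) : Set (PushoutI φ ⧸ M₀))
      k e := by
    refine edgeDim_of hT' _ k e ?_
    intro q hq
    obtain ⟨g, hg, rfl⟩ := hq.lift
    obtain ⟨i, a, h1, h2, h3⟩ := push_alt hg
    have h4 : C₀ ≤ M₀.comap (PushoutI.base φ) := fun c hc => ⟨c, hc, rfl⟩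
    let θ : C ⧸ C₀ →* PushoutI φ ⧸ M₀ := QuotientGroup.map _ M₀ (PushoutI.base φ) h4
    have hθ : ∀ c : C, θ (QuotientGroup.mk c) = QuotientGroup.mk (PushoutI.base φ c) :=
      fun c => rfl
    have h5 : Function.Injective θ := by
      rw [injective_iff_map_eq_one]
      intro q hq
      obtain ⟨c, rfl⟩ := QuotientGroup.mk_surjective q
      rw [hθ, QuotientGroup.eq_one_iff] at hq
      rw [QuotientGroup.eq_one_iff]
      obtain ⟨c', hc', h6⟩ := hq
      rw [← hbinj h6]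
      exact hc'
    refine ((hC i a h1 h2).image θ h5).mono ?_
    rintro x ⟨⟨_, ⟨c₁, rfl⟩, h6⟩, ⟨_, ⟨c₂, rfl⟩, h7⟩, ⟨n, hn, rfl⟩⟩
    have h8 : n ∈ (PushoutI.base φ).range := by
      have h9 : (PushoutI.base φ c₁)⁻¹ * n ∈ M₀ := QuotientGroup.eq.1 h6
      have h10 := (PushoutI.base φ).range.mul_mem ⟨c₁, rfl⟩ (hMC h9)
      rwa [mul_inv_cancel_left] at h10
    obtain ⟨c, rfl⟩ := h8
    have h9 : g⁻¹ * PushoutI.base φ c * g ∈ (PushoutI.base φ).range := by
      have h9 : (PushoutI.base φ c₂)⁻¹ * (g⁻¹ * PushoutI.base φ c * g) ∈ M₀ :=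
        QuotientGroup.eq.1 h7
      have h10 := (PushoutI.base φ).range.mul_mem ⟨c₂, rfl⟩ (hMC h9)
      rwa [mul_inv_cancel_left] at h10
    obtain ⟨c', hc'⟩ := h9
    refine ⟨QuotientGroup.mk' C₀ c, ⟨c, ⟨hn, c', ?_⟩, rfl⟩, rfl⟩
    rw [← h3, hc']
    group
  have hN1 := APC_treeU hT' hU _ k e hE
  have hCapc : APCon (Set.univ : Set C) := by
    obtain ⟨i⟩ := ‹Nonempty ι›
    exact APCon_comap (φ i) (hφ i) (fun _ _ => Set.mem_univ _) (hG i)
  have hM1 : APCon (M₀ : Set (PushoutI φ)) :=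
    APCon_mono hMC (APCon_range (PushoutI.base φ) hbinj hCapc)
  have hN2 : APCon (Set.univ : Set R.ker) := by
    refine APC_ext ((QuotientGroup.mk' M₀).subgroupMap R.ker)
      (APCon_comap (R.ker.map (QuotientGroup.mk' M₀)).subtype Subtype.val_injective
        (fun x _ => x.2) hN1) ?_
    refine APCon_comap R.ker.subtype Subtype.val_injective (fun x hx => ?_) hM1
    have h1 : (QuotientGroup.mk' M₀).subgroupMap R.ker x = 1 := hx
    have h2 : QuotientGroup.mk' M₀ (x : PushoutI φ) = 1 := congrArg Subtype.val h1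
    exact (QuotientGroup.eq_one_iff _).1 h2
  refine APC_ext R hL ?_
  have h2 := APCon_range R.ker.subtype Subtype.val_injective hN2
  have h3 : Set.range R.ker.subtype = (R.ker : Set (PushoutI φ)) := by
    rw [Subgroup.coe_subtype]
    exact Subtype.range_coe
  rw [h3] at h2
  exact h2

end

end Pool.Agent.TH18.APC
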