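import Pool.Agent.TH18.APC.TreeFin

/-! Metric form of the finite dimensionality of subsets. -/

set_option autoImplicit false

namespace Pool.Agent.TH18.APC

open Classical Pointwise

section
variable {G : Type} [Group G]

theorem FinDec_of_metric (Y : Set G) (d : G → G → ℝ)
    (hinv : ∀ g x y, d (g * x) (g * y) = d x y) (hprop : ∀ r : ℝ, Set.Finite {x : G | d 1 x ≤ r})
    (e : ℕ) (h : ∀ r : ℝ, 0 < r → ∃ U : ℕ → Set (Set G),
      (∀ i < e, ∃ B : ℝ, ∀ V ∈ U i, ∀ x ∈ V, ∀ y ∈ V, d x y ≤ B) ∧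
      (∀ i < e, ∀ V ∈ U i, ∀ W ∈ U i, V ≠ W → ∀ x ∈ V, ∀ y ∈ W, r < d x y) ∧
      (∀ x ∈ Y, ∃ i < e, ∃ V ∈ U i, x ∈ V)) : FinDec Y e := by
  intro s
  obtain ⟨U, h1, h2, h3⟩ := h (1 + ∑ g ∈ s, |d 1 g|) (by
    have : 0 ≤ ∑ g ∈ s, |d 1 g| := Finset.sum_nonneg (fun _ _ => abs_nonneg _)
    linarith)
  have h4 : ∀ x : G, ∃ p : ℕ × Set G, x ∈ Y → p.1 < e ∧ p.2 ∈ U p.1 ∧ x ∈ p.2 := by
    intro x
    by_cases hx : x ∈ Y
    · obtain ⟨i, hi, V, hV, hxV⟩ := h3 x hx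
      exact ⟨(i, V), fun _ => ⟨hi, hV, hxV⟩⟩
    · exact ⟨(0, ∅), fun h => absurd h hx⟩
  choose p hp using h4
  have h5 : ∀ i, ∃ B : ℝ, i < e → ∀ V ∈ U i, ∀ x ∈ V, ∀ y ∈ V, d x y ≤ B := by
    intro i
    by_cases hi : i < e
    · obtain ⟨B, hB⟩ := h1 i hi
      exact ⟨B, fun _ => hB⟩
    · exact ⟨0, fun h => absurd h hi⟩
  choose B hB using h5
  obtain ⟨κ, h6, h7⟩ := exists_base (Y := Y) (s := fun _ => s) (c := fun x => (p x).1)
    (fun x => (p x).2) (hprop (∑ i ∈ Finset.range e, |B i|)).toFinset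
    (by
      intro x hx y hy hc hs
      by_contra hne
      obtain ⟨h8, h9, h10⟩ := hp x hx
      obtain ⟨h11, h12, h13⟩ := hp y hy
      have hc' : (p x).1 = (p y).1 := hc
      rw [← hc'] at h12
      have h14 := h2 (p x).1 h8 (p x).2 h9 (p y).2 h12 hne x h10 y h13
      rw [dist_eq d hinv x y] at h14
      have h15 := dist_le_sum d s hs
      linarith)
    (by
      intro x hx y hy hc hl
      obtain ⟨h8, h9, h10⟩ := hp x hx
      obtain ⟨h11, h12, h13⟩ := hp y hy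
      have hl' : (p x).2 = (p y).2 := hl
      rw [← hl'] at h13
      rw [Set.Finite.mem_toFinset]
      show d 1 (x⁻¹ * y) ≤ _
      rw [← dist_eq d hinv x y]
      refine (hB _ h8 _ h9 x h10 y h13).trans ((le_abs_self _).trans ?_)
      exact Finset.single_le_sum (f := fun i => |B i|) (fun _ _ => abs_nonneg _)
        (Finset.mem_range.2 h8))
  exact ⟨fun x => (p x).1, κ, _, fun x hx => (hp x hx).1, h6, h7⟩

end

end Pool.Agent.TH18.APC
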