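import Pool.Agent.TH18.APC.TreeMetric
import Pool.Agent.TH18.APC.LocPoly

/-! The tree theorem for edge groups locally of polynomial growth. -/

set_option autoImplicit false

namespace Pool.Agent.TH18.APC

open Classical Pointwise Pool.Agent.TH18.AC

/-- random shells for one window of polynomial growth -/
theorem shells {G : Type} [Group G] {Φ : Finset G} (h1 : (1 : G) ∈ Φ) (hs : ∀ a ∈ Φ, a⁻¹ ∈ Φ)
    (C q : ℕ) (hCq : ∀ n, (Φ ^ n).card ≤ C * (n + 1) ^ q) (FR : Finset G)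
    (hFR1 : (1 : G) ∈ FR) :
    ∃ (on : G → Prop) (lab : G → Set G) (D : Finset G) (c : G → ℕ) (κ : G → Finset G)
      (L : Finset G),
      (∀ x y, ¬ on x → ¬ on y → x⁻¹ * y ∈ Φ → lab x = lab y) ∧
      (∀ x y, ¬ on x → ¬ on y → lab x = lab y → x⁻¹ * y ∈ D) ∧
      (∀ x, on x → c x < (q + 1) * (q + 1)) ∧
      (∀ x y, on x → on y → c x = c y → x⁻¹ * y ∈ FR → κ x = κ y) ∧
      (∀ x y, on x → on y → c x = c y → κ x = κ y → x⁻¹ * y ∈ L) := by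
  let K : ℕ := 4 ^ (q + 1)
  obtain ⟨T0, hT0, hscale⟩ := exists_scale ((FR ^ q).card * K * ((FR ^ q).card * 2))
    ((FR ^ q).card * K * ((FR ^ q).card * C)) q
  have hone : ∀ n, (1 : G) ∈ Φ ^ n := by
    intro n
    have : (1 : G) ∈ Φ ^ 0 := by rw [pow_zero]; exact Finset.mem_one.2 rfl
    exact pow_mono' h1 (Nat.zero_le _) this
  obtain ⟨T, hTT, hdoub⟩ := doubling (fun n => (Φ ^ n).card) C q hCq
    (fun n => Finset.card_pos.2 ⟨1, hone n⟩) T0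
  have hT : 0 < T := lt_of_lt_of_le hT0 hTT
  obtain ⟨Z, hZ1, hZ2⟩ := exists_net h1 hs T
  obtain ⟨ω, c, κ, L, hc1, hc2, hc3⟩ := shell_cover FR hFR1 (fun x => NP Φ Z T x) hT
    (fun x v => bad Φ T (v⁻¹ * x)) K (Φ ^ (3 * T)).card q
    (fun x => card_NP h1 hs hZ1 K hdoub x) (fun x v => card_bad h1 T _)
    (by
      intro v A hA
      have hsub : A.image (fun y => v⁻¹ * y) ⊆ Φ ^ (3 * T) := by
        intro g hg
        obtain ⟨y, hy, rfl⟩ := Finset.mem_image.1 hg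
        exact ((mem_NP hs).1 (hA y hy)).2
      have := Finset.card_le_card hsub
      rwa [Finset.card_image_of_injective _ (mul_right_injective v⁻¹)] at this)
    ((Φ ^ (3 * T))⁻¹ * Φ ^ (3 * T))
    (by
      intro v y y' hy hy'
      have h4 : y⁻¹ * y' = (v⁻¹ * y)⁻¹ * (v⁻¹ * y') := by group
      rw [h4]
      exact Finset.mul_mem_mul (Finset.inv_mem_inv ((mem_NP hs).1 hy).2) ((mem_NP hs).1 hy').2)
    (by
      refine le_trans ?_ (hscale T hTT)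
      have h4 : (FR ^ q).card * K * ((FR ^ q).card * (Φ ^ (3 * T)).card) + 1 ≤
          (FR ^ q).card * K * ((FR ^ q).card * C) * (3 * T + 1) ^ q + 1 := by
        have h5 := Nat.mul_le_mul_left ((FR ^ q).card * K * (FR ^ q).card) (hCq (3 * T))
        refine Nat.succ_le_succ ?_
        calc (FR ^ q).card * K * ((FR ^ q).card * (Φ ^ (3 * T)).card)
            = (FR ^ q).card * K * (FR ^ q).card * (Φ ^ (3 * T)).card := by ring
          _ ≤ (FR ^ q).card * K * (FR ^ q).card * (C * (3 * T + 1) ^ q) := h5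
          _ = (FR ^ q).card * K * ((FR ^ q).card * C) * (3 * T + 1) ^ q := by ring
      have h6 : ((((FR ^ q).card * K : ℕ) : ℝ) * (((FR ^ q).card * 2 : ℕ) : ℝ)) =
          (((FR ^ q).card * K * ((FR ^ q).card * 2) : ℕ) : ℝ) := by push_cast; ring
      rw [h6]
      refine mul_le_mul_of_nonneg_left ?_ (by positivity)
      exact_mod_cast h4)
  let on : G → Prop := fun x => ∃ v ∈ NP Φ Z T x, ω v ∈ bad Φ T (v⁻¹ * x)
  have hstep : ∀ x y, ¬ on x → x⁻¹ * y ∈ Φ → ∀ z ∈ Z, z⁻¹ * x ∈ Φ ^ (2 * T + (ω z : ℕ)) →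
      z⁻¹ * y ∈ Φ ^ (2 * T + (ω z : ℕ)) := by
    intro x y hx hxy z hz hzx
    have h3 : z ∈ NP Φ Z T x := (mem_NP hs).2 ⟨hz, pow_mono' h1 (by have := (ω z).2; omega) hzx⟩
    have h4 : z⁻¹ * x ∈ Φ ^ (2 * T + (ω z : ℕ) - 1) := by
      by_contra h
      refine hx ⟨z, h3, ?_⟩
      rw [bad, Finset.mem_filter]
      exact ⟨Finset.mem_univ _, pow_mono' h1 (Nat.le_succ _) hzx, h⟩
    have h5 : z⁻¹ * y = z⁻¹ * x * (x⁻¹ * y) := by group
    have h6 : 2 * T + (ω z : ℕ) = (2 * T + (ω z : ℕ) - 1) + 1 := by omega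
    rw [h5, h6, pow_succ]
    exact Finset.mul_mem_mul h4 hxy
  refine ⟨on, fun x => {z | z ∈ Z ∧ z⁻¹ * x ∈ Φ ^ (2 * T + ω z)},
    (Φ ^ (3 * T))⁻¹ * Φ ^ (3 * T), c, κ, L, ?_, ?_, hc1, hc2, hc3⟩
  · intro x y hx hy hxy
    have hyx : y⁻¹ * x ∈ Φ := by
      have := hs _ hxy
      rwa [mul_inv_rev, inv_inv] at this
    ext z
    exact ⟨fun h => ⟨h.1, hstep x y hx hxy z h.1 h.2⟩,
      fun h => ⟨h.1, hstep y x hy hyx z h.1 h.2⟩⟩
  · intro x y _ _ hl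
    obtain ⟨z, hz, hzx⟩ := hZ2 x
    have h7 : z ∈ {z | z ∈ Z ∧ z⁻¹ * x ∈ Φ ^ (2 * T + (ω z : ℕ))} :=
      ⟨hz, pow_mono' h1 (Nat.le_add_right _ _) hzx⟩
    have hl' : {z | z ∈ Z ∧ z⁻¹ * x ∈ Φ ^ (2 * T + (ω z : ℕ))} =
      {z | z ∈ Z ∧ z⁻¹ * y ∈ Φ ^ (2 * T + (ω z : ℕ))} := hl
    rw [hl'] at h7
    have h8 : x⁻¹ * y = (z⁻¹ * x)⁻¹ * (z⁻¹ * y) := by group
    rw [h8]
    exact Finset.mul_mem_mul (Finset.inv_mem_inv (pow_mono' h1 (by omega) hzx))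
      (pow_mono' h1 (by have := (ω z).2; omega) h7.2)

section
variable {G ι : Type} [Group G] {C : Subgroup G} {A : ι → Subgroup G} {t : G → Option ι}
  {ℓ : G → ℕ}

/-- finite subsets have polynomial growth -/
def PolyG (B : Set G) : Prop :=
  ∀ Φ : Finset G, (∀ a ∈ Φ, a ∈ B) → ∃ K q : ℕ, ∀ n, (Φ ^ n).card ≤ K * (n + 1) ^ q

/-- **The tree theorem** for edge groups locally of polynomial growth. -/
theorem APC_treeP (hT : TStr C A t ℓ) (hU : APCon ((C : Set G) ∪ ⋃ i, (A i : Set G)))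
    (N : Subgroup G) [hN : N.Normal] (hP : PolyG {x | x ∈ C ∧ x ∈ N}) :
    APCon (N : Set G) := by
  refine APCon_of_Dec (fun F => ?_)
  let Ψ : Finset G := (Finset.range 2).biUnion F
  have hΨ : ∀ j < 2, F j ⊆ Ψ := fun j hj =>
    Finset.subset_biUnion_of_mem F (Finset.mem_range.2 hj)
  obtain ⟨-, M₀, -, hM1, hM2⟩ := window hT Ψ
  let M : ℕ := M₀ + 1
  obtain ⟨n, ρ, S, hen, hdec, hp⟩ := go_up hT hU F 2 (2 * M)
  choose! p hp0 hp1 hp2 using hp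
  have hpath : ∀ x ∈ S, ∀ j ≤ 2 * M,
      Relation.ReflTransGen (fun x e => e ∈ Ent A t x) x (p x j) ∧ ℓ (p x j) + j = ℓ x := by
    intro x hx j hj
    have := path_anc hT (hp1 x hx) j hj
    rwa [hp0 x hx] at this
  let a : G → ℕ := fun x => ℓ x / M
  let m : G → ℕ := fun x => ℓ x % M + M
  let z : G → G := fun x => p x (m x)
  have hMpos : 0 < M := Nat.succ_pos _
  have hm1 : ∀ x, m x < 2 * M := by
    intro x
    have := Nat.mod_lt (ℓ x) hMpos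
    show ℓ x % M + M < 2 * M
    omega
  have hm2 : ∀ x, M ≤ m x := fun x => Nat.le_add_left _ _
  have hz : ∀ x ∈ S, Relation.ReflTransGen (fun x e => e ∈ Ent A t x) x (z x) ∧
      ℓ (z x) + m x = ℓ x := fun x hx => hpath x hx (m x) (hm1 x).le
  have hzρ : ∀ x ∈ S, x⁻¹ * z x ∈ ρ := fun x hx => hp2 x hx _ (hm1 x).le
  have hℓ : ∀ x, ℓ x + M = a x * M + m x := by
    intro x
    have := Nat.div_add_mod (ℓ x) M
    show ℓ x + M = ℓ x / M * M + (ℓ x % M + M)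
    rw [mul_comm] at this
    omega
  -- points which are close and have the same parity are close to the same edge
  have hedge : ∀ x ∈ S, ∀ y ∈ S, a x % 2 = a y % 2 → x⁻¹ * y ∈ Ψ → (z x)⁻¹ * z y ∈ C := by
    intro x hx y hy hpar hs'
    have hxy := hM1 x y hs'
    have haa : a x = a y := by
      have h5 : ℓ x < ℓ y + M := by show ℓ x < ℓ y + (M₀ + 1); omega
      have h6 : ℓ y < ℓ x + M := by show ℓ y < ℓ x + (M₀ + 1); omega
      have h7 : a x ≤ a y + 1 := by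
        have h8 : ℓ x / M ≤ (ℓ y + M) / M := Nat.div_le_div_right h5.le
        rwa [Nat.add_div_right _ hMpos] at h8
      have h8 : a y ≤ a x + 1 := by
        have h8 : ℓ y / M ≤ (ℓ x + M) / M := Nat.div_le_div_right h6.le
        rwa [Nat.add_div_right _ hMpos] at h8
      omega
    obtain ⟨hzx1, hzx2⟩ := hz x hx
    obtain ⟨hzy1, hzy2⟩ := hz y hy
    have hℓx := hℓ x
    have hℓy := hℓ y
    rw [← haa] at hℓy
    have hmx := hm2 x
    have hMM : M₀ + 1 = M := rfl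
    have h5 := hM2 x y (z x) hs' hzx1 (by omega)
    exact anc_unique hT (ℓ y) y _ _ rfl h5 hzy1 (by omega)
  -- correction by elements of `C`
  have hcc : ∀ g : G, ∃ c ∈ C, ∃ n ∈ N,
      g * c = n * Quotient.out (QuotientGroup.mk g : G ⧸ (N ⊔ C)) := by
    intro g
    obtain ⟨⟨h, hh⟩, h4⟩ := QuotientGroup.mk_out_eq_mul (N ⊔ C) g
    have h4' : Quotient.out (QuotientGroup.mk g : G ⧸ (N ⊔ C)) = g * h := h4
    have h5 : h ∈ (N : Set G) * (C : Set G) := by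
      rw [← Subgroup.normal_mul]
      exact hh
    obtain ⟨n, hn, c, hc, rfl⟩ := h5
    refine ⟨c, hc, g * n⁻¹ * g⁻¹, hN.conj_mem _ (N.inv_mem hn) g, ?_⟩
    rw [h4']
    show g * c = g * n⁻¹ * g⁻¹ * (g * (n * c))
    group
  choose cc hcC nn hnN hcc using hcc
  let ρ' : Finset G := ρ.image (fun g => g * cc g)
  let zt : G → G := fun x => z x * cc (x⁻¹ * z x)
  have hzt : ∀ x ∈ S, x⁻¹ * zt x ∈ ρ' := by
    intro x hx
    refine Finset.mem_image.2 ⟨x⁻¹ * z x, hzρ x hx, ?_⟩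
    show x⁻¹ * z x * cc (x⁻¹ * z x) = x⁻¹ * (z x * cc (x⁻¹ * z x))
    rw [mul_assoc]
  have hztC : ∀ x y, (z x)⁻¹ * z y ∈ C → (zt x)⁻¹ * zt y ∈ C := by
    intro x y h
    have h4 : (zt x)⁻¹ * zt y = (cc (x⁻¹ * z x))⁻¹ * ((z x)⁻¹ * z y) * cc (y⁻¹ * z y) := by
      show (z x * cc (x⁻¹ * z x))⁻¹ * (z y * cc (y⁻¹ * z y)) = _
      group
    rw [h4]
    exact C.mul_mem (C.mul_mem (C.inv_mem (hcC _)) h) (hcC _)
  have hztN : ∀ x ∈ N, ∀ y ∈ N, (z x)⁻¹ * z y ∈ C → (zt x)⁻¹ * zt y ∈ N := by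
    intro x hx y hy h
    have h4 : (QuotientGroup.mk (x⁻¹ * z x) : G ⧸ (N ⊔ C)) = QuotientGroup.mk (y⁻¹ * z y) := by
      rw [QuotientGroup.eq]
      have h5 : (x⁻¹ * z x)⁻¹ * (y⁻¹ * z y) =
          ((z x)⁻¹ * (x * y⁻¹) * (z x)⁻¹⁻¹) * ((z x)⁻¹ * z y) := by group
      rw [h5]
      exact (N ⊔ C).mul_mem (Subgroup.mem_sup_left
        (hN.conj_mem _ (N.mul_mem hx (N.inv_mem hy)) _)) (Subgroup.mem_sup_right h)
    have h5 : zt x = x * nn (x⁻¹ * z x) *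
        Quotient.out (QuotientGroup.mk (x⁻¹ * z x) : G ⧸ (N ⊔ C)) := by
      rw [mul_assoc, ← hcc]
      show z x * cc (x⁻¹ * z x) = _
      group
    have h6 : zt y = y * nn (y⁻¹ * z y) *
        Quotient.out (QuotientGroup.mk (x⁻¹ * z x) : G ⧸ (N ⊔ C)) := by
      rw [h4, mul_assoc, ← hcc]
      show z y * cc (y⁻¹ * z y) = _
      group
    rw [h5, h6]
    set b := Quotient.out (QuotientGroup.mk (x⁻¹ * z x) : G ⧸ (N ⊔ C))
    have h7 : (x * nn (x⁻¹ * z x) * b)⁻¹ * (y * nn (y⁻¹ * z y) * b) =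
        b⁻¹ * ((nn (x⁻¹ * z x))⁻¹ * x⁻¹ * y * nn (y⁻¹ * z y)) * b⁻¹⁻¹ := by group
    rw [h7]
    exact hN.conj_mem _ (N.mul_mem (N.mul_mem (N.mul_mem (N.inv_mem (hnN _)) (N.inv_mem hx)) hy)
      (hnN _)) _
  -- the window in the edge group
  let Φ' : Finset G := (ρ'⁻¹ * Ψ * ρ').filter (fun g => g ∈ C ∧ g ∈ N)
  let Φ : Finset G := insert 1 (Φ' ∪ Φ'⁻¹)
  have h1Φ : (1 : G) ∈ Φ := Finset.mem_insert_self _ _
  have hsΦ : ∀ a ∈ Φ, a⁻¹ ∈ Φ := by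
    intro a ha
    rcases Finset.mem_insert.1 ha with rfl | ha
    · rw [inv_one]; exact h1Φ
    · refine Finset.mem_insert_of_mem ?_
      rcases Finset.mem_union.1 ha with ha | ha
      · exact Finset.mem_union_right _ (Finset.inv_mem_inv ha)
      · exact Finset.mem_union_left _ (Finset.mem_inv'.1 ha)
  have hΦC : ∀ a ∈ Φ, a ∈ {x | x ∈ C ∧ x ∈ N} := by
    intro a ha
    rcases Finset.mem_insert.1 ha with rfl | ha
    · exact ⟨C.one_mem, N.one_mem⟩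
    · rcases Finset.mem_union.1 ha with ha | ha
      · exact (Finset.mem_filter.1 ha).2
      · have := (Finset.mem_filter.1 (Finset.mem_inv'.1 ha)).2
        exact ⟨(C.inv_mem_iff).1 this.1, (N.inv_mem_iff).1 this.2⟩
  obtain ⟨K, q, hKq⟩ := hP Φ hΦC
  let m' : ℕ := (q + 1) * (q + 1)
  let FR : Finset G := insert 1 (ρ'⁻¹ * ((Finset.range m').biUnion (fun j => F (n + j))) * ρ')
  obtain ⟨on, lab, D, c, κ, L, hs1, hs2, hs3, hs4, hs5⟩ :=
    shells h1Φ hsΦ K q hKq FR (Finset.mem_insert_self _ _)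
  have hback : ∀ x ∈ S, ∀ y ∈ S, ∀ E : Finset G, (zt x)⁻¹ * zt y ∈ E →
      x⁻¹ * y ∈ ρ' * E * ρ'⁻¹ := by
    intro x hx y hy E hE
    have h4 : x⁻¹ * y = (x⁻¹ * zt x) * ((zt x)⁻¹ * zt y) * (y⁻¹ * zt y)⁻¹ := by group
    rw [h4]
    exact Finset.mul_mem_mul (Finset.mul_mem_mul (hzt x hx) hE) (Finset.inv_mem_inv (hzt y hy))
  have hforth : ∀ x ∈ S, ∀ y ∈ S, ∀ E : Finset G, x⁻¹ * y ∈ E →
      (zt x)⁻¹ * zt y ∈ ρ'⁻¹ * E * ρ' := by
    intro x hx y hy E hE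
    have h4 : (zt x)⁻¹ * zt y = (x⁻¹ * zt x)⁻¹ * (x⁻¹ * y) * (y⁻¹ * zt y) := by group
    rw [h4]
    exact Finset.mul_mem_mul (Finset.mul_mem_mul (Finset.inv_mem_inv (hzt x hx)) hE) (hzt y hy)
  have hoff : Dec F 0 2 {x | (x ∈ S ∧ x ∈ N) ∧ ¬ on (zt x)} := by
    obtain ⟨κ', h4, h5⟩ := exists_base (Y := {x | (x ∈ S ∧ x ∈ N) ∧ ¬ on (zt x)}) (s := F)
      (c := fun x => a x % 2) (fun x => lab (zt x)) (ρ' * D * ρ'⁻¹)
      (by
        rintro x ⟨⟨hxS, hxN⟩, hx⟩ y ⟨⟨hyS, hyN⟩, hy⟩ hc hs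
        have h4 : x⁻¹ * y ∈ Ψ := hΨ _ (Nat.mod_lt _ (by norm_num)) hs
        have h5 := hedge x hxS y hyS hc h4
        refine hs1 _ _ hx hy (Finset.mem_insert_of_mem (Finset.mem_union_left _
          (Finset.mem_filter.2 ⟨hforth x hxS y hyS Ψ h4, hztC x y h5, hztN x hxN y hyN h5⟩))))
      (by
        rintro x ⟨⟨hxS, hxN⟩, hx⟩ y ⟨⟨hyS, hyN⟩, hy⟩ hc hl
        exact hback x hxS y hyS D (hs2 _ _ hx hy hl))
    exact ⟨fun x => a x % 2, κ', _, fun x _ => ⟨Nat.zero_le _, Nat.mod_lt _ (by norm_num)⟩,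
      h4, h5⟩
  have hon : Dec F n (n + m') {x | (x ∈ S ∧ x ∈ N) ∧ on (zt x)} := by
    obtain ⟨κ', h4, h5⟩ := exists_base (Y := {x | (x ∈ S ∧ x ∈ N) ∧ on (zt x)}) (s := F)
      (c := fun x => n + c (zt x)) (fun x => κ (zt x)) (ρ' * L * ρ'⁻¹)
      (by
        rintro x ⟨⟨hxS, hxN⟩, hx⟩ y ⟨⟨hyS, hyN⟩, hy⟩ hc hs
        replace hc : c (zt x) = c (zt y) := Nat.add_left_cancel hc
        have h4 : x⁻¹ * y ∈ (Finset.range m').biUnion (fun j => F (n + j)) :=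
          Finset.mem_biUnion.2 ⟨c (zt x), Finset.mem_range.2 (hs3 _ hx), hs⟩
        exact hs4 _ _ hx hy hc (Finset.mem_insert_of_mem (hforth x hxS y hyS _ h4)))
      (by
        rintro x ⟨⟨hxS, hxN⟩, hx⟩ y ⟨⟨hyS, hyN⟩, hy⟩ hc hl
        exact hback x hxS y hyS L (hs5 _ _ hx hy (Nat.add_left_cancel hc) hl))
    refine ⟨fun x => n + c (zt x), κ', _, ?_, h4, h5⟩
    rintro x ⟨-, hx⟩
    have := hs3 _ hx
    show n ≤ n + c (zt x) ∧ n + c (zt x) < n + m'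
    omega
  refine ⟨n + m', ((hoff.union hdec (Nat.zero_le _) hen).union hon (Nat.zero_le _)
    (Nat.le_add_right _ _)).mono ?_⟩
  intro x hx
  by_cases hxS : x ∈ S
  · by_cases hxo : on (zt x)
    · exact Or.inr ⟨⟨hxS, hx⟩, hxo⟩
    · exact Or.inl (Or.inl ⟨⟨hxS, hx⟩, hxo⟩)
  · exact Or.inl (Or.inr hxS)

end

end Pool.Agent.TH18.APC
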