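import Pool.Agent.TH18.APC.TreePoly
import Pool.Agent.TH18.APC.Series

/-! Amalgamated free products over a subgroup locally of polynomial growth. -/

set_option autoImplicit false

namespace Pool.Agent.TH18.APC

open Classical Pointwise Monoid

theorem pow_card_le {H G : Type} [Group H] [Group G] (θ : H →* G) (Φ' : Finset H) (Φ : Finset G)
    (h : ∀ g ∈ Φ, ∃ x ∈ Φ', θ x = g) (m : ℕ) : (Φ ^ m).card ≤ (Φ' ^ m).card := by
  have h1 : Φ ⊆ Φ'.image θ := by
    intro g hg
    obtain ⟨x, hx, h2⟩ := h g hg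
    exact Finset.mem_image.2 ⟨x, hx, h2⟩
  exact (Finset.card_le_card (Finset.pow_subset_pow_left h1)).trans (pow_image_card θ Φ' m)

section
variable {ι : Type} {G : ι → Type} [∀ i, Group (G i)] {C : Type} [Group C]
  {φ : ∀ i, C →* G i}

/-- **Amalgamated free products over a group locally of polynomial growth.** -/
theorem APC_pushP [Finite ι] [Nonempty ι] (hφ : ∀ i, Function.Injective (φ i))
    (C₀ : Subgroup C) [hC₀ : C₀.Normal] [hC₀i : ∀ i, (C₀.map (φ i)).Normal] {L : Type} [Group L]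
    (R : PushoutI φ →* L) (hG : ∀ i, APCon (Set.univ : Set (G i)))
    (hG0 : ∀ i, APCon (Set.univ : Set (G i ⧸ C₀.map (φ i)))) (hL : APCon (Set.univ : Set L))
    (hC : PolyG ((QuotientGroup.mk' C₀) '' {c | R (PushoutI.base φ c) = 1})) :
    APCon (Set.univ : Set (PushoutI φ)) := by
  obtain ⟨d⟩ := PushoutI.NormalWord.transversal_nonempty φ hφ
  obtain ⟨t, ℓ, hT⟩ : ∃ t ℓ, TStr (PushoutI.base φ).range
      (fun i => (PushoutI.of (φ := φ) i).range) t ℓ := ⟨_, _, push_tree d⟩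
  have hbinj := PushoutI.base_injective hφ
  set M₀ : Subgroup (PushoutI φ) := C₀.map (PushoutI.base φ) with hM₀
  have hof : ∀ i (g : G i), ∀ n ∈ M₀, PushoutI.of i g * n * (PushoutI.of i g)⁻¹ ∈ M₀ := by
    rintro i g _ ⟨c, hc, rfl⟩
    obtain ⟨c', hc', h1⟩ := (hC₀i i).conj_mem (φ i c) ⟨c, hc, rfl⟩ g
    refine ⟨c', hc', ?_⟩
    rw [← PushoutI.of_apply_eq_base φ i, ← PushoutI.of_apply_eq_base φ i, h1, map_mul, map_mul,
      map_inv]
  have hnorm : M₀.Normal := by
    refine ⟨fun n hn g => ?_⟩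
    induction g using PushoutI.induction_on generalizing n with
    | of i g => exact hof i g n hn
    | base c =>
      obtain ⟨i⟩ := ‹Nonempty ι›
      rw [← PushoutI.of_apply_eq_base φ i]
      exact hof i _ n hn
    | mul x y hx hy =>
      have h1 : x * y * n * (x * y)⁻¹ = x * (y * n * y⁻¹) * x⁻¹ := by group
      rw [h1]
      exact hx _ (hy _ hn)
  have hMC : M₀ ≤ (PushoutI.base φ).range := by
    rintro _ ⟨c, -, rfl⟩
    exact ⟨c, rfl⟩
  obtain ⟨t', ℓ', hT'⟩ : ∃ t' ℓ', TStr ((PushoutI.base φ).range.map (QuotientGroup.mk' M₀))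
      (fun i => (PushoutI.of (φ := φ) i).range.map (QuotientGroup.mk' M₀)) t' ℓ' :=
    ⟨_, _, hT.quot M₀ hMC⟩
  have hnormN : (R.ker.map (QuotientGroup.mk' M₀)).Normal :=
    Subgroup.Normal.map inferInstance _ (QuotientGroup.mk'_surjective M₀)
  -- the vertex groups of the quotient
  have hA : ∀ i, APCon (((PushoutI.of (φ := φ) i).range.map (QuotientGroup.mk' M₀) :
      Subgroup (PushoutI φ ⧸ M₀)) : Set (PushoutI φ ⧸ M₀)) := by
    intro i
    have h1 : C₀.map (φ i) ≤ M₀.comap (PushoutI.of i) := by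
      rintro _ ⟨c, hc, rfl⟩
      exact ⟨c, hc, (PushoutI.of_apply_eq_base φ i c).symm⟩
    let θ : G i ⧸ C₀.map (φ i) →* PushoutI φ ⧸ M₀ := QuotientGroup.map _ M₀ (PushoutI.of i) h1
    have hθ : ∀ g : G i, θ (QuotientGroup.mk g) = QuotientGroup.mk (PushoutI.of i g) :=
      fun g => rfl
    have h2 : Function.Injective θ := by
      rw [injective_iff_map_eq_one]
      intro q hq
      obtain ⟨g, rfl⟩ := QuotientGroup.mk_surjective q
      rw [hθ, QuotientGroup.eq_one_iff] at hq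
      rw [QuotientGroup.eq_one_iff]
      obtain ⟨c, hc, h3⟩ := hq
      refine ⟨c, hc, ?_⟩
      rw [← PushoutI.of_apply_eq_base φ i] at h3
      exact PushoutI.of_injective hφ i h3
    refine APCon_mono ?_ (APCon_range θ h2 (hG0 i))
    rintro _ ⟨_, ⟨g, rfl⟩, rfl⟩
    exact ⟨QuotientGroup.mk g, rfl⟩
  have hU : APCon ((((PushoutI.base φ).range.map (QuotientGroup.mk' M₀) :
      Subgroup (PushoutI φ ⧸ M₀)) : Set (PushoutI φ ⧸ M₀)) ∪
      ⋃ i, (((PushoutI.of (φ := φ) i).range.map (QuotientGroup.mk' M₀) :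
      Subgroup (PushoutI φ ⧸ M₀)) : Set (PushoutI φ ⧸ M₀))) := by
    refine APCon_union ?_ (APCon_iUnion _ hA)
    obtain ⟨i⟩ := ‹Nonempty ι›
    exact APCon_mono (hT'.sub i) (hA i)
  -- the edge groups
  have hE : PolyG {x | x ∈ (PushoutI.base φ).range.map (QuotientGroup.mk' M₀) ∧
      x ∈ R.ker.map (QuotientGroup.mk' M₀)} := by
    have h4 : C₀ ≤ M₀.comap (PushoutI.base φ) := fun c hc => ⟨c, hc, rfl⟩
    let θ : C ⧸ C₀ →* PushoutI φ ⧸ M₀ := QuotientGroup.map _ M₀ (PushoutI.base φ) h4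
    have hθ : ∀ c : C, θ (QuotientGroup.mk c) = QuotientGroup.mk (PushoutI.base φ c) :=
      fun c => rfl
    have h5 : Function.Injective θ := by
      rw [injective_iff_map_eq_one]
      intro q hq
      obtain ⟨c, rfl⟩ := QuotientGroup.mk_surjective q
      rw [hθ, QuotientGroup.eq_one_iff] at hq
      rw [QuotientGroup.eq_one_iff]
      obtain ⟨c', hc', h6⟩ := hq
      rw [← hbinj h6]
      exact hc'
    have h7 : ∀ x, x ∈ (PushoutI.base φ).range.map (QuotientGroup.mk' M₀) →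
        x ∈ R.ker.map (QuotientGroup.mk' M₀) →
        ∃ y ∈ (QuotientGroup.mk' C₀) '' {c | R (PushoutI.base φ c) = 1}, θ y = x := by
      rintro x ⟨_, ⟨c₁, rfl⟩, h6⟩ ⟨n, hn, rfl⟩
      have h8 : n ∈ (PushoutI.base φ).range := by
        have h9 : (PushoutI.base φ c₁)⁻¹ * n ∈ M₀ := QuotientGroup.eq.1 h6
        have h10 := (PushoutI.base φ).range.mul_mem ⟨c₁, rfl⟩ (hMC h9)
        rwa [mul_inv_cancel_left] at h10
      obtain ⟨c, rfl⟩ := h8
      exact ⟨QuotientGroup.mk' C₀ c, ⟨c, hn, rfl⟩, rfl⟩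
    intro Φ hΦ
    let Φ' : Finset (C ⧸ C₀) := Φ.preimage θ h5.injOn
    have hΦ' : ∀ g ∈ Φ, ∃ x ∈ Φ', θ x = g := by
      intro g hg
      obtain ⟨y, -, hy⟩ := h7 g (hΦ g hg).1 (hΦ g hg).2
      exact ⟨y, Finset.mem_preimage.2 (by rw [hy]; exact hg), hy⟩
    obtain ⟨K, q, hK⟩ := hC Φ' (by
      intro y hy
      have hy' := Finset.mem_preimage.1 hy
      obtain ⟨y', hy'', h8⟩ := h7 (θ y) (hΦ _ hy').1 (hΦ _ hy').2
      rwa [← h5 h8])
    exact ⟨K, q, fun m => (pow_card_le θ Φ' Φ hΦ' m).trans (hK m)⟩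
  have hN1 := APC_treeP hT' hU _ hE
  have hCapc : APCon (Set.univ : Set C) := by
    obtain ⟨i⟩ := ‹Nonempty ι›
    exact APCon_comap (φ i) (hφ i) (fun _ _ => Set.mem_univ _) (hG i)
  have hM1 : APCon (M₀ : Set (PushoutI φ)) :=
    APCon_mono hMC (APCon_range (PushoutI.base φ) hbinj hCapc)
  have hN2 : APCon (Set.univ : Set R.ker) := by
    refine APC_ext ((QuotientGroup.mk' M₀).subgroupMap R.ker)
      (APCon_comap (R.ker.map (QuotientGroup.mk' M₀)).subtype Subtype.val_injective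
        (fun x _ => x.2) hN1) ?_
    refine APCon_comap R.ker.subtype Subtype.val_injective (fun x hx => ?_) hM1
    have h1 : (QuotientGroup.mk' M₀).subgroupMap R.ker x = 1 := hx
    have h2 : QuotientGroup.mk' M₀ (x : PushoutI φ) = 1 := congrArg Subtype.val h1
    exact (QuotientGroup.eq_one_iff _).1 h2
  refine APC_ext R hL ?_
  have h2 := APCon_range R.ker.subtype Subtype.val_injective hN2
  have h3 : Set.range R.ker.subtype = (R.ker : Set (PushoutI φ)) := by
    rw [Subgroup.coe_subtype]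
    exact Subtype.range_coe
  rw [h3] at h2
  exact h2

end

end Pool.Agent.TH18.APC
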