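import Pool.Agent.TH18.APC.TreeDec
import Pool.Agent.TH18.APC.Metric

/-! Amalgamated free products: the tree structure and the edge groups. -/

set_option autoImplicit false

namespace Pool.Agent.TH18.APC

open Classical Pointwise Monoid

section
variable {ι : Type} {G : ι → Type} [∀ i, Group (G i)] {C : Type} [Group C]
  {φ : ∀ i, C →* G i}

theorem nw_cons {d : PushoutI.NormalWord.Transversal φ} (w : PushoutI.NormalWord d) (i : ι)
    (g : G i) (hmw : w.fstIdx ≠ some i) (hgr : g ∉ (φ i).range) :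
    (PushoutI.of (φ := φ) i g • w).fstIdx = some i ∧
      (PushoutI.of (φ := φ) i g • w).toList.length = w.toList.length + 1 := by
  rw [← PushoutI.NormalWord.cons_eq_smul g w hmw hgr]
  constructor
  · simp [PushoutI.NormalWord.cons, CoprodI.Word.fstIdx, CoprodI.Word.cons]
  · simp [PushoutI.NormalWord.cons, CoprodI.Word.cons]

theorem nw_base {d : PushoutI.NormalWord.Transversal φ} (w : PushoutI.NormalWord d) (c : C) :
    (PushoutI.base φ c • w).fstIdx = w.fstIdx ∧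
      (PushoutI.base φ c • w).toList.length = w.toList.length := by
  rw [PushoutI.NormalWord.base_smul_eq_smul]
  exact ⟨rfl, rfl⟩

theorem nw_ent {d : PushoutI.NormalWord.Transversal φ} (w : PushoutI.NormalWord d) :
    ∀ i : ι, w.fstIdx = some i → ∃ g : G i, (PushoutI.of (φ := φ) i g • w).fstIdx ≠ some i := by
  induction w using PushoutI.NormalWord.consRecOn with
  | empty =>
    intro i hi
    simp [CoprodI.Word.fstIdx] at hi
  | cons j g w hmw hgn hgr hw1 ih =>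
    intro i hi
    have h1 : (PushoutI.NormalWord.cons g w hmw hgr).fstIdx = some j := by
      simp [PushoutI.NormalWord.cons, CoprodI.Word.fstIdx, CoprodI.Word.cons]
    have hij : j = i := by rw [h1] at hi; exact Option.some.inj hi
    subst hij
    refine ⟨g⁻¹, ?_⟩
    rw [PushoutI.NormalWord.cons_eq_smul, ← mul_smul, ← map_mul, inv_mul_cancel, map_one,
      one_smul]
    exact hmw
  | base h w hw1 ih =>
    intro i hi
    rw [(nw_base w h).1] at hi
    obtain ⟨g, hg⟩ := ih i hi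
    refine ⟨g * φ i h⁻¹, ?_⟩
    rw [map_mul, PushoutI.of_apply_eq_base, mul_smul, ← mul_smul (PushoutI.base φ h⁻¹), ← map_mul,
      inv_mul_cancel, map_one, one_smul]
    exact hg

/-- the tree structure of an amalgamated product -/
theorem push_tree [Nonempty ι] (d : PushoutI.NormalWord.Transversal φ) :
    TStr (PushoutI.base φ).range (fun i => (PushoutI.of (φ := φ) i).range)
      (fun x => (x⁻¹ • (PushoutI.NormalWord.empty : PushoutI.NormalWord d)).fstIdx)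
      (fun x => (x⁻¹ • (PushoutI.NormalWord.empty : PushoutI.NormalWord d)).toList.length) where
  sub := by
    rintro i _ ⟨c, rfl⟩
    exact ⟨φ i c, PushoutI.of_apply_eq_base φ i c⟩
  tnone := by
    intro x hx
    have h1 : (x⁻¹ • (PushoutI.NormalWord.empty : PushoutI.NormalWord d)).prod = x⁻¹ := by
      rw [PushoutI.NormalWord.prod_smul, PushoutI.NormalWord.prod_empty, mul_one]
    set w := x⁻¹ • (PushoutI.NormalWord.empty : PushoutI.NormalWord d) with hw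
    have h2 : w.toList = [] := by
      have h3 : w.toList.head?.map Sigma.fst = none := hx
      rw [Option.map_eq_none_iff, List.head?_eq_none_iff] at h3
      exact h3
    have h3 : w.toWord = CoprodI.Word.empty := CoprodI.Word.ext h2
    have h4 : w.prod = PushoutI.base φ w.head := by
      show PushoutI.base φ w.head * PushoutI.ofCoprodI w.toWord.prod = _
      rw [h3, CoprodI.Word.prod_empty, map_one, mul_one]
    refine ⟨w.head⁻¹, ?_⟩
    rw [map_inv, ← h4, h1, inv_inv]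
  tC := by
    rintro x _ ⟨c, rfl⟩
    show ((x * PushoutI.base φ c)⁻¹ •
      (PushoutI.NormalWord.empty : PushoutI.NormalWord d)).fstIdx = _
    rw [mul_inv_rev, ← map_inv, mul_smul, (nw_base _ _).1]
  lC := by
    rintro x _ ⟨c, rfl⟩
    show ((x * PushoutI.base φ c)⁻¹ •
      (PushoutI.NormalWord.empty : PushoutI.NormalWord d)).toList.length = _
    rw [mul_inv_rev, ← map_inv, mul_smul, (nw_base _ _).2]
  down := by
    rintro i x hx _ ⟨g, rfl⟩ hgC
    have hg : g⁻¹ ∉ (φ i).range := by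
      rintro ⟨c, hc⟩
      refine hgC ⟨c⁻¹, ?_⟩
      rw [← PushoutI.of_apply_eq_base φ i, map_inv, hc, inv_inv]
    have h1 := nw_cons (x⁻¹ • (PushoutI.NormalWord.empty : PushoutI.NormalWord d)) i g⁻¹ hx hg
    rw [← mul_smul, map_inv, ← mul_inv_rev] at h1
    exact h1
  ent := by
    intro i x hx
    obtain ⟨g, hg⟩ := nw_ent (x⁻¹ • (PushoutI.NormalWord.empty : PushoutI.NormalWord d)) i hx
    refine ⟨PushoutI.of i g⁻¹, ⟨_, rfl⟩, ?_⟩
    rw [← mul_smul] at hg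
    have h1 : PushoutI.of i g * x⁻¹ = (x * PushoutI.of (φ := φ) i g⁻¹)⁻¹ := by
      rw [mul_inv_rev, map_inv, inv_inv]
    rw [h1] at hg
    exact hg
  gen := by
    rw [eq_top_iff]
    intro x _
    induction x using PushoutI.induction_on with
    | of i g => exact Subgroup.subset_closure (Set.mem_iUnion.2 ⟨i, g, rfl⟩)
    | base c =>
      obtain ⟨i⟩ := ‹Nonempty ι›
      exact Subgroup.subset_closure (Set.mem_iUnion.2 ⟨i, φ i c, PushoutI.of_apply_eq_base φ i c⟩)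
    | mul x y hx hy => exact Subgroup.mul_mem _ (hx trivial) (hy trivial)

end

section
variable {G ι : Type} [Group G]

/-- alternating products of length `k` -/
def Alt (C : Subgroup G) (A : ι → Subgroup G) (k : ℕ) (g : G) : Prop :=
  ∃ (i : ℕ → ι) (a : ℕ → G), (∀ j < k, a j ∈ A (i j) ∧ a j ∉ C) ∧
    (∀ j, j + 1 < k → i j ≠ i (j + 1)) ∧ g = ((List.range k).map a).prod

variable {C : Subgroup G} {A : ι → Subgroup G} {t : G → Option ι} {ℓ : G → ℕ}

theorem alt_of_path [Nonempty ι] (hT : TStr C A t ℓ) {p : ℕ → G} {k : ℕ}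
    (hp : ∀ j < k, p (j + 1) ∈ Ent A t (p j)) : Alt C A k ((p 0)⁻¹ * p k) := by
  choose! i h1 h2 h3 using hp
  refine ⟨i, fun j => (p j)⁻¹ * p (j + 1), ?_, ?_, ?_⟩
  · intro j hj
    refine ⟨h2 j hj, ?_⟩
    intro hc
    have := hT.tC (p j) _ hc
    rw [mul_inv_cancel_left, h1 j hj] at this
    exact h3 j hj this
  · intro j hj hij
    have h4 := h1 (j + 1) hj
    rw [← hij] at h4
    exact h3 j (by omega) h4
  · have key : ∀ m, ((List.range m).map (fun j => (p j)⁻¹ * p (j + 1))).prod =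
        (p 0)⁻¹ * p m := by
      intro m
      induction m with
      | zero => simp
      | succ m ih =>
        rw [List.range_succ, List.map_append, List.prod_append, ih, List.map_singleton,
          List.prod_singleton]
        group
    exact (key k).symm

/-- decompositions into `e` families at every scale -/
def FinDec (B : Set G) (e : ℕ) : Prop :=
  ∀ s : Finset G, ∃ (c : G → ℕ) (κ : G → G) (D : Finset G), (∀ x ∈ B, c x < e) ∧
    (∀ x ∈ B, ∀ y ∈ B, c x = c y → x⁻¹ * y ∈ s → κ x = κ y) ∧ (∀ x ∈ B, (κ x)⁻¹ * x ∈ D)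

theorem edgeDim_of [Nonempty ι] (hT : TStr C A t ℓ) (N : Subgroup G) [hN : N.Normal] (k e : ℕ)
    (h : ∀ g, Alt C A k g → FinDec {x | x ∈ C ∧ g⁻¹ * x * g ∈ C ∧ x ∈ N} e) :
    EdgeDim C A t (N : Set G) k e := by
  intro ρ s
  let P : G → G → G → G → Prop := fun g v u c => c ∈ C ∧ g⁻¹ * c * v⁻¹ ∈ C ∧ c * u⁻¹ ∈ N
  let cw : G → G → G → G := fun g v u => if h : ∃ c, P g v u c then Classical.choose h else 1
  have hcw : ∀ g v u c, P g v u c → P g v u (cw g v u) := by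
    intro g v u c hc
    have h1 : ∃ c, P g v u c := ⟨c, hc⟩
    have h2 : cw g v u = Classical.choose h1 := dif_pos h1
    rw [h2]
    exact Classical.choose_spec h1
  let T : Finset G := ρ⁻¹ * ρ
  let ρ' : Finset G := T.biUnion (fun g => T.biUnion (fun v => T.biUnion (fun u =>
    ρ.image (fun p => cw g v u * p⁻¹))))
  have hρ' : ∀ g ∈ T, ∀ v ∈ T, ∀ u ∈ T, ∀ p ∈ ρ, cw g v u * p⁻¹ ∈ ρ' := by
    intro g hg v hv u hu p hp
    exact Finset.mem_biUnion.2 ⟨g, hg, Finset.mem_biUnion.2 ⟨v, hv, Finset.mem_biUnion.2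
      ⟨u, hu, Finset.mem_image_of_mem _ hp⟩⟩⟩
  have h' : ∀ g, ∃ (c : G → ℕ) (κ : G → G) (D : Finset G), Alt C A k g →
      (∀ x ∈ {x | x ∈ C ∧ g⁻¹ * x * g ∈ C ∧ x ∈ N}, c x < e) ∧
      (∀ x ∈ {x | x ∈ C ∧ g⁻¹ * x * g ∈ C ∧ x ∈ N}, ∀ y ∈ {x | x ∈ C ∧ g⁻¹ * x * g ∈ C ∧ x ∈ N},
        c x = c y → x⁻¹ * y ∈ ρ' * s * ρ'⁻¹ → κ x = κ y) ∧
      (∀ x ∈ {x | x ∈ C ∧ g⁻¹ * x * g ∈ C ∧ x ∈ N}, (κ x)⁻¹ * x ∈ D) := by
    intro g
    by_cases hg : Alt C A k g
    · obtain ⟨c, κ, D, h1⟩ := h g hg (ρ' * s * ρ'⁻¹)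
      exact ⟨c, κ, D, fun _ => h1⟩
    · exact ⟨fun _ => 0, fun _ => 1, ∅, fun h => absurd h hg⟩
  choose c κ D hh using h'
  refine ⟨T.biUnion D * ρ', ?_⟩
  intro Y z z' hYN hz hzC hpath
  rcases Y.eq_empty_or_nonempty with rfl | ⟨x₀, hx₀⟩
  · exact ⟨fun _ => 0, fun _ => 1, fun _ hx => absurd hx (by simp),
      fun _ hx => absurd hx (by simp), fun _ hx => absurd hx (by simp)⟩
  obtain ⟨p, hp0, hpk, hp⟩ := hpath x₀ hx₀
  have halt := alt_of_path hT hp
  rw [hp0, hpk] at halt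
  set g : G := (z x₀)⁻¹ * z' x₀ with hg
  have hgT : g ∈ T := by
    have : g = (x₀⁻¹ * z x₀)⁻¹ * (x₀⁻¹ * z' x₀) := by rw [hg]; group
    rw [this]
    exact Finset.mul_mem_mul (Finset.inv_mem_inv (hz x₀ hx₀).1) (hz x₀ hx₀).2
  obtain ⟨h1, h2, h3⟩ := hh g halt
  let v : G → G := fun x => (z' x)⁻¹ * z x
  let u : G → G := fun x => (z x₀)⁻¹ * x₀ * (x⁻¹ * z x)
  have hvT : ∀ x ∈ Y, v x ∈ T := by
    intro x hx
    have : v x = (x⁻¹ * z' x)⁻¹ * (x⁻¹ * z x) := by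
      show (z' x)⁻¹ * z x = _
      group
    rw [this]
    exact Finset.mul_mem_mul (Finset.inv_mem_inv (hz x hx).2) (hz x hx).1
  have huT : ∀ x ∈ Y, u x ∈ T := by
    intro x hx
    have : u x = (x₀⁻¹ * z x₀)⁻¹ * (x⁻¹ * z x) := by
      show (z x₀)⁻¹ * x₀ * (x⁻¹ * z x) = _
      group
    rw [this]
    exact Finset.mul_mem_mul (Finset.inv_mem_inv (hz x₀ hx₀).1) (hz x hx).1
  have hP : ∀ x ∈ Y, P g (v x) (u x) ((z x₀)⁻¹ * z x) := by
    intro x hx
    refine ⟨(hzC x₀ hx₀ x hx).1, ?_, ?_⟩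
    · have : g⁻¹ * ((z x₀)⁻¹ * z x) * (v x)⁻¹ = (z' x₀)⁻¹ * z' x := by
        show g⁻¹ * ((z x₀)⁻¹ * z x) * ((z' x)⁻¹ * z x)⁻¹ = _
        rw [hg]; group
      rw [this]
      exact (hzC x₀ hx₀ x hx).2
    · have : (z x₀)⁻¹ * z x * (u x)⁻¹ = (z x₀)⁻¹ * (x * x₀⁻¹) * (z x₀)⁻¹⁻¹ := by
        show (z x₀)⁻¹ * z x * ((z x₀)⁻¹ * x₀ * (x⁻¹ * z x))⁻¹ = _
        group
      rw [this]
      exact hN.conj_mem _ (N.mul_mem (hYN hx) (N.inv_mem (hYN hx₀))) _
  have hPw := fun x hx => hcw _ _ _ _ (hP x hx)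
  let nf : G → G := fun x => (z x₀)⁻¹ * z x * (cw g (v x) (u x))⁻¹
  let uf : G → G := fun x => cw g (v x) (u x) * (x⁻¹ * z x)⁻¹
  have huf : ∀ x ∈ Y, uf x ∈ ρ' := fun x hx =>
    hρ' g hgT _ (hvT x hx) _ (huT x hx) _ (hz x hx).1
  have hx : ∀ x, x = z x₀ * nf x * uf x := by
    intro x
    show x = z x₀ * ((z x₀)⁻¹ * z x * (cw g (v x) (u x))⁻¹) * (cw g (v x) (u x) * (x⁻¹ * z x)⁻¹)
    group
  have hnf : ∀ x ∈ Y, nf x ∈ {x | x ∈ C ∧ g⁻¹ * x * g ∈ C ∧ x ∈ N} := by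
    intro x hx
    obtain ⟨h4, h5, h6⟩ := hP x hx
    obtain ⟨h7, h8, h9⟩ := hPw x hx
    refine ⟨C.mul_mem h4 (C.inv_mem h7), ?_, ?_⟩
    · have : g⁻¹ * nf x * g = (g⁻¹ * ((z x₀)⁻¹ * z x) * (v x)⁻¹) *
          (g⁻¹ * cw g (v x) (u x) * (v x)⁻¹)⁻¹ := by
        show g⁻¹ * ((z x₀)⁻¹ * z x * (cw g (v x) (u x))⁻¹) * g = _
        group
      rw [this]
      exact C.mul_mem h5 (C.inv_mem h8)
    · have : nf x = ((z x₀)⁻¹ * z x * (u x)⁻¹) * (cw g (v x) (u x) * (u x)⁻¹)⁻¹ := by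
        show (z x₀)⁻¹ * z x * (cw g (v x) (u x))⁻¹ = _
        group
      rw [this]
      exact N.mul_mem h6 (N.inv_mem h9)
  refine ⟨fun x => c g (nf x), fun x => z x₀ * κ g (nf x), ?_, ?_, ?_⟩
  · intro x hx'
    exact h1 _ (hnf x hx')
  · intro x hx' y hy' hc hs
    show z x₀ * κ g (nf x) = z x₀ * κ g (nf y)
    rw [h2 _ (hnf x hx') _ (hnf y hy') hc ?_]
    have h4 : (nf x)⁻¹ * nf y = uf x * (x⁻¹ * y) * (uf y)⁻¹ := by
      show ((z x₀)⁻¹ * z x * (cw g (v x) (u x))⁻¹)⁻¹ *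
        ((z x₀)⁻¹ * z y * (cw g (v y) (u y))⁻¹) =
        cw g (v x) (u x) * (x⁻¹ * z x)⁻¹ * (x⁻¹ * y) * (cw g (v y) (u y) * (y⁻¹ * z y)⁻¹)⁻¹
      group
    rw [h4]
    exact Finset.mul_mem_mul (Finset.mul_mem_mul (huf x hx') hs) (Finset.inv_mem_inv (huf y hy'))
  · intro x hx'
    have h4 : (z x₀ * κ g (nf x))⁻¹ * x = ((κ g (nf x))⁻¹ * nf x) * uf x := by
      have h5 := hx x
      calc (z x₀ * κ g (nf x))⁻¹ * x = (z x₀ * κ g (nf x))⁻¹ * (z x₀ * nf x * uf x) := by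
            rw [← h5]
        _ = _ := by group
    show (z x₀ * κ g (nf x))⁻¹ * x ∈ _
    rw [h4]
    exact Finset.mul_mem_mul (Finset.mem_biUnion.2 ⟨g, hgT, h3 _ (hnf x hx')⟩) (huf x hx')

end

end Pool.Agent.TH18.APC
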