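import Pool.Agent.TH18.APC.Fib

/-! Groups with a tree structure rooted at an edge: separation and ancestors. -/

set_option autoImplicit false

namespace Pool.Agent.TH18.APC

open Classical Pointwise

section
variable {G ι : Type} [Group G]

/-- A tree structure on the group `G`, rooted at the edge group `C`, with vertex groups `A i`:
`t x` is the type of the last syllable of `x`, and `ℓ x` is the number of syllables. -/
structure TStr (C : Subgroup G) (A : ι → Subgroup G) (t : G → Option ι) (ℓ : G → ℕ) : Prop where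
  sub : ∀ i, C ≤ A i
  tnone : ∀ x, t x = none → x ∈ C
  tC : ∀ x, ∀ c ∈ C, t (x * c) = t x
  lC : ∀ x, ∀ c ∈ C, ℓ (x * c) = ℓ x
  down : ∀ i x, t x ≠ some i → ∀ a ∈ A i, a ∉ C → t (x * a) = some i ∧ ℓ (x * a) = ℓ x + 1
  ent : ∀ i x, t x = some i → ∃ a ∈ A i, t (x * a) ≠ some i
  gen : Subgroup.closure (⋃ i, (A i : Set G)) = ⊤

variable {C : Subgroup G} {A : ι → Subgroup G} {t : G → Option ι} {ℓ : G → ℕ}

/-- the entrance of the vertex of `x` -/
def Ent (A : ι → Subgroup G) (t : G → Option ι) (x : G) : Set G :=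
  {e | ∃ i, t x = some i ∧ x⁻¹ * e ∈ A i ∧ t e ≠ some i}

/-- `x` and `y` belong to the same vertex -/
def SameV (A : ι → Subgroup G) (t : G → Option ι) (x y : G) : Prop :=
  (t x = none ∧ t y = none) ∨ ∃ i, t x = some i ∧ t y = some i ∧ x⁻¹ * y ∈ A i

theorem SameV.refl (x : G) : SameV A t x x := by
  rcases h : t x with _ | i
  · exact Or.inl ⟨h, h⟩
  · refine Or.inr ⟨i, h, h, ?_⟩
    rw [inv_mul_cancel]
    exact (A i).one_mem

theorem SameV.symm {x y : G} (h : SameV A t x y) : SameV A t y x := by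
  rcases h with ⟨h1, h2⟩ | ⟨i, h1, h2, h3⟩
  · exact Or.inl ⟨h2, h1⟩
  · refine Or.inr ⟨i, h2, h1, ?_⟩
    have := (A i).inv_mem h3
    rwa [mul_inv_rev, inv_inv] at this

theorem SameV.trans {x y z : G} (h : SameV A t x y) (h' : SameV A t y z) : SameV A t x z := by
  rcases h with ⟨h1, h2⟩ | ⟨i, h1, h2, h3⟩
  · rcases h' with ⟨h4, h5⟩ | ⟨j, h4, h5, h6⟩
    · exact Or.inl ⟨h1, h5⟩
    · rw [h2] at h4; cases h4
  · rcases h' with ⟨h4, h5⟩ | ⟨j, h4, h5, h6⟩
    · rw [h2] at h4; cases h4
    · have hij : i = j := by rw [h2] at h4; exact Option.some.inj h4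
      subst hij
      refine Or.inr ⟨i, h1, h5, ?_⟩
      have := (A i).mul_mem h3 h6
      have h7 : x⁻¹ * z = x⁻¹ * y * (y⁻¹ * z) := by group
      rwa [h7]

theorem Ent_same {x y e : G} (h : SameV A t x y) (he : e ∈ Ent A t x) : e ∈ Ent A t y := by
  obtain ⟨i, h1, h2, h3⟩ := he
  rcases h with ⟨h4, h5⟩ | ⟨j, h4, h5, h6⟩
  · rw [h4] at h1; cases h1
  · have hij : i = j := by rw [h1] at h4; exact Option.some.inj h4
    subst hij
    refine ⟨i, h5, ?_, h3⟩
    have := (A i).mul_mem ((A i).inv_mem h6) h2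
    have h7 : y⁻¹ * e = (x⁻¹ * y)⁻¹ * (x⁻¹ * e) := by group
    rwa [h7]

variable (hT : TStr C A t ℓ)
include hT

theorem Ent_C {x e e' : G} (he : e ∈ Ent A t x) (he' : e' ∈ Ent A t x) : e⁻¹ * e' ∈ C := by
  obtain ⟨i, h1, h2, h3⟩ := he
  obtain ⟨j, h4, h5, h6⟩ := he'
  have hij : i = j := by rw [h1] at h4; exact Option.some.inj h4
  subst hij
  by_contra hcon
  have h7 : e⁻¹ * e' ∈ A i := by
    have := (A i).mul_mem ((A i).inv_mem h2) h5
    have h8 : e⁻¹ * e' = (x⁻¹ * e)⁻¹ * (x⁻¹ * e') := by group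
    rwa [h8]
  have h8 := (hT.down i e h3 _ h7 hcon).1
  rw [mul_inv_cancel_left] at h8
  exact h6 h8

theorem Ent_len {x e : G} (he : e ∈ Ent A t x) : ℓ e + 1 = ℓ x := by
  obtain ⟨i, h1, h2, h3⟩ := he
  have h4 : e⁻¹ * x ∈ A i := by
    have := (A i).inv_mem h2
    rwa [mul_inv_rev, inv_inv] at this
  have h5 : e⁻¹ * x ∉ C := by
    intro h5
    have := hT.tC e _ h5
    rw [mul_inv_cancel_left, h1] at this
    exact h3 this.symm
  have h6 := (hT.down i e h3 _ h4 h5).2
  rw [mul_inv_cancel_left] at h6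
  exact h6.symm

theorem SameV_of_C {x y : G} (h : x⁻¹ * y ∈ C) : SameV A t x y := by
  have h1 : t y = t x := by
    have := hT.tC x _ h
    rwa [mul_inv_cancel_left] at this
  rcases h2 : t x with _ | i
  · exact Or.inl ⟨h2, h1.trans h2⟩
  · exact Or.inr ⟨i, h2, h1.trans h2, hT.sub i h⟩

theorem len_of_C {x y : G} (h : x⁻¹ * y ∈ C) : ℓ y = ℓ x := by
  have := hT.lC x _ h
  rwa [mul_inv_cancel_left] at this

theorem SameV_len {x y : G} (h : SameV A t x y) : ℓ x = ℓ y := by
  rcases h with ⟨h1, h2⟩ | ⟨i, h1, h2, h3⟩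
  · refine (len_of_C hT ?_).symm
    exact C.mul_mem (C.inv_mem (hT.tnone x h1)) (hT.tnone y h2)
  · obtain ⟨a, ha, ha'⟩ := hT.ent i x h1
    have h4 : x * a ∈ Ent A t x := ⟨i, h1, by rwa [inv_mul_cancel_left], ha'⟩
    have h5 := Ent_same (Or.inr ⟨i, h1, h2, h3⟩) h4
    rw [← Ent_len hT h4, ← Ent_len hT h5]

theorem step_tri {i : ι} (x : G) {a : G} (ha : a ∈ A i) :
    SameV A t x (x * a) ∨ x * a ∈ Ent A t x ∨ x ∈ Ent A t (x * a) := by
  by_cases h1 : t x = some i
  · by_cases h2 : t (x * a) = some i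
    · exact Or.inl (Or.inr ⟨i, h1, h2, by rwa [inv_mul_cancel_left]⟩)
    · exact Or.inr (Or.inl ⟨i, h1, by rwa [inv_mul_cancel_left], h2⟩)
  · by_cases h2 : a ∈ C
    · refine Or.inl (SameV_of_C hT ?_)
      rwa [inv_mul_cancel_left]
    · refine Or.inr (Or.inr ⟨i, (hT.down i x h1 a ha h2).1, ?_, h1⟩)
      have : (x * a)⁻¹ * x = a⁻¹ := by group
      rw [this]
      exact (A i).inv_mem ha

/-- **Separation.** -/
theorem separation : ∀ (n : ℕ) (l : List G), l.length = n → (∀ a ∈ l, ∃ i, a ∈ A i) → ∀ x : G,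
    SameV A t x (x * l.prod) ∨ (∃ m ≤ l.length, x * (l.take m).prod ∈ Ent A t x) ∨
      (∃ m ≤ l.length, x * (l.take m).prod ∈ Ent A t (x * l.prod)) := by
  intro n
  induction n using Nat.strong_induction_on with
  | _ n ih =>
    intro l hl hA x
    rcases List.eq_nil_or_concat l with rfl | ⟨l', a, rfl⟩
    · rw [List.prod_nil, mul_one]
      exact Or.inl (SameV.refl x)
    · rw [List.concat_eq_append] at hl hA ⊢
      have hlen : (l' ++ [a]).length = l'.length + 1 := by simp
      obtain ⟨i, hi⟩ := hA a (by simp)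
      have hprod : x * (l' ++ [a]).prod = x * l'.prod * a := by
        rw [List.prod_append, List.prod_singleton, mul_assoc]
      have htake : ∀ m ≤ l'.length, (l' ++ [a]).take m = l'.take m := by
        intro m hm
        rw [List.take_append_of_le_length hm]
      have hA' : ∀ b ∈ l', ∃ i, b ∈ A i := fun b hb => hA b (by simp [hb])
      have hstep := step_tri hT (x * l'.prod) hi
      rw [hprod]
      rcases ih l'.length (by omega) l' rfl hA' x with h1 | ⟨m, hm, h1⟩ | ⟨m, hm, h1⟩
      · rcases hstep with h2 | h2 | h2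
        · exact Or.inl (h1.trans h2)
        · refine Or.inr (Or.inl ⟨(l' ++ [a]).length, le_rfl, ?_⟩)
          rw [List.take_length, hprod]
          exact Ent_same h1.symm h2
        · refine Or.inr (Or.inr ⟨l'.length, by omega, ?_⟩)
          rw [htake _ le_rfl, List.take_length]
          exact h2
      · refine Or.inr (Or.inl ⟨m, by omega, ?_⟩)
        rw [htake _ hm]
        exact h1
      · rcases hstep with h2 | h2 | h2
        · refine Or.inr (Or.inr ⟨m, by omega, ?_⟩)
          rw [htake _ hm]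
          exact Ent_same h2 h1
        · have h3 := SameV_of_C hT (Ent_C hT h1 h2)
          have hml : (l'.take m).length = m := by
            rw [List.length_take]; omega
          rcases ih m (by omega) (l'.take m) hml
            (fun b hb => hA' b (List.mem_of_mem_take hb)) x with h4 | ⟨k, hk, h4⟩ | ⟨k, hk, h4⟩
          · exact Or.inl (h4.trans h3)
          · refine Or.inr (Or.inl ⟨k, by omega, ?_⟩)
            rw [htake _ (by omega)]
            rw [List.take_take, min_eq_left (by omega)] at h4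
            exact h4
          · refine Or.inr (Or.inr ⟨k, by omega, ?_⟩)
            rw [htake _ (by omega)]
            rw [List.take_take, min_eq_left (by omega)] at h4
            exact Ent_same h3 h4
        · refine Or.inr (Or.inr ⟨l'.length, by omega, ?_⟩)
          rw [htake _ le_rfl, List.take_length]
          exact h2

theorem len_chain : ∀ (l : List G), (∀ a ∈ l, ∃ i, a ∈ A i) → ∀ x : G,
    ℓ x ≤ ℓ (x * l.prod) + l.length ∧ ℓ (x * l.prod) ≤ ℓ x + l.length := by
  intro l
  induction l with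
  | nil => intro _ x; simp
  | cons a l ih =>
    intro hA x
    obtain ⟨i, hi⟩ := hA a (by simp)
    have h1 := ih (fun b hb => hA b (by simp [hb])) (x * a)
    rw [List.prod_cons, ← mul_assoc, List.length_cons]
    rcases step_tri hT x hi with h2 | h2 | h2
    · have := SameV_len hT h2
      omega
    · have := Ent_len hT h2
      omega
    · have := Ent_len hT h2
      omega

/-- ancestors -/
theorem anc_len {x e : G} (h : Relation.ReflTransGen (fun x e => e ∈ Ent A t x) x e) :
    ℓ e ≤ ℓ x := by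
  induction h with
  | refl => exact le_rfl
  | tail _ h ih =>
    have := Ent_len hT h
    omega

theorem anc_eq {x e : G} (h : Relation.ReflTransGen (fun x e => e ∈ Ent A t x) x e)
    (hl : ℓ e = ℓ x) : e = x := by
  rcases h.cases_head with h1 | ⟨y, hy, h1⟩
  · exact h1.symm
  · have := anc_len hT h1
    have := Ent_len hT hy
    omega

theorem anc_next {x y e : G} (hxy : SameV A t x y)
    (h : Relation.ReflTransGen (fun x e => e ∈ Ent A t x) x e) (hl : ℓ e < ℓ x) :
    Relation.ReflTransGen (fun x e => e ∈ Ent A t x) y e := by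
  rcases h.cases_head with h1 | ⟨z, hz, h1⟩
  · subst h1
    exact absurd hl (lt_irrefl _)
  · exact Relation.ReflTransGen.head (Ent_same hxy hz) h1

theorem anc_unique : ∀ (n : ℕ) (x e e' : G), ℓ x = n →
    Relation.ReflTransGen (fun x e => e ∈ Ent A t x) x e →
    Relation.ReflTransGen (fun x e => e ∈ Ent A t x) x e' → ℓ e = ℓ e' → e⁻¹ * e' ∈ C := by
  intro n
  induction n using Nat.strong_induction_on with
  | _ n ih =>
    intro x e e' hx h h' hl
    rcases h.cases_head with h1 | ⟨y, hy, h1⟩
    · subst h1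
      have h2 := anc_eq hT h' hl.symm
      subst h2
      rw [inv_mul_cancel]
      exact C.one_mem
    · rcases h'.cases_head with h2 | ⟨y', hy', h2⟩
      · subst h2
        have := anc_len hT h1
        have := Ent_len hT hy
        omega
      · have h3 := Ent_C hT hy hy'
        have h4 := len_of_C hT h3
        have h5 := Ent_len hT hy
        have h6 := anc_len hT h1
        rcases Nat.lt_or_ge (ℓ e) (ℓ y) with h7 | h7
        · exact ih (ℓ y') (by omega) y' e e' rfl
            (anc_next hT (SameV_of_C hT h3) h1 h7) h2 hl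
        · have h8 := anc_eq hT h1 (by omega)
          have h9 := anc_eq hT h2 (by omega)
          rw [h8, h9]
          exact h3

theorem anc_step {i : ι} {x a e : G} (ha : a ∈ A i)
    (h : Relation.ReflTransGen (fun x e => e ∈ Ent A t x) x e) (hl : ℓ e < ℓ x)
    (hl' : ℓ e < ℓ (x * a)) : Relation.ReflTransGen (fun x e => e ∈ Ent A t x) (x * a) e := by
  rcases step_tri hT x ha with h2 | h2 | h2
  · exact anc_next hT h2 h hl
  · rcases h.cases_head with h1 | ⟨z, hz, h1⟩
    · subst h1
      exact absurd hl (lt_irrefl _)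
    · have h3 := Ent_C hT hz h2
      have h4 := len_of_C hT h3
      exact anc_next hT (SameV_of_C hT h3) h1 (by omega)
  · exact Relation.ReflTransGen.head h2 h

theorem anc_chain : ∀ (l : List G), (∀ a ∈ l, ∃ i, a ∈ A i) → ∀ x e : G,
    Relation.ReflTransGen (fun x e => e ∈ Ent A t x) x e → ℓ e + l.length < ℓ x →
    Relation.ReflTransGen (fun x e => e ∈ Ent A t x) (x * l.prod) e := by
  intro l
  induction l with
  | nil =>
    intro _ x e h _
    rwa [List.prod_nil, mul_one]
  | cons a l ih =>
    intro hA x e h hl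
    obtain ⟨i, hi⟩ := hA a (by simp)
    rw [List.length_cons] at hl
    have h1 := len_chain hT [a] (by intro b hb; rw [List.mem_singleton] at hb; rw [hb]; exact ⟨i, hi⟩) x
    rw [List.prod_singleton, List.length_singleton] at h1
    rw [List.prod_cons, ← mul_assoc]
    exact ih (fun b hb => hA b (by simp [hb])) _ e (anc_step hT hi h (by omega) (by omega))
      (by omega)

end

end Pool.Agent.TH18.APC
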